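import Pool.Agent.Helper36.QC.Rank

set_option autoImplicit false

/-!
# Automorphisms of prime order of divisible abelian groups
-/

universe u

namespace Pool.Agent.Helper24.QC

open Pool.Agent.Helper36.QC

/-- the norm map -/
def nrm {A : Type u} [CommGroup A] (φ : A →* A) (q : ℕ) (x : A) : A :=
  ∏ i ∈ Finset.range q, (φ^[i]) x

lemma nrm_pow {A : Type u} [CommGroup A] (φ : A →* A) (q : ℕ) (x : A) (n : ℕ) :
    nrm φ q (x ^ n) = nrm φ q x ^ n := by
  unfold nrm
  rw [← Finset.prod_pow]
  refine Finset.prod_congr rfl fun i _ => ?_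
  exact iterate_map_pow φ i x n

lemma nrm_fixed {A : Type u} [CommGroup A] (φ : A →* A) (q : ℕ) (hφ : ∀ x, (φ^[q]) x = x) (x : A) :
    φ (nrm φ q x) = nrm φ q x := by
  have h1 : φ (nrm φ q x) * x = nrm φ q x * x := by
    have e1 : φ (nrm φ q x) = ∏ i ∈ Finset.range q, (φ^[i + 1]) x := by
      unfold nrm
      rw [map_prod]
      refine Finset.prod_congr rfl fun i _ => ?_
      rw [Function.iterate_succ_apply']
    have e2 := Finset.prod_range_succ' (fun i => (φ^[i]) x) q
    have e3 := Finset.prod_range_succ (fun i => (φ^[i]) x) q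
    rw [hφ x] at e3
    rw [e1]
    have e4 : (φ^[0]) x = x := rfl
    rw [e4] at e2
    rw [← e2, e3]
    rfl
  exact mul_right_cancel h1

/-- An automorphism of order `q` of a divisible abelian group fixing an element `b` with
`b ^ q ≠ 1` fixes infinitely many elements. -/
lemma infinite_fixed {A : Type u} [CommGroup A] (hd : ∀ x : A, ∀ n : ℕ, 0 < n → ∃ y, y ^ n = x)
    (φ : A →* A) (q : ℕ) (hφ : ∀ x, (φ^[q]) x = x) {b : A} (hb : φ b = b) (hbq : b ^ q ≠ 1) :
    {x | φ x = x}.Infinite := by
  intro hf
  let F : Subgroup A := φ.eqLocus (MonoidHom.id A)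
  have hFf : Finite F := hf
  obtain ⟨y, hy⟩ := hd b (Nat.card F) Nat.card_pos
  have h1 : nrm φ q y ∈ F := nrm_fixed φ q hφ y
  have h2 : nrm φ q y ^ Nat.card F = 1 := by
    have := pow_card_eq_one' (x := (⟨nrm φ q y, h1⟩ : F))
    exact congrArg Subtype.val this
  rw [← nrm_pow, hy] at h2
  have hit : ∀ i : ℕ, (φ^[i]) b = b := fun i => by
    induction i with
    | zero => rfl
    | succ i ih => rw [Function.iterate_succ_apply', ih, hb]
  have h3 : nrm φ q b = b ^ q := by
    unfold nrm
    rw [Finset.prod_congr rfl fun i _ => hit i, Finset.prod_const, Finset.card_range]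
  exact hbq (by rw [← h3, h2])

section kernels

variable {M : Type u} [AddCommGroup M]

/-- kernels of the powers of a surjective endomorphism -/
lemma card_ker_pow (f : Module.End ℤ M) (hf : Function.Surjective f) (k : ℕ) :
    Nat.card (LinearMap.ker (f ^ k)) = Nat.card (LinearMap.ker f) ^ k := by
  induction k with
  | zero =>
    rw [pow_zero, pow_zero, Nat.card_eq_one_iff_unique]
    refine ⟨⟨fun x y => ?_⟩, ⟨0⟩⟩
    have hx : (x : M) = 0 := x.2
    have hy : (y : M) = 0 := y.2
    exact Subtype.ext (hx.trans hy.symm)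
  | succ k ih =>
    let g : (LinearMap.ker (f ^ (k + 1))).toAddSubgroup →+ (LinearMap.ker (f ^ k)).toAddSubgroup :=
      { toFun := fun x => ⟨f x, by
          have := x.2
          change (f ^ (k + 1)) (x : M) = 0 at this
          change (f ^ k) (f (x : M)) = 0
          rw [← Module.End.mul_apply, ← pow_succ]
          exact this⟩
        map_zero' := Subtype.ext (map_zero f)
        map_add' := fun x y => Subtype.ext (map_add f _ _) }
    have h1 := AddSubgroup.card_mul_index g.ker
    rw [AddSubgroup.index_ker] at h1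
    have h2 : Nat.card g.range = Nat.card (LinearMap.ker (f ^ k)) := by
      have hs : g.range = ⊤ := by
        rw [AddMonoidHom.range_eq_top]
        intro y
        obtain ⟨x, hx⟩ := hf y
        refine ⟨⟨x, ?_⟩, Subtype.ext hx⟩
        change (f ^ (k + 1)) x = 0
        rw [pow_succ, Module.End.mul_apply, hx]
        exact y.2
      rw [hs]
      exact Nat.card_congr AddSubgroup.topEquiv.toEquiv
    have h3 : Nat.card g.ker = Nat.card (LinearMap.ker f) := by
      refine Nat.card_congr ⟨fun x => ⟨(x : (LinearMap.ker (f ^ (k + 1))).toAddSubgroup),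
        congrArg Subtype.val x.2⟩, fun x => ⟨⟨x, ?_⟩, Subtype.ext x.2⟩, fun x => ?_, fun x => ?_⟩
      · change (f ^ (k + 1)) (x : M) = 0
        have hx : f (x : M) = 0 := x.2
        rw [pow_succ, Module.End.mul_apply, hx, map_zero]
      · rfl
      · rfl
    rw [h2, h3, ih] at h1
    have h4 := pow_succ' (Nat.card (LinearMap.ker f)) k
    rw [h4]
    exact h1.symm

/-- The rank of a divisible abelian group with an automorphism of prime order `p` with finitely
many fixed points. -/
theorem card_tors_eq (p : ℕ) [hp : Fact p.Prime] (hdiv : ∀ x : M, ∀ n : ℕ, 0 < n → ∃ y, n • y = x)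
    (σ : Module.End ℤ M) (hσ : σ ^ p = 1) (hfin : {x : M | σ x = x}.Finite) :
    Nat.card {x : M | p • x = 0} = Nat.card {x : M | σ x = x} ^ (p - 1) := by
  obtain ⟨r, hr⟩ := exists_poly p
  set π : Module.End ℤ M := σ - 1 with hπ
  set ρ : Module.End ℤ M := Polynomial.aeval σ r with hρ
  have hcomm : Commute π ρ := by
    have h1 : π = Polynomial.aeval σ (Polynomial.X - 1 : Polynomial ℤ) := by simp [hπ]
    rw [h1, hρ]
    exact (Commute.all (Polynomial.X - 1 : Polynomial ℤ) r).map (Polynomial.aeval σ)
  have hpoly : ∑ i ∈ Finset.range p, σ ^ i = π ^ (p - 1) + (p : Module.End ℤ M) * (1 + π * ρ) := by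
    have := congrArg (Polynomial.aeval σ) hr
    simpa [hπ, hρ] using this
  -- the fixed points
  have hker : ∀ x : M, x ∈ LinearMap.ker π ↔ σ x = x := by
    intro x
    rw [LinearMap.mem_ker, hπ, LinearMap.sub_apply, Module.End.one_apply, sub_eq_zero]
  have hkf : Finite (LinearMap.ker π) := by
    refine (hfin.subset ?_).to_subtype
    intro x hx
    exact (hker x).1 hx
  -- the norm vanishes
  have hN : ∑ i ∈ Finset.range p, σ ^ i = 0 := by
    apply LinearMap.ext
    intro x
    obtain ⟨y, rfl⟩ := hdiv x (Nat.card (LinearMap.ker π)) Nat.card_pos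
    have h1 : π * (∑ i ∈ Finset.range p, σ ^ i) = 0 := by
      rw [hπ, mul_geom_sum, hσ, sub_self]
    have h2 : (∑ i ∈ Finset.range p, σ ^ i) y ∈ LinearMap.ker π := by
      rw [LinearMap.mem_ker, ← Module.End.mul_apply, h1, LinearMap.zero_apply]
    have h3 : Nat.card (LinearMap.ker π) •
        (⟨(∑ i ∈ Finset.range p, σ ^ i) y, h2⟩ : LinearMap.ker π) = 0 := card_nsmul_eq_zero'
    rw [map_nsmul, LinearMap.zero_apply]
    exact congrArg Subtype.val h3
  have hT0 : ∀ t : M, (π ^ (p - 1)) t + p • (t + π (ρ t)) = 0 := by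
    intro t
    have h2 := congrArg (fun f : Module.End ℤ M => f t) hN
    simp only [LinearMap.zero_apply] at h2
    rw [hpoly] at h2
    simpa [Module.End.mul_apply, LinearMap.add_apply] using h2
  -- the last kernel
  have hK : ∀ t : M, t ∈ LinearMap.ker (π ^ (p - 1)) ↔ p • t = 0 := by
    intro t
    rw [LinearMap.mem_ker]
    constructor
    · intro ht0
      have h1 := hT0 t
      rw [ht0, zero_add, smul_add] at h1
      have h2 : p • t = (-(π * ρ)) (p • t) := by
        rw [LinearMap.neg_apply, Module.End.mul_apply, map_nsmul, map_nsmul]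
        exact eq_neg_of_add_eq_zero_left h1
      have h3 : ∀ k : ℕ, p • t = ((-(π * ρ)) ^ k) (p • t) := by
        intro k
        induction k with
        | zero => simp
        | succ k ih =>
          rw [pow_succ, Module.End.mul_apply, ← h2]
          exact ih
      have h4 := h3 (p - 1)
      have h5 : (-(π * ρ)) ^ (p - 1) = ((-ρ) ^ (p - 1)) * π ^ (p - 1) := by
        have : -(π * ρ) = (-ρ) * π := by rw [neg_mul, hcomm.eq]
        rw [this, Commute.mul_pow]
        exact (Commute.neg_left hcomm.symm)
      rw [h5, Module.End.mul_apply, map_nsmul, ht0, smul_zero, map_zero] at h4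
      exact h4
    · intro ht
      have h1 := hT0 t
      rw [smul_add, ht, ← map_nsmul, ← map_nsmul, ht, map_zero, map_zero, add_zero, add_zero] at h1
      exact h1
  -- surjectivity
  have hsurj : Function.Surjective π := by
    intro t
    obtain ⟨s, rfl⟩ := hdiv t p hp.out.pos
    have h1 := hT0 s
    have hp2 := hp.out.two_le
    have h2 : (π ^ (p - 1)) s = π ((π ^ (p - 2)) s) := by
      rw [← Module.End.mul_apply, ← pow_succ']
      congr 2
      omega
    refine ⟨-((π ^ (p - 2)) s) - p • ρ s, ?_⟩
    rw [map_sub, map_neg, map_nsmul, ← h2]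
    have h3 : p • s = -((π ^ (p - 1)) s) - p • π (ρ s) := by
      rw [smul_add] at h1
      rw [eq_sub_iff_add_eq, eq_neg_iff_add_eq_zero, add_comm, ← h1]
    rw [h3]
  have h1 := card_ker_pow π hsurj (p - 1)
  have h2 : Nat.card (LinearMap.ker (π ^ (p - 1))) = Nat.card {x : M | p • x = 0} :=
    Nat.card_congr (Equiv.subtypeEquivRight hK)
  have h3 : Nat.card (LinearMap.ker π) = Nat.card {x : M | σ x = x} :=
    Nat.card_congr (Equiv.subtypeEquivRight hker)
  rw [h2, h3] at h1
  exact h1

end kernels

end Pool.Agent.Helper24.QC
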