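import Pool.Agent.Helper24.QC.Basic
import Pool.Agent.Helper24.QC.RankP

set_option autoImplicit false

/-!
# Pairs all of whose finite products have nontrivial centralizers
-/

universe u

namespace Pool.Agent.Helper24.QC

open Subgroup Pool.Agent.Helper36.QC Pointwise

variable {G : Type u} [Group G]

/-- For every `g` such that `⟨a, b^g⟩` is finite, some `z ≠ 1` commutes with `a` and `b^g`. -/
def CentCond (a b : G) : Prop :=
  ∀ g : G, Finite (gen a b g) → ∃ z : G, z ≠ 1 ∧ z * a = a * z ∧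
    z * (g⁻¹ * b * g) = (g⁻¹ * b * g) * z

lemma CentCond.pow_right [IsSimpleGroup G] {a b : G} (h : CentCond a b)
    (hG : IsQuasiChernikov G) {k : ℕ} (he : ∀ g : G, g ∉ good a b) : CentCond a (b ^ k) := by
  intro g _
  have hfin : Finite (gen a b g) := by
    by_contra h'
    exact he g (hG.gen_eq_top h')
  obtain ⟨z, hz1, hza, hzb⟩ := h g hfin
  refine ⟨z, hz1, hza, ?_⟩
  have h1 : g⁻¹ * b ^ k * g = (g⁻¹ * b * g) ^ k := by
    have := conj_pow (i := k) (a := g⁻¹) (b := b)
    rw [inv_inv] at this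
    exact this.symm
  rw [h1]
  exact (show Commute z (g⁻¹ * b * g) from hzb).pow_right k

lemma CentCond.symm {a b : G} (h : CentCond a b) : CentCond b a := by
  intro g hg
  have hmap : (gen a b g⁻¹) = (gen b a g).map (MulAut.conj g).toMonoidHom := by
    apply le_antisymm
    · refine gen_le ?_ ?_
      · exact ⟨_, right_mem_gen b a g, by simp; group⟩
      · exact ⟨_, left_mem_gen b a g, by simp⟩
    · rw [map_le_iff_le_comap]
      refine gen_le ?_ ?_
      · change g * b * g⁻¹ ∈ gen a b g⁻¹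
        have := right_mem_gen a b g⁻¹
        rwa [inv_inv] at this
      · change g * (g⁻¹ * a * g) * g⁻¹ ∈ gen a b g⁻¹
        have e : g * (g⁻¹ * a * g) * g⁻¹ = a := by group
        rw [e]
        exact left_mem_gen _ _ _
  have hfin : Finite (gen a b g⁻¹) := by
    rw [hmap]
    exact Set.Finite.to_subtype (Set.Finite.image _ (Set.toFinite (gen b a g : Set G)))
  obtain ⟨z, hz1, hza, hzb⟩ := h g⁻¹ hfin
  rw [inv_inv] at hzb
  refine ⟨g⁻¹ * z * g, ?_, ?_, ?_⟩
  · intro h0
    apply hz1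
    have : z = g * (g⁻¹ * z * g) * g⁻¹ := by group
    rw [this, h0]; group
  · calc g⁻¹ * z * g * b = g⁻¹ * (z * (g * b * g⁻¹)) * g := by group
      _ = g⁻¹ * ((g * b * g⁻¹) * z) * g := by rw [hzb]
      _ = b * (g⁻¹ * z * g) := by group
  · calc g⁻¹ * z * g * (g⁻¹ * a * g) = g⁻¹ * (z * a) * g := by group
      _ = g⁻¹ * (a * z) * g := by rw [hza]
      _ = g⁻¹ * a * g * (g⁻¹ * z * g) := by group

/-- the main argument when both centralizers are finite -/
theorem good_of_finite [IsSimpleGroup G] (hG : IsQuasiChernikov G) {a b : G}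
    (hz : CentCond a b)
    (ha : Finite (centralizer ({a} : Set G))) (hb : Finite (centralizer ({b} : Set G))) :
    (good a b).Infinite := by
  classical
  have := hG.infinite
  intro hfin
  have hfin' : Finite (good a b) := hfin
  let ι := (good a b) ⊕ ({z : centralizer ({a} : Set G) // (z : G) ≠ 1} ×
    centralizer ({b} : Set G))
  have hι : Finite ι := inferInstance
  have : Fintype ι := Fintype.ofFinite ι
  let H : ι → Subgroup G := fun i => match i with
    | Sum.inl _ => ⊥
    | Sum.inr (z, _) => centralizer ({((z : centralizer ({a} : Set G)) : G)} : Set G)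
  let c : ι → G := fun i => match i with
    | Sum.inl g => g
    | Sum.inr (z, w) => if h : ∃ g : G, g * (z : centralizer ({a} : Set G)) * g⁻¹ = (w : G)
        then h.choose else 1
  have hcov : ⋃ i ∈ (Finset.univ : Finset ι), (c i) • (H i : Set G) = Set.univ := by
    rw [Set.eq_univ_iff_forall]
    intro g
    simp only [Finset.mem_univ, Set.iUnion_true, Set.mem_iUnion]
    by_cases hg : g ∈ good a b
    · refine ⟨Sum.inl ⟨g, hg⟩, ?_⟩
      change g ∈ g • ((⊥ : Subgroup G) : Set G)
      rw [mem_leftCoset_iff]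
      simp
    · have hfg : Finite (gen a b g) := by
        by_contra h
        exact hg (hG.gen_eq_top h)
      obtain ⟨z, hz1, hzc, hzc'⟩ := hz g hfg
      have hza : z ∈ centralizer ({a} : Set G) := by
        rw [mem_centralizer_singleton_iff]
        exact hzc
      have hzb : g * z * g⁻¹ ∈ centralizer ({b} : Set G) := by
        rw [mem_centralizer_singleton_iff]
        have e1 : g * z * g⁻¹ * b = g * (z * (g⁻¹ * b * g)) * g⁻¹ := by group
        have e2 : b * (g * z * g⁻¹) = g * ((g⁻¹ * b * g) * z) * g⁻¹ := by group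
        rw [e1, e2, hzc']
      refine ⟨Sum.inr (⟨⟨z, hza⟩, hz1⟩, ⟨_, hzb⟩), ?_⟩
      have hex : ∃ t : G, t * z * t⁻¹ = g * z * g⁻¹ := ⟨g, rfl⟩
      have hc : c (Sum.inr (⟨⟨z, hza⟩, hz1⟩, ⟨_, hzb⟩)) = hex.choose := by
        change (if h : ∃ t : G, t * z * t⁻¹ = g * z * g⁻¹ then h.choose else 1) = _
        rw [dif_pos hex]
      rw [hc]
      have hs := hex.choose_spec
      set t := hex.choose with ht
      change g ∈ t • ((centralizer ({z} : Set G) : Subgroup G) : Set G)
      rw [mem_leftCoset_iff]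
      rw [SetLike.mem_coe, mem_centralizer_singleton_iff]
      have e1 : t⁻¹ * g * z = t⁻¹ * (g * z * g⁻¹) * g := by group
      rw [e1, ← hs]; group
  obtain ⟨i, -, hi⟩ := Subgroup.exists_finiteIndex_of_leftCoset_cover hcov
  have hne : H i ≠ ⊤ := by
    rcases i with g | ⟨z, w⟩
    · exact bot_ne_top
    · exact centralizer_ne_top z.2
  exact not_finiteIndex hne hi

/-- a power of prime order -/
lemma exists_prime_pow [IsSimpleGroup G] (hG : IsQuasiChernikov G) {z : G} (hz : z ≠ 1) :
    ∃ k : ℕ, (orderOf (z ^ k)).Prime := by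
  have ho1 : orderOf z ≠ 1 := fun h => hz (orderOf_eq_one_iff.1 h)
  have hpos := (isOfFinOrder hG z).orderOf_pos
  obtain ⟨q, hq, hqa⟩ := Nat.exists_prime_and_dvd ho1
  refine ⟨orderOf z / q, ?_⟩
  have ho : orderOf (z ^ (orderOf z / q)) = q := by
    rw [orderOf_pow_of_dvd _ (Nat.div_dvd_of_dvd hqa), Nat.div_div_self hqa hpos.ne']
    have := Nat.div_pos (Nat.le_of_dvd hpos hqa) hq.pos
    omega
  rw [ho]; exact hq

/-- **Types.** One of the centralizers is infinite and every element of prime order commuting with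
`b` and with a conjugate of `a` centralizes infinitely many elements of a divisible abelian
subgroup `A`. -/
theorem good_of_types [IsSimpleGroup G] (hG : IsQuasiChernikov G) {a b : G} (ha1 : a ≠ 1)
    (hz : CentCond a b)
    (hinf : Infinite (centralizer ({a} : Set G)) ∨ Infinite (centralizer ({b} : Set G)))
    {A : Subgroup G} (hA1 : A ≠ ⊥) (hAc : Comm A) (hAd : Dvb A)
    (h : ∀ z g : G, (orderOf z).Prime → z * b = b * z →
      z * (g⁻¹ * a * g) = (g⁻¹ * a * g) * z → {x : G | x ∈ A ∧ z * x = x * z}.Infinite) :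
    (good a b).Infinite := by
  intro hf
  have hempty := good_empty hf hinf
  refine exists_conj hG ha1 hA1 hAc hAd ?_
  intro g
  have hfin : Finite (gen a b g⁻¹) := by
    by_contra h'
    exact hempty g⁻¹ (hG.gen_eq_top h')
  obtain ⟨z, hz1, hza, hzb⟩ := hz g⁻¹ hfin
  rw [inv_inv] at hzb
  have hw1 : g⁻¹ * z * g ≠ 1 := by
    intro h0
    apply hz1
    have : z = g * (g⁻¹ * z * g) * g⁻¹ := by group
    rw [this, h0]; group
  have hwb : Commute (g⁻¹ * z * g) b := by
    change g⁻¹ * z * g * b = b * (g⁻¹ * z * g)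
    calc g⁻¹ * z * g * b = g⁻¹ * (z * (g * b * g⁻¹)) * g := by group
      _ = g⁻¹ * ((g * b * g⁻¹) * z) * g := by rw [hzb]
      _ = b * (g⁻¹ * z * g) := by group
  have hwa : Commute (g⁻¹ * z * g) (g⁻¹ * a * g) := by
    change g⁻¹ * z * g * (g⁻¹ * a * g) = g⁻¹ * a * g * (g⁻¹ * z * g)
    calc g⁻¹ * z * g * (g⁻¹ * a * g) = g⁻¹ * (z * a) * g := by group
      _ = g⁻¹ * (a * z) * g := by rw [hza]
      _ = g⁻¹ * a * g * (g⁻¹ * z * g) := by group
  obtain ⟨k, hk⟩ := exists_prime_pow hG hw1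
  set w := (g⁻¹ * z * g) ^ k with hw
  have hwb' : Commute w b := hwb.pow_left k
  have hwa' : Commute w (g⁻¹ * a * g) := hwa.pow_left k
  refine ⟨zpowers w, ?_, ?_, ?_⟩
  · intro h0
    rw [zpowers_eq_bot] at h0
    rw [h0, orderOf_one] at hk
    exact Nat.not_prime_one hk
  · have hfix : ∀ x ∈ zpowers w, (g⁻¹ * a * g) * x * (g⁻¹ * a * g)⁻¹ = x := by
      rintro _ ⟨j, rfl⟩
      have := (hwa'.zpow_left j).eq
      change (g⁻¹ * a * g) * w ^ j * (g⁻¹ * a * g)⁻¹ = w ^ j
      rw [← this]; group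
    intro x
    constructor
    · intro hx
      rw [hfix x hx]; exact hx
    · intro hx
      have h1 := hfix _ hx
      have h2 : (g⁻¹ * a * g) * x * (g⁻¹ * a * g)⁻¹ = x := by
        have h3 := mul_left_cancel (mul_right_cancel h1)
        exact h3
      rw [h2] at hx; exact hx
  · refine (h w g hk hwb'.eq hwa'.eq).mono ?_
    rintro x ⟨hx, hwx⟩
    refine ⟨hx, ?_⟩
    rw [mem_centralizer_iff]
    rintro _ ⟨j, rfl⟩
    exact ((show Commute w x from hwx).zpow_left j).eq

lemma infinite_of_dvb {A : Subgroup G} (hd : Dvb A) (hA : A ≠ ⊥) : Infinite A := by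
  by_contra hf
  rw [not_infinite_iff_finite] at hf
  obtain ⟨x, hx1⟩ := ne_bot_iff_exists_ne_one.1 hA
  obtain ⟨y, hy, hyx⟩ := hd x x.2 (Nat.card A) Nat.card_pos
  have h1 : y ^ Nat.card A = 1 := by
    have := pow_card_eq_one' (x := (⟨y, hy⟩ : A))
    exact congrArg Subtype.val this
  apply hx1
  apply Subtype.ext
  rw [← hyx, h1]
  rfl

/-- conjugation by an element normalizing `A` -/
def cjHom (A : Subgroup G) (z : G) (h : ∀ x, x ∈ A ↔ z * x * z⁻¹ ∈ A) : A →* A where
  toFun := fun x => ⟨z * x * z⁻¹, (h x).1 x.2⟩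
  map_one' := Subtype.ext (by simp)
  map_mul' := fun x y => Subtype.ext (by simp)

lemma cjHom_iterate (A : Subgroup G) (z : G) (h : ∀ x, x ∈ A ↔ z * x * z⁻¹ ∈ A) (n : ℕ) (x : A) :
    (((cjHom A z h)^[n] x : A) : G) = z ^ n * x * (z ^ n)⁻¹ := by
  induction n with
  | zero => simp
  | succ n ih =>
    rw [Function.iterate_succ_apply']
    change z * ((cjHom A z h)^[n] x : A) * z⁻¹ = _
    rw [ih, pow_succ']
    group

/-- **Elements of non-prime order of divisible abelian subgroups.** -/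
theorem good_of_div [IsSimpleGroup G] (hG : IsQuasiChernikov G) {a b : G} (ha1 : a ≠ 1)
    (hb1 : b ≠ 1) (hz : CentCond a b) {A0 : Subgroup G} (hA0c : Comm A0) (hA0d : Dvb A0)
    (hb : b ∈ A0) (hbo : ¬ (orderOf b).Prime) : (good a b).Infinite := by
  have := hG.infinite
  have hA0 : A0 ≠ ⊥ := by
    rintro rfl
    exact hb1 (mem_bot.1 hb)
  have hA0C : A0 ≤ centralizer ({b} : Set G) := by
    intro y hy
    rw [mem_centralizer_singleton_iff]
    exact hA0c y hy b hb
  have hinf : Infinite (centralizer ({b} : Set G)) := by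
    have := infinite_of_dvb hA0d hA0
    exact Infinite.of_injective (inclusion hA0C) (inclusion_injective hA0C)
  obtain ⟨A, hA, -⟩ := exists_isDiv hG (centralizer_ne_top hb1)
  have hA0A : A0 ≤ A := hA.2.2.2 A0 hA0C hA0d
  refine good_of_types hG ha1 hz (Or.inr hinf) (A := A) ?_ hA.2.1 hA.2.2.1 ?_
  · intro h
    exact hA0 (by rw [eq_bot_iff, ← h]; exact hA0A)
  intro z g hzp hzb _
  have hzC : z ∈ centralizer ({b} : Set G) := by
    rw [mem_centralizer_singleton_iff]; exact hzb
  have hzn : ∀ x, x ∈ A ↔ z * x * z⁻¹ ∈ A := by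
    refine hA.normalizes fun x => ?_
    constructor
    · intro hx
      exact mul_mem (mul_mem hzC hx) (inv_mem hzC)
    · intro hx
      have := mul_mem (mul_mem (inv_mem hzC) hx) hzC
      have e : z⁻¹ * (z * x * z⁻¹) * z = x := by group
      rwa [e] at this
  let iC : CommGroup A :=
    { (inferInstance : Group A) with
      mul_comm := fun x y => Subtype.ext (hA.2.1 x x.2 y y.2) }
  have h1 := infinite_fixed (A := A) (fun x n hn => by
      obtain ⟨y, hy, hyx⟩ := hA.2.2.1 x x.2 n hn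
      exact ⟨⟨y, hy⟩, Subtype.ext hyx⟩) (cjHom A z hzn) (orderOf z) (fun x => by
      apply Subtype.ext
      rw [cjHom_iterate, pow_orderOf_eq_one]
      simp) (b := ⟨b, hA0A hb⟩) (by
      apply Subtype.ext
      change z * b * z⁻¹ = b
      rw [hzb]; group) (by
      intro h
      have h2 : b ^ orderOf z = 1 := congrArg Subtype.val h
      have h3 := orderOf_dvd_of_pow_eq_one h2
      rcases (Nat.dvd_prime hzp).1 h3 with h4 | h4
      · exact hb1 (orderOf_eq_one_iff.1 h4)
      · exact hbo (h4 ▸ hzp))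
  refine (h1.image Subtype.val_injective.injOn).mono ?_
  rintro _ ⟨x, hx, rfl⟩
  refine ⟨x.2, ?_⟩
  have h2 : z * (x : G) * z⁻¹ = x := congrArg Subtype.val hx
  calc z * (x : G) = (z * (x : G) * z⁻¹) * z := by group
    _ = x * z := by rw [h2]

/-- a maximal divisible abelian subgroup -/
def MaxDiv (M : Subgroup G) : Prop :=
  Comm M ∧ Dvb M ∧ ∀ M' : Subgroup G, Comm M' → Dvb M' → M ≤ M' → M' = M

/-- the case of a `p`-group, one infinite centralizer -/
theorem good_of_pgroup_aux [IsSimpleGroup G] (hG : IsQuasiChernikov G) {p : ℕ} (hp : p.Prime)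
    (hpG : IsPGroup p G) (hr : ∀ M : Subgroup G, M ≠ ⊥ → MaxDiv M →
      ∀ k : ℕ, Nat.card {x : G // x ∈ M ∧ x ^ p = 1} ≠ p ^ ((p - 1) * k))
    {a b : G} (ha1 : a ≠ 1) (hb1 : b ≠ 1) (hz : CentCond a b)
    (hinf : Infinite (centralizer ({b} : Set G))) : (good a b).Infinite := by
  have := hG.infinite
  have hFp : Fact p.Prime := ⟨hp⟩
  have hCt := centralizer_ne_top hb1
  obtain ⟨A0, hA0, hA0f⟩ := exists_isDiv hG hCt
  have hA0ne : A0 ≠ ⊥ := by
    intro h
    rw [h, bot_subgroupOf, finiteIndex_iff, index_bot] at hA0f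
    exact hA0f Nat.card_eq_zero_of_infinite
  obtain ⟨M, hM, -⟩ := exists_isDiv hG (centralizer_ne_top' hA0ne)
  have hA0M : A0 ≤ M := by
    refine hM.2.2.2 A0 ?_ hA0.2.2.1
    intro x hx
    rw [mem_centralizer_iff]
    intro y hy
    exact hA0.2.1 y hy x hx
  have hMne : M ≠ ⊥ := by
    intro h
    exact hA0ne (by rw [eq_bot_iff, ← h]; exact hA0M)
  have hMm : MaxDiv M := by
    refine ⟨hM.2.1, hM.2.2.1, fun M' hc hd hle => le_antisymm ?_ hle⟩
    refine hM.2.2.2 M' ?_ hd
    intro x hx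
    rw [mem_centralizer_iff]
    intro y hy
    exact hc y (hle (hA0M hy)) x hx
  refine good_of_types hG ha1 hz (Or.inr hinf) hMne hM.2.1 hM.2.2.1 ?_
  intro z g hzp hzb _ hfin
  have hzC : z ∈ centralizer ({b} : Set G) := by
    rw [mem_centralizer_singleton_iff]; exact hzb
  have hzn : ∀ x, x ∈ M ↔ z * x * z⁻¹ ∈ M := by
    refine hM.normalizes (centralizer_normalizes (hA0.normalizes fun x => ?_))
    constructor
    · intro hx
      exact mul_mem (mul_mem hzC hx) (inv_mem hzC)
    · intro hx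
      have := mul_mem (mul_mem (inv_mem hzC) hx) hzC
      have e : z⁻¹ * (z * x * z⁻¹) * z = x := by group
      rwa [e] at this
  have hzo : z ^ p = 1 := by
    obtain ⟨k, hk⟩ := (IsPGroup.iff_orderOf.1 hpG) z
    have h1 : orderOf z ∣ p := by
      rw [hk] at hzp ⊢
      have h2 : k = 1 := Nat.Prime.eq_one_of_pow hzp
      rw [h2, pow_one]
    exact orderOf_dvd_iff_pow_eq_one.1 h1
  let iC : CommGroup M :=
    { (inferInstance : Group M) with
      mul_comm := fun x y => Subtype.ext (hM.2.1 x x.2 y y.2) }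
  let σ : Module.End ℤ (Additive M) := (MonoidHom.toAdditive (cjHom M z hzn)).toIntLinearMap
  have hσi : ∀ (k : ℕ) (y : Additive M),
      ((((σ ^ k) y).toMul : M) : G) = z ^ k * ((y.toMul : M) : G) * (z ^ k)⁻¹ := by
    intro k
    induction k with
    | zero => intro y; simp
    | succ k ih =>
      intro y
      rw [pow_succ, Module.End.mul_apply, ih]
      change z ^ k * (z * ((y.toMul : M) : G) * z⁻¹) * (z ^ k)⁻¹ = _
      rw [pow_succ]; group
  have hσp : σ ^ p = 1 := by
    apply LinearMap.ext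
    intro y
    apply Additive.toMul.injective
    apply Subtype.ext
    have := hσi p y
    rw [hzo] at this
    simpa using this
  have hfix : ∀ x : Additive M, σ x = x ↔ z * ((x.toMul : M) : G) = ((x.toMul : M) : G) * z := by
    intro x
    constructor
    · intro h
      have h2 : z * ((x.toMul : M) : G) * z⁻¹ = ((x.toMul : M) : G) :=
        congrArg (fun y : Additive M => ((y.toMul : M) : G)) h
      calc z * ((x.toMul : M) : G) = (z * ((x.toMul : M) : G) * z⁻¹) * z := by group
        _ = _ := by rw [h2]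
    · intro h
      apply Additive.toMul.injective
      apply Subtype.ext
      change z * ((x.toMul : M) : G) * z⁻¹ = ((x.toMul : M) : G)
      rw [h]; group
  have hinj : Function.Injective (fun x : Additive M => ((x.toMul : M) : G)) := by
    intro x y h
    exact Additive.toMul.injective (Subtype.ext h)
  have hfin' : {x : Additive M | σ x = x}.Finite := by
    refine Set.Finite.of_finite_image (f := fun x : Additive M => ((x.toMul : M) : G))
      (hfin.subset ?_) hinj.injOn
    rintro _ ⟨x, hx, rfl⟩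
    exact ⟨(x.toMul : M).2, (hfix x).1 hx⟩
  have h1 := card_tors_eq p (M := Additive M) (fun x n hn => by
      obtain ⟨y, hy, hyx⟩ := hM.2.2.1 (x.toMul : M) (x.toMul : M).2 n hn
      exact ⟨Additive.ofMul ⟨y, hy⟩, congrArg Additive.ofMul (Subtype.ext hyx :
        (⟨y, hy⟩ : M) ^ n = x.toMul)⟩) σ hσp hfin'
  -- the fixed points form a finite `p`-group
  let F : Subgroup G := M ⊓ centralizer ({z} : Set G)
  have hFf : Finite F := by
    refine (hfin.subset ?_).to_subtype
    rintro x ⟨hx, hxz⟩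
    exact ⟨hx, (mem_centralizer_singleton_iff.1 hxz).symm⟩
  have hFc : Nat.card F = Nat.card {x : Additive M | σ x = x} := by
    refine Nat.card_congr ⟨fun x => ⟨Additive.ofMul ⟨x, x.2.1⟩, ?_⟩,
      fun x => ⟨(x.1.toMul : M), (x.1.toMul : M).2, ?_⟩, fun x => rfl, fun x => rfl⟩
    · rw [Set.mem_ofPred_eq, hfix]
      exact (mem_centralizer_singleton_iff.1 x.2.2).symm
    · exact mem_centralizer_singleton_iff.2 ((hfix _).1 x.2).symm
  obtain ⟨k, hk⟩ := IsPGroup.iff_card.1 (hpG.to_subgroup F)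
  have h2 : Nat.card {x : Additive M | p • x = 0} = Nat.card {x : G // x ∈ M ∧ x ^ p = 1} := by
    refine Nat.card_congr ⟨fun x => ⟨(x.1.toMul : M), (x.1.toMul : M).2, ?_⟩,
      fun x => ⟨Additive.ofMul ⟨x.1, x.2.1⟩, ?_⟩, fun x => rfl, fun x => rfl⟩
    · have hx : (x.1.toMul : M) ^ p = 1 := x.2
      exact congrArg Subtype.val hx
    · exact congrArg Additive.ofMul (Subtype.ext x.2.2 : (⟨x.1, x.2.1⟩ : M) ^ p = 1)
  rw [h2, ← hFc, hk, ← pow_mul, mul_comm] at h1
  exact hr M hMne hMm k h1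

lemma centCond_of_pgroup {p : ℕ} (hp : p.Prime) (hpG : IsPGroup p G) {a b : G} (ha1 : a ≠ 1) :
    CentCond a b := by
  intro g hg
  have hFp : Fact p.Prime := ⟨hp⟩
  have : Nontrivial (gen a b g) :=
    ⟨⟨⟨a, left_mem_gen _ _ _⟩, 1, fun h => ha1 (congrArg Subtype.val h)⟩⟩
  have h1 := (hpG.to_subgroup (gen a b g)).center_nontrivial
  obtain ⟨z, hz1⟩ := exists_ne (1 : center (gen a b g))
  refine ⟨((z : gen a b g) : G), ?_, ?_, ?_⟩
  · intro h
    exact hz1 (Subtype.ext (Subtype.ext h))
  · exact (congrArg Subtype.val (mem_center_iff.1 z.2 ⟨a, left_mem_gen _ _ _⟩)).symm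
  · exact (congrArg Subtype.val (mem_center_iff.1 z.2 ⟨_, right_mem_gen a b g⟩)).symm

/-- **`p`-groups** -/
theorem good_of_pgroup [IsSimpleGroup G] (hG : IsQuasiChernikov G) {p : ℕ} (hp : p.Prime)
    (hpG : IsPGroup p G) (hr : ∀ M : Subgroup G, M ≠ ⊥ → MaxDiv M →
      ∀ k : ℕ, Nat.card {x : G // x ∈ M ∧ x ^ p = 1} ≠ p ^ ((p - 1) * k))
    {a b : G} (ha1 : a ≠ 1) (hb1 : b ≠ 1) : (good a b).Infinite := by
  by_cases hb : Infinite (centralizer ({b} : Set G))
  · exact good_of_pgroup_aux hG hp hpG hr ha1 hb1 (centCond_of_pgroup hp hpG ha1) hb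
  by_cases ha : Infinite (centralizer ({a} : Set G))
  · exact good_symm (good_of_pgroup_aux hG hp hpG hr hb1 ha1 (centCond_of_pgroup hp hpG hb1) ha)
  · rw [not_infinite_iff_finite] at ha hb
    exact good_of_finite hG (centCond_of_pgroup hp hpG ha1) ha hb

end Pool.Agent.Helper24.QC
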