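import Pool.Agent.Helper24.QC.Reps
import Pool.Agent.Helper24.QC.Cent

set_option autoImplicit false

/-!
# Maximal divisible abelian subgroups attached to elements
-/

universe u

namespace Pool.Agent.Helper24.QC

open Subgroup Pool.Agent.Helper36.QC

variable {G : Type u} [Group G]

lemma IsDiv.unique {H N N' : Subgroup G} (h : IsDiv H N) (h' : IsDiv H N') : N = N' :=
  le_antisymm (h'.2.2.2 N h.1 h.2.2.1) (h.2.2.2 N' h'.1 h'.2.2.1)

lemma cjg_cjg (A : Subgroup G) (g h : G) : cjg (cjg A g) h = cjg A (g * h) := by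
  ext x
  exact cjg_mul.symm

lemma cjg_one (A : Subgroup G) : cjg A 1 = A := by
  ext x
  rw [mem_cjg]
  simp

lemma comm_cjg {A : Subgroup G} (hA : Comm A) (g : G) : Comm (cjg A g) := by
  intro x hx y hy
  have h1 := hA _ hx _ hy
  calc x * y = g⁻¹ * ((g * x * g⁻¹) * (g * y * g⁻¹)) * g := by group
    _ = g⁻¹ * ((g * y * g⁻¹) * (g * x * g⁻¹)) * g := by rw [h1]
    _ = y * x := by group

lemma cjg_mono {A B : Subgroup G} (h : A ≤ B) (g : G) : cjg A g ≤ cjg B g := fun _ hx => h hx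

lemma cjg_ne_bot {A : Subgroup G} (hA : A ≠ ⊥) (g : G) : cjg A g ≠ ⊥ := by
  intro h
  apply hA
  have h1 : cjg (cjg A g) g⁻¹ = A := by rw [cjg_cjg, mul_inv_cancel, cjg_one]
  rw [← h1, h, eq_bot_iff]
  intro x hx
  rw [mem_cjg, mem_bot] at hx
  rw [mem_bot]
  have : x = g * (g⁻¹ * x * g⁻¹⁻¹) * g⁻¹ := by group
  rw [this, hx]; group

lemma maxDiv_cjg {M : Subgroup G} (hM : MaxDiv M) (g : G) : MaxDiv (cjg M g) := by
  refine ⟨comm_cjg hM.1 g, dvb_cjg hM.2.1 g, fun M' hc hd hle => ?_⟩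
  have h1 : M ≤ cjg M' g⁻¹ := by
    have := cjg_mono hle g⁻¹
    rwa [cjg_cjg, mul_inv_cancel, cjg_one] at this
  have h2 := hM.2.2 _ (comm_cjg hc g⁻¹) (dvb_cjg hd g⁻¹) h1
  rw [← h2, cjg_cjg, inv_mul_cancel, cjg_one]

/-- the divisible part of the centralizer of a nontrivial divisible abelian subgroup -/
lemma maxDiv_of_isDiv {A M : Subgroup G} (hAc : Comm A) (hAd : Dvb A)
    (hM : IsDiv (centralizer (A : Set G)) M) : A ≤ M ∧ MaxDiv M := by
  have hAM : A ≤ M := by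
    refine hM.2.2.2 A ?_ hAd
    intro x hx
    rw [mem_centralizer_iff]
    intro y hy
    exact hAc y hy x hx
  refine ⟨hAM, hM.2.1, hM.2.2.1, fun M' hc hd hle => le_antisymm ?_ hle⟩
  refine hM.2.2.2 M' ?_ hd
  intro x hx
  rw [mem_centralizer_iff]
  intro y hy
  exact hc y (hle (hAM hy)) x hx

lemma exists_maxDiv [IsSimpleGroup G] (hG : IsQuasiChernikov G) {A : Subgroup G} (hA : A ≠ ⊥)
    (hAc : Comm A) (hAd : Dvb A) : ∃ M, MaxDiv M ∧ A ≤ M := by
  have := hG.infinite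
  obtain ⟨M, hM, -⟩ := exists_isDiv hG (centralizer_ne_top' hA)
  exact ⟨M, (maxDiv_of_isDiv hAc hAd hM).2, (maxDiv_of_isDiv hAc hAd hM).1⟩

/-- maximal divisible abelian subgroups meeting in a nontrivial divisible subgroup are equal -/
lemma maxDiv_eq [IsSimpleGroup G] (hG : IsQuasiChernikov G) {M M' D : Subgroup G} (hM : MaxDiv M)
    (hM' : MaxDiv M') (hD : D ≠ ⊥) (h : D ≤ M) (h' : D ≤ M') : M = M' := by
  have := hG.infinite
  obtain ⟨E, hE, -⟩ := exists_isDiv hG (centralizer_ne_top' hD)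
  have key : ∀ L : Subgroup G, MaxDiv L → D ≤ L → E = L := by
    intro L hL hDL
    have h1 : L ≤ E := by
      refine hE.2.2.2 L ?_ hL.2.1
      intro x hx
      rw [mem_centralizer_iff]
      intro y hy
      exact hL.1 y (hDL hy) x hx
    exact hL.2.2 E hE.2.1 hE.2.2.1 h1
  rw [← key M hM h, ← key M' hM' h']

/-- `x` centralizes a nontrivial divisible subgroup of the maximal divisible abelian
subgroup `M` -/
def Att (x : G) (M : Subgroup G) : Prop :=
  MaxDiv M ∧ ∃ D : Subgroup G, D ≠ ⊥ ∧ Dvb D ∧ D ≤ M ∧ D ≤ centralizer ({x} : Set G)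

lemma Att.div [IsSimpleGroup G] (hG : IsQuasiChernikov G) {x : G} {M : Subgroup G}
    (h : Att x M) {E : Subgroup G} (hE : IsDiv (centralizer ({x} : Set G)) E) :
    E ≤ M ∧ E ≠ ⊥ := by
  obtain ⟨hM, D, hD, hDd, hDM, hDx⟩ := h
  have hDE : D ≤ E := hE.2.2.2 D hDx hDd
  have hEne : E ≠ ⊥ := fun h => hD (by rw [eq_bot_iff, ← h]; exact hDE)
  obtain ⟨M', hM', hEM'⟩ := exists_maxDiv hG hEne hE.2.1 hE.2.2.1
  have h1 := maxDiv_eq hG hM hM' hD hDM (hDE.trans hEM')
  rw [h1]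
  exact ⟨hEM', hEne⟩

lemma Att.unique [IsSimpleGroup G] (hG : IsQuasiChernikov G) {x : G} (hx : x ≠ 1)
    {M M' : Subgroup G} (h : Att x M) (h' : Att x M') : M = M' := by
  have := hG.infinite
  obtain ⟨E, hE, -⟩ := exists_isDiv hG (centralizer_ne_top hx)
  exact maxDiv_eq hG h.1 h'.1 (h.div hG hE).2 (h.div hG hE).1 (h'.div hG hE).1

lemma Att.ne_bot {x : G} {M : Subgroup G} (h : Att x M) : M ≠ ⊥ := by
  obtain ⟨-, D, hD, -, hDM, -⟩ := h
  intro h
  exact hD (by rw [eq_bot_iff, ← h]; exact hDM)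

lemma exists_att [IsSimpleGroup G] (hG : IsQuasiChernikov G) {x : G} (hx : x ≠ 1)
    (hinf : Infinite (centralizer ({x} : Set G))) : ∃ M, Att x M := by
  have := hG.infinite
  obtain ⟨E, hE, hEf⟩ := exists_isDiv hG (centralizer_ne_top hx)
  have hEne : E ≠ ⊥ := by
    intro h
    rw [h, bot_subgroupOf, finiteIndex_iff, index_bot] at hEf
    exact hEf Nat.card_eq_zero_of_infinite
  obtain ⟨M, hM, hEM⟩ := exists_maxDiv hG hEne hE.2.1 hE.2.2.1
  exact ⟨M, hM, E, hEne, hE.2.2.1, hEM, hE.1⟩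

lemma Att.infinite {x : G} {M : Subgroup G} (h : Att x M) :
    Infinite (centralizer ({x} : Set G)) := by
  obtain ⟨-, D, hD, hDd, -, hDx⟩ := h
  have := infinite_of_dvb hDd hD
  exact Infinite.of_injective (inclusion hDx) (inclusion_injective hDx)

/-- the divisible part of an infinite abelian subgroup -/
lemma att_of_infinite [IsSimpleGroup G] (hG : IsQuasiChernikov G) {x : G} {M A : Subgroup G}
    (hM : MaxDiv M) (hAM : A ≤ M) (hinf : {t : G | t ∈ A ∧ t * x = x * t}.Infinite) :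
    ∃ D : Subgroup G, D ≠ ⊥ ∧ Dvb D ∧ D ≤ A ∧ D ≤ centralizer ({x} : Set G) := by
  have := hG.infinite
  have hAt : A ⊓ centralizer ({x} : Set G) ≠ ⊤ := by
    intro h
    exact comm_ne_top hM.1 (top_le_iff.1 (by
      rw [← h]
      exact inf_le_left.trans hAM))
  obtain ⟨D, hD, hDf⟩ := exists_isDiv hG hAt
  refine ⟨D, ?_, hD.2.2.1, hD.1.trans inf_le_left, hD.1.trans inf_le_right⟩
  intro h
  rw [h, bot_subgroupOf, finiteIndex_iff, index_bot] at hDf
  apply hDf
  have : Infinite (A ⊓ centralizer ({x} : Set G) : Subgroup G) := by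
    refine Set.infinite_coe_iff.2 (hinf.mono ?_)
    rintro t ⟨ht, htx⟩
    exact ⟨ht, mem_centralizer_singleton_iff.2 htx⟩
  exact Nat.card_eq_zero_of_infinite

lemma Att.of_infinite [IsSimpleGroup G] (hG : IsQuasiChernikov G) {x : G} {M : Subgroup G}
    (hM : MaxDiv M) (hinf : {t : G | t ∈ M ∧ t * x = x * t}.Infinite) : Att x M := by
  obtain ⟨D, h1, h2, h3, h4⟩ := att_of_infinite hG hM le_rfl hinf
  exact ⟨hM, D, h1, h2, h3, h4⟩

/-- conjugation by `y` fixes `M` -/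
def Nz (M : Subgroup G) : Subgroup G where
  carrier := {y | cjg M y = M}
  one_mem' := cjg_one M
  mul_mem' := by
    intro x y hx hy
    change cjg M (x * y) = M
    have hx' : cjg M x = M := hx
    rw [← cjg_cjg, hx']
    exact hy
  inv_mem' := by
    intro x hx
    change cjg M x⁻¹ = M
    have hx' : cjg M x = M := hx
    conv_lhs => rw [← hx']
    rw [cjg_cjg, mul_inv_cancel, cjg_one]

lemma mem_Nz {M : Subgroup G} {y : G} : y ∈ Nz M ↔ cjg M y = M := Iff.rfl

lemma Nz.conj {M : Subgroup G} {y x : G} (hy : y ∈ Nz M) (hx : x ∈ M) : y * x * y⁻¹ ∈ M := by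
  have h1 : cjg M y = M := hy
  rw [← h1] at hx
  exact hx

lemma Nz.conj' {M : Subgroup G} {y x : G} (hy : y ∈ Nz M) (hx : x ∈ M) : y⁻¹ * x * y ∈ M := by
  have := Nz.conj (inv_mem hy) hx
  rwa [inv_inv] at this

lemma nz_ne_top [IsSimpleGroup G] [Infinite G] {M : Subgroup G} (hc : Comm M) (hM : M ≠ ⊥) :
    Nz M ≠ ⊤ := by
  intro h
  have hn : M.Normal := by
    constructor
    intro x hx g
    exact Nz.conj (by rw [h]; trivial) hx
  rcases IsSimpleGroup.eq_bot_or_eq_top_of_normal M hn with h | h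
  · exact hM h
  · exact comm_ne_top hc h

/-- an element commuting with `x` normalizes the subgroup attached to `x` -/
lemma Att.mem_Nz [IsSimpleGroup G] (hG : IsQuasiChernikov G) {x y : G} (hx : x ≠ 1)
    {M : Subgroup G} (h : Att x M) (hy : y * x = x * y) : y ∈ Nz M := by
  have := hG.infinite
  obtain ⟨E, hE, -⟩ := exists_isDiv hG (centralizer_ne_top hx)
  obtain ⟨hEM, hEne⟩ := h.div hG hE
  have hyC : y ∈ centralizer ({x} : Set G) := mem_centralizer_singleton_iff.2 hy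
  have hEy : ∀ t, t ∈ E ↔ y * t * y⁻¹ ∈ E := hE.normalizes fun t => by
    constructor
    · intro ht
      exact mul_mem (mul_mem hyC ht) (inv_mem hyC)
    · intro ht
      have := mul_mem (mul_mem (inv_mem hyC) ht) hyC
      have e : y⁻¹ * (y * t * y⁻¹) * y = t := by group
      rwa [e] at this
  have h1 : E ≤ cjg M y := by
    intro t ht
    exact hEM ((hEy t).1 ht)
  exact (maxDiv_eq hG h.1 (maxDiv_cjg h.1 y) hEne hEM h1).symm

/-- conjugates -/
lemma Att.cjg {x : G} {M : Subgroup G} (h : Att x M) (g : G) : Att (g⁻¹ * x * g) (cjg M g) := by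
  obtain ⟨hM, D, hD, hDd, hDM, hDx⟩ := h
  refine ⟨maxDiv_cjg hM g, QC.cjg D g, cjg_ne_bot hD g, dvb_cjg hDd g, cjg_mono hDM g, ?_⟩
  intro t ht
  have h1 := mem_centralizer_singleton_iff.1 (hDx ht)
  rw [mem_centralizer_singleton_iff]
  calc t * (g⁻¹ * x * g) = g⁻¹ * ((g * t * g⁻¹) * x) * g := by group
    _ = g⁻¹ * (x * (g * t * g⁻¹)) * g := by rw [h1]
    _ = g⁻¹ * x * g * t := by group

/-- powers -/
lemma Att.pow {x : G} {M : Subgroup G} (h : Att x M) (k : ℕ) : Att (x ^ k) M := by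
  obtain ⟨hM, D, hD, hDd, hDM, hDx⟩ := h
  refine ⟨hM, D, hD, hDd, hDM, ?_⟩
  intro t ht
  have h1 := mem_centralizer_singleton_iff.1 (hDx ht)
  rw [mem_centralizer_singleton_iff]
  exact (show Commute t x from h1).pow_right k

end Pool.Agent.Helper24.QC
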