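import Pool.Agent.Helper36.QC.Nilp2

set_option autoImplicit false

/-!
# Simple quasi-Chernikov groups: divisible parts, conjugates
-/

universe u

namespace Pool.Agent.Helper24.QC

open Subgroup Pool.Agent.Helper36.QC

variable {G : Type u} [Group G]

/-- the conjugate `{g⁻¹ x g : x ∈ A}` -/
def cjg (A : Subgroup G) (g : G) : Subgroup G where
  carrier := {x | g * x * g⁻¹ ∈ A}
  one_mem' := by
    change g * 1 * g⁻¹ ∈ A
    have : g * 1 * g⁻¹ = 1 := by group
    rw [this]; exact one_mem A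
  mul_mem' := by
    intro x y hx hy
    change g * (x * y) * g⁻¹ ∈ A
    have : g * (x * y) * g⁻¹ = (g * x * g⁻¹) * (g * y * g⁻¹) := by group
    rw [this]; exact mul_mem hx hy
  inv_mem' := by
    intro x hx
    change g * x⁻¹ * g⁻¹ ∈ A
    have : g * x⁻¹ * g⁻¹ = (g * x * g⁻¹)⁻¹ := by group
    rw [this]; exact inv_mem hx

lemma mem_cjg {A : Subgroup G} {g x : G} : x ∈ cjg A g ↔ g * x * g⁻¹ ∈ A := Iff.rfl

lemma conj_mem_cjg {A : Subgroup G} {g x : G} (hx : x ∈ A) : g⁻¹ * x * g ∈ cjg A g := by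
  rw [mem_cjg]
  have : g * (g⁻¹ * x * g) * g⁻¹ = x := by group
  rw [this]; exact hx

lemma dvb_cjg {A : Subgroup G} (hA : Dvb A) (g : G) : Dvb (cjg A g) := by
  intro x hx n hn
  obtain ⟨y, hy, hyx⟩ := hA _ hx n hn
  refine ⟨g⁻¹ * y * g, conj_mem_cjg hy, ?_⟩
  have h1 : (g⁻¹ * y * g) ^ n = g⁻¹ * y ^ n * g := by
    have := conj_pow (i := n) (a := g⁻¹) (b := y)
    rwa [inv_inv] at this
  rw [h1, hyx]; group

/-- the divisible part, characterised -/
def IsDiv (H N : Subgroup G) : Prop :=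
  N ≤ H ∧ Comm N ∧ Dvb N ∧ ∀ A : Subgroup G, A ≤ H → Dvb A → A ≤ N

lemma exists_isDiv (hG : IsQuasiChernikov G) {H : Subgroup G} (hH : H ≠ ⊤) :
    ∃ N, IsDiv H N ∧ (N.subgroupOf H).FiniteIndex := by
  obtain ⟨N, h1, h2, h3, h4, -, h6⟩ := exists_divPart hG hH
  exact ⟨N, ⟨h1, h2, h3, h4⟩, h6⟩

/-- an element normalizing `H` normalizes its divisible part -/
lemma IsDiv.normalizes {H N : Subgroup G} (h : IsDiv H N) {u : G}
    (hu : ∀ x, x ∈ H ↔ u * x * u⁻¹ ∈ H) : ∀ x, x ∈ N ↔ u * x * u⁻¹ ∈ N := by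
  obtain ⟨h1, -, h3, h4⟩ := h
  have key : ∀ v : G, (∀ x, x ∈ H ↔ v * x * v⁻¹ ∈ H) → cjg N v ≤ N := by
    intro v hv
    refine h4 _ ?_ (dvb_cjg h3 v)
    intro x hx
    exact (hv x).2 (h1 hx)
  have hu' : ∀ x, x ∈ H ↔ u⁻¹ * x * u⁻¹⁻¹ ∈ H := by
    intro x
    rw [hu (u⁻¹ * x * u⁻¹⁻¹)]
    have : u * (u⁻¹ * x * u⁻¹⁻¹) * u⁻¹ = x := by group
    rw [this]
  intro x
  constructor
  · intro hx
    refine key u⁻¹ hu' ?_
    rw [mem_cjg]
    have : u⁻¹ * (u * x * u⁻¹) * u⁻¹⁻¹ = x := by group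
    rw [this]; exact hx
  · intro hx
    exact key u hu hx

lemma centralizer_ne_top' [IsSimpleGroup G] [Infinite G] {A : Subgroup G} (hA : A ≠ ⊥) :
    centralizer (A : Set G) ≠ ⊤ := by
  intro h
  apply hA
  rw [eq_bot_iff, ← center_eq_bot (G := G)]
  intro x hx
  rw [mem_center_iff]
  intro y
  have hy : y ∈ centralizer (A : Set G) := by rw [h]; trivial
  exact ((mem_centralizer_iff.1 hy) x hx).symm

/-- an element normalizing `A` normalizes its centralizer -/
lemma centralizer_normalizes {A : Subgroup G} {u : G} (hu : ∀ x, x ∈ A ↔ u * x * u⁻¹ ∈ A) :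
    ∀ x, x ∈ centralizer (A : Set G) ↔ u * x * u⁻¹ ∈ centralizer (A : Set G) := by
  have hu' : ∀ x, x ∈ A ↔ u⁻¹ * x * u ∈ A := by
    intro x
    rw [hu (u⁻¹ * x * u)]
    have : u * (u⁻¹ * x * u) * u⁻¹ = x := by group
    rw [this]
  intro x
  rw [mem_centralizer_iff, mem_centralizer_iff]
  constructor
  · intro h y hy
    have := h _ ((hu' y).1 hy)
    calc y * (u * x * u⁻¹) = u * ((u⁻¹ * y * u) * x) * u⁻¹ := by group
      _ = u * (x * (u⁻¹ * y * u)) * u⁻¹ := by rw [this]
      _ = u * x * u⁻¹ * y := by group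
  · intro h y hy
    have := h _ ((hu y).1 hy)
    calc y * x = u⁻¹ * ((u * y * u⁻¹) * (u * x * u⁻¹)) * u := by group
      _ = u⁻¹ * ((u * x * u⁻¹) * (u * y * u⁻¹)) * u := by rw [this]
      _ = x * y := by group

/-- a nontrivial subgroup all of whose conjugates by conjugates of `a ≠ 1` agree is normal -/
lemma eq_top_of_normalized [IsSimpleGroup G] {A : Subgroup G} (hA : A ≠ ⊥) {a : G} (ha : a ≠ 1)
    (h : ∀ g : G, ∀ x, x ∈ A ↔ (g⁻¹ * a * g) * x * (g⁻¹ * a * g)⁻¹ ∈ A) : A = ⊤ := by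
  have hle : normalClosure ({a} : Set G) ≤ normalizer (A : Set G) := by
    rw [normalClosure, closure_le]
    intro y hy
    obtain ⟨t, ht, hty⟩ := Group.mem_conjugatesOfSet_iff.1 hy
    rw [Set.mem_singleton_iff] at ht
    subst ht
    obtain ⟨c, hc⟩ := isConj_iff.1 hty
    have := h c⁻¹
    rw [inv_inv, hc] at this
    exact mem_normalizer_iff.2 this
  have htop : normalClosure ({a} : Set G) = ⊤ := by
    rcases IsSimpleGroup.eq_bot_or_eq_top_of_normal (normalClosure ({a} : Set G))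
      normalClosure_normal with h | h
    · exfalso
      apply ha
      have : a ∈ normalClosure ({a} : Set G) := subset_normalClosure rfl
      rw [h, mem_bot] at this
      exact this
    · exact h
  rw [htop, top_le_iff] at hle
  have hn : A.Normal := normalizer_eq_top_iff.1 hle
  rcases IsSimpleGroup.eq_bot_or_eq_top_of_normal A hn with h | h
  · exact absurd h hA
  · exact h

lemma comm_ne_top [IsSimpleGroup G] [Infinite G] {A : Subgroup G} (hA : Comm A) : A ≠ ⊤ := by
  rintro rfl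
  have h1 : center G = ⊤ := by
    rw [eq_top_iff]
    intro x _
    rw [mem_center_iff]
    intro y
    exact hA y trivial x trivial
  rw [center_eq_bot] at h1
  exact bot_ne_top h1

/-- In a simple quasi-Chernikov group: for `a ≠ 1` and a nontrivial divisible abelian subgroup
`A`, there is a conjugate of `a` normalizing no nontrivial subgroup `E` which centralizes
infinitely many elements of `A`. -/
theorem exists_conj [IsSimpleGroup G] (hG : IsQuasiChernikov G) {a : G} (ha : a ≠ 1)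
    {A : Subgroup G} (hA1 : A ≠ ⊥) (hAc : Comm A) (hAd : Dvb A)
    (h : ∀ g : G, ∃ E : Subgroup G, E ≠ ⊥ ∧
      (∀ x, x ∈ E ↔ (g⁻¹ * a * g) * x * (g⁻¹ * a * g)⁻¹ ∈ E) ∧
      {x : G | x ∈ A ∧ x ∈ centralizer (E : Set G)}.Infinite) : False := by
  have := hG.infinite
  obtain ⟨M, ⟨hM1, hM2, hM3, hM4⟩, -⟩ := exists_isDiv hG (centralizer_ne_top' hA1)
  have hAM : A ≤ M := by
    refine hM4 A ?_ hAd
    intro x hx
    rw [mem_centralizer_iff]
    intro y hy
    exact hAc y hy x hx
  have hMt : M ≠ ⊤ := comm_ne_top hM2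
  apply hMt
  refine eq_top_of_normalized (fun h => hA1 (by rw [eq_bot_iff, ← h]; exact hAM)) ha ?_
  intro g
  obtain ⟨E, hE1, hEn, hEi⟩ := h g
  set u := g⁻¹ * a * g with hu
  have hCt : centralizer (E : Set G) ≠ ⊤ := centralizer_ne_top' hE1
  obtain ⟨D, hD, -⟩ := exists_isDiv hG hCt
  -- `A ∩ C(E)`
  have hAt : A ⊓ centralizer (E : Set G) ≠ ⊤ := by
    intro h
    exact comm_ne_top hAc (top_le_iff.1 (h ▸ inf_le_left))
  obtain ⟨D1, ⟨hD11, hD12, hD13, hD14⟩, hD1f⟩ := exists_isDiv hG hAt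
  have hD1ne : D1 ≠ ⊥ := by
    intro h
    rw [h, bot_subgroupOf, finiteIndex_iff, index_bot] at hD1f
    apply hD1f
    have : Infinite (A ⊓ centralizer (E : Set G) : Subgroup G) := Set.infinite_coe_iff.2 hEi
    exact Nat.card_eq_zero_of_infinite
  obtain ⟨M1, ⟨hM11, hM12, hM13, hM14⟩, -⟩ := exists_isDiv hG (centralizer_ne_top' hD1ne)
  have hD1A : D1 ≤ A := hD11.trans inf_le_left
  have hD1D : D1 ≤ D := hD.2.2.2 D1 (hD11.trans inf_le_right) hD13
  have hAM1 : A ≤ M1 := by
    refine hM14 A ?_ hAd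
    intro x hx
    rw [mem_centralizer_iff]
    intro y hy
    exact hAc y (hD1A hy) x hx
  have hDM1 : D ≤ M1 := by
    refine hM14 D ?_ hD.2.2.1
    intro x hx
    rw [mem_centralizer_iff]
    intro y hy
    exact hD.2.1 y (hD1D hy) x hx
  have hM1M : M1 ≤ M := by
    refine hM4 M1 ?_ hM13
    intro x hx
    rw [mem_centralizer_iff]
    intro y hy
    exact hM12 y (hAM1 hy) x hx
  -- `M` is the divisible part of the centralizer of `D`
  have hMD : IsDiv (centralizer (D : Set G)) M := by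
    refine ⟨?_, hM2, hM3, ?_⟩
    · intro x hx
      rw [mem_centralizer_iff]
      intro y hy
      exact hM2 y (hM1M (hDM1 hy)) x hx
    · intro K hK hKd
      refine le_trans (hM14 K ?_ hKd) hM1M
      intro x hx
      rw [mem_centralizer_iff]
      intro y hy
      exact mem_centralizer_iff.1 (hK hx) y (hD1D hy)
  exact hMD.normalizes (centralizer_normalizes (hD.normalizes (centralizer_normalizes hEn)))

/-- the good set is a union of left cosets `g C(a)` -/
lemma good_mul {a b g c : G} (hg : g ∈ good a b) (hc : c * a = a * c) : g * c ∈ good a b := by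
  have hg' : gen a b g = ⊤ := hg
  change gen a b (g * c) = ⊤
  rw [eq_top_iff]
  intro x _
  have h2 : gen a b g ≤ (gen a b (g * c)).map (MulAut.conj c).toMonoidHom := by
    refine gen_le ?_ ?_
    · refine ⟨a, left_mem_gen _ _ _, ?_⟩
      simp [hc]
    · refine ⟨_, right_mem_gen a b (g * c), ?_⟩
      simp; group
  have h3 : c * x * c⁻¹ ∈ gen a b g := by rw [hg']; trivial
  obtain ⟨y, hy, hyx⟩ := h2 h3
  have h4 : y = x := by
    have : c * y * c⁻¹ = c * x * c⁻¹ := by simpa using hyx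
    exact mul_left_cancel (mul_right_cancel this)
  rw [← h4]; exact hy

/-- and of right cosets `C(b) g` -/
lemma mul_good {a b g c : G} (hg : g ∈ good a b) (hc : c * b = b * c) : c * g ∈ good a b := by
  change closure ({a, (c * g)⁻¹ * b * (c * g)} : Set G) = ⊤
  have e : (c * g)⁻¹ * b * (c * g) = g⁻¹ * b * g := by
    have : (c * g)⁻¹ * b * (c * g) = g⁻¹ * (c⁻¹ * (b * c)) * g := by group
    rw [this, ← hc]; group
  rw [e]
  exact hg

lemma good_empty {a b : G} (hf : (good a b).Finite)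
    (h : Infinite (centralizer ({a} : Set G)) ∨ Infinite (centralizer ({b} : Set G))) (g : G) :
    g ∉ good a b := by
  intro hg
  rcases h with h | h
  · have h1 : (fun c : G => g * c) '' (centralizer ({a} : Set G) : Set G) ⊆ good a b := by
      rintro _ ⟨c, hc, rfl⟩
      exact good_mul hg (mem_centralizer_singleton_iff.1 hc)
    have h2 := hf.subset h1
    have h3 := Set.Finite.of_finite_image h2 (mul_right_injective g).injOn
    exact (Set.infinite_coe_iff.1 h) h3
  · have h1 : (fun c : G => c * g) '' (centralizer ({b} : Set G) : Set G) ⊆ good a b := by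
      rintro _ ⟨c, hc, rfl⟩
      exact mul_good hg (mem_centralizer_singleton_iff.1 hc)
    have h2 := hf.subset h1
    have h3 := Set.Finite.of_finite_image h2 (mul_left_injective g).injOn
    exact (Set.infinite_coe_iff.1 h) h3

/-- the subgroup generated by `a` and a power of `b` -/
lemma good_pow_right {a b : G} (k : ℕ) : good a (b ^ k) ⊆ good a b := by
  intro g hg
  have hg' : closure ({a, g⁻¹ * b ^ k * g} : Set G) = ⊤ := hg
  change gen a b g = ⊤
  rw [eq_top_iff, ← hg', closure_le]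
  rintro x (rfl | rfl)
  · exact left_mem_gen _ _ _
  · have h1 : g⁻¹ * b ^ k * g = (g⁻¹ * b * g) ^ k := by
      have := conj_pow (i := k) (a := g⁻¹) (b := b)
      rw [inv_inv] at this
      exact this.symm
    rw [h1]
    exact pow_mem (right_mem_gen _ _ _) k

lemma good_pow_left {a b : G} (k : ℕ) : good (a ^ k) b ⊆ good a b := by
  intro g hg
  have hg' : closure ({a ^ k, g⁻¹ * b * g} : Set G) = ⊤ := hg
  change gen a b g = ⊤
  rw [eq_top_iff, ← hg', closure_le]
  rintro x (rfl | rfl)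
  · exact pow_mem (left_mem_gen _ _ _) k
  · exact right_mem_gen _ _ _

/-- conjugating the first element -/
lemma good_conj_left {a b c : G} (h : (good a b).Infinite) : (good (c⁻¹ * a * c) b).Infinite := by
  refine (h.image (mul_left_injective c).injOn).mono ?_
  rintro _ ⟨g, hg, rfl⟩
  have hg' : gen a b g = ⊤ := hg
  change gen (c⁻¹ * a * c) b (g * c) = ⊤
  rw [eq_top_iff]
  intro x _
  have h2 : gen a b g ≤ (gen (c⁻¹ * a * c) b (g * c)).map (MulAut.conj c).toMonoidHom := by
    refine gen_le ?_ ?_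
    · refine ⟨_, left_mem_gen _ _ _, ?_⟩
      simp; group
    · refine ⟨_, right_mem_gen _ b (g * c), ?_⟩
      simp; group
  have h3 : c * x * c⁻¹ ∈ gen a b g := by rw [hg']; trivial
  obtain ⟨y, hy, hyx⟩ := h2 h3
  have h4 : y = x := by
    have : c * y * c⁻¹ = c * x * c⁻¹ := by simpa using hyx
    exact mul_left_cancel (mul_right_cancel this)
  rw [← h4]; exact hy

/-- all elements have finite order -/
lemma isOfFinOrder [IsSimpleGroup G] (hG : IsQuasiChernikov G) (x : G) : IsOfFinOrder x := by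
  have := hG.infinite
  have hc : Comm (zpowers x) := by
    rintro _ ⟨i, rfl⟩ _ ⟨j, rfl⟩
    exact zpow_mul_comm x i j
  have ht := comm_ne_top hc
  have hfg : Group.FG (zpowers x) := (Group.fg_iff_subgroup_fg _).2
    ((Subgroup.fg_iff _).2 ⟨{x}, (zpowers_eq_closure x).symm, Set.toFinite _⟩)
  have hf := (hG.2 _ ht).finite
  exact isOfFinOrder_iff_pow_eq_one.2 (by
    have := isOfFinOrder_of_finite (⟨x, mem_zpowers x⟩ : zpowers x)
    obtain ⟨n, hn, hx⟩ := isOfFinOrder_iff_pow_eq_one.1 this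
    exact ⟨n, hn, congrArg Subtype.val hx⟩)

end Pool.Agent.Helper24.QC
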