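import Pool.Agent.Helper24.QC.Att
import Pool.Agent.Helper36.QC.Tame

set_option autoImplicit false

/-!
# One element with finite or tame centralizer
-/

universe u

namespace Pool.Agent.Helper24.QC

open Subgroup Pool.Agent.Helper36.QC

variable {G : Type u} [Group G]

lemma eq_top_of_conj' [IsSimpleGroup G] {K : Subgroup G} {b : G} (hb : b ≠ 1)
    (h : ∀ g : G, g⁻¹ * b * g ∈ K) : K = ⊤ := by
  have hle : normalClosure ({b} : Set G) ≤ K := by
    rw [normalClosure, closure_le]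
    intro y hy
    obtain ⟨t, ht, hty⟩ := Group.mem_conjugatesOfSet_iff.1 hy
    rw [Set.mem_singleton_iff] at ht
    subst ht
    obtain ⟨c, hc⟩ := isConj_iff.1 hty
    have := h c⁻¹
    rwa [inv_inv, hc] at this
  have htop : normalClosure ({b} : Set G) = ⊤ := by
    rcases IsSimpleGroup.eq_bot_or_eq_top_of_normal (normalClosure ({b} : Set G))
      normalClosure_normal with h | h
    · exfalso
      apply hb
      have : b ∈ normalClosure ({b} : Set G) := subset_normalClosure rfl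
      rw [h, mem_bot] at this
      exact this
    · exact h
  rw [htop] at hle
  exact top_le_iff.1 hle

lemma nz_ne_top' [IsSimpleGroup G] {Z : Subgroup G} (hZ : Z ≠ ⊥) (hZt : Z ≠ ⊤) : Nz Z ≠ ⊤ := by
  intro h
  have hn : Z.Normal := by
    constructor
    intro x hx g
    exact Nz.conj (by rw [h]; trivial) hx
  rcases IsSimpleGroup.eq_bot_or_eq_top_of_normal Z hn with h | h
  · exact hZ h
  · exact hZt h

/-- the divisible part of the normalizer of `M` is `M` -/
lemma isDiv_Nz {M N : Subgroup G} (hM : MaxDiv M) (h : IsDiv (Nz M) N) : N = M := by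
  refine hM.2.2 N h.2.1 h.2.2.1 (h.2.2.2 M ?_ hM.2.1)
  intro x hx
  change cjg M x = M
  ext y
  rw [mem_cjg]
  constructor
  · intro hy
    have h5 := mul_mem (mul_mem (inv_mem hx) hy) hx
    have e : x⁻¹ * (x * y * x⁻¹) * x = y := by group
    rwa [e] at h5
  · intro hy
    exact mul_mem (mul_mem hx hy) (inv_mem hx)

/-- an infinite proper subgroup lies in the normalizer of a maximal divisible abelian subgroup -/
lemma exists_le_Nz [IsSimpleGroup G] (hG : IsQuasiChernikov G) {K : Subgroup G} (hK : K ≠ ⊤)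
    (hinf : Infinite K) : ∃ M, MaxDiv M ∧ M ≠ ⊥ ∧ K ≤ Nz M := by
  have := hG.infinite
  obtain ⟨E, hE, hEf⟩ := exists_isDiv hG hK
  have hEne : E ≠ ⊥ := by
    intro h
    rw [h, bot_subgroupOf, finiteIndex_iff, index_bot] at hEf
    exact hEf Nat.card_eq_zero_of_infinite
  obtain ⟨M, hM, hEM⟩ := exists_maxDiv hG hEne hE.2.1 hE.2.2.1
  refine ⟨M, hM, fun h => hEne (by rw [eq_bot_iff, ← h]; exact hEM), ?_⟩
  intro y hy
  have hEy : ∀ t, t ∈ E ↔ y * t * y⁻¹ ∈ E := hE.normalizes fun t => by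
    constructor
    · intro ht
      exact mul_mem (mul_mem hy ht) (inv_mem hy)
    · intro ht
      have := mul_mem (mul_mem (inv_mem hy) ht) hy
      have e : y⁻¹ * (y * t * y⁻¹) * y = t := by group
      rwa [e] at this
  have h1 : E ≤ cjg M y := by
    intro t ht
    exact hEM ((hEy t).1 ht)
  exact (maxDiv_eq hG hM (maxDiv_cjg hM y) hEne hEM h1).symm

/-- distinct maximal divisible abelian subgroups have normalizers with finite intersection -/
lemma eq_of_infinite_inf [IsSimpleGroup G] (hG : IsQuasiChernikov G) {M M' : Subgroup G}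
    (hM : MaxDiv M) (hMne : M ≠ ⊥) (hM' : MaxDiv M') (hM'ne : M' ≠ ⊥)
    (hinf : (((Nz M ⊓ Nz M' : Subgroup G)) : Set G).Infinite) : M = M' := by
  have := hG.infinite
  have ht := nz_ne_top hM.1 hMne
  have ht' := nz_ne_top hM'.1 hM'ne
  have hKt : Nz M ⊓ Nz M' ≠ ⊤ := by
    intro h
    exact ht (top_le_iff.1 (h ▸ inf_le_left))
  obtain ⟨E, hE, hEf⟩ := exists_isDiv hG hKt
  have hEne : E ≠ ⊥ := by
    intro h
    rw [h, bot_subgroupOf, finiteIndex_iff, index_bot] at hEf
    have : Infinite (Nz M ⊓ Nz M' : Subgroup G) := Set.infinite_coe_iff.2 hinf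
    exact hEf Nat.card_eq_zero_of_infinite
  have key : ∀ L : Subgroup G, MaxDiv L → L ≠ ⊥ → E ≤ Nz L → E ≤ L := by
    intro L hL hLne hEL
    obtain ⟨N, hN, -⟩ := exists_isDiv hG (nz_ne_top hL.1 hLne)
    rw [← isDiv_Nz hL hN]
    exact hN.2.2.2 E hEL hE.2.2.1
  exact maxDiv_eq hG hM hM' hEne (key M hM hMne (hE.1.trans inf_le_left))
    (key M' hM' hM'ne (hE.1.trans inf_le_right))

lemma nz_cjg {M : Subgroup G} {x y : G} : y ∈ Nz (cjg M x) ↔ x * y * x⁻¹ ∈ Nz M := by
  rw [mem_Nz, mem_Nz, cjg_cjg]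
  constructor
  · intro h
    rw [← cjg_cjg M (x * y) x⁻¹, h, cjg_cjg, mul_inv_cancel, cjg_one]
  · intro h
    have h1 : cjg (cjg M (x * y * x⁻¹)) x = cjg M x := by rw [h]
    rw [cjg_cjg] at h1
    have e : x * y * x⁻¹ * x = x * y := by group
    rwa [e] at h1

/-- A conjugacy class cannot be covered by a finite set and finitely many normalizers of maximal
divisible abelian subgroups. -/
lemma not_covered [IsSimpleGroup G] (hG : IsQuasiChernikov G) {b : G} (hb : b ≠ 1) {B : Set G}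
    (hB : B.Finite) {𝓜 : Set (Subgroup G)} (h𝓜 : 𝓜.Finite) (hM : ∀ M ∈ 𝓜, MaxDiv M ∧ M ≠ ⊥)
    (hcov : ∀ g : G, g⁻¹ * b * g ∈ B ∨ ∃ M ∈ 𝓜, g⁻¹ * b * g ∈ Nz M) : False := by
  have hinf := hG.infinite
  set X : Set G := Set.range (fun g : G => g⁻¹ * b * g) with hX
  have hXinf : X.Infinite := by
    intro hfin
    -- the centralizer has finite index
    have hcl : centralizer ({b} : Set G) ≠ ⊤ := centralizer_ne_top hb
    refine not_finiteIndex hcl ?_
    have hq : Finite (G ⧸ centralizer ({b} : Set G)) := by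
      have hXf : Finite X := hfin
      refine Finite.of_injective (β := X) (fun q => Quotient.liftOn' q (fun g => (⟨g * b * g⁻¹,
        ⟨g⁻¹, by simp⟩⟩ : X)) (by
          intro g h hgh
          rw [QuotientGroup.leftRel_apply, mem_centralizer_singleton_iff] at hgh
          apply Subtype.ext
          change g * b * g⁻¹ = h * b * h⁻¹
          calc g * b * g⁻¹ = g * (b * (g⁻¹ * h)) * h⁻¹ := by group
            _ = g * ((g⁻¹ * h) * b) * h⁻¹ := by rw [hgh]
            _ = h * b * h⁻¹ := by group)) ?_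
      intro q q' hqq
      induction q using Quotient.inductionOn' with
      | h g =>
        induction q' using Quotient.inductionOn' with
        | h g' =>
          apply Quotient.sound'
          rw [QuotientGroup.leftRel_apply, mem_centralizer_singleton_iff]
          have h1 : g * b * g⁻¹ = g' * b * g'⁻¹ := congrArg Subtype.val hqq
          calc g⁻¹ * g' * b = g⁻¹ * (g' * b * g'⁻¹) * g' := by group
            _ = g⁻¹ * (g * b * g⁻¹) * g' := by rw [h1]
            _ = b * (g⁻¹ * g') := by group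
    exact Subgroup.finiteIndex_of_finite_quotient
  -- some normalizer contains infinitely many conjugates
  obtain ⟨M, hMm, hMi⟩ : ∃ M ∈ 𝓜, (X ∩ (Nz M : Set G)).Infinite := by
    by_contra hcon
    push Not at hcon
    apply hXinf
    have h1 : (⋃ M ∈ 𝓜, X ∩ (Nz M : Set G)).Finite := h𝓜.biUnion hcon
    refine (hB.union h1).subset ?_
    rintro _ ⟨g, rfl⟩
    rcases hcov g with h | ⟨M, hMm, h⟩
    · exact Or.inl h
    · refine Or.inr ?_
      rw [Set.mem_iUnion₂]
      exact ⟨M, hMm, ⟨g, rfl⟩, h⟩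
  -- all conjugates of `M` lie in `𝓜`
  have key : ∀ x : G, cjg M x⁻¹ ∈ 𝓜 := by
    intro x
    by_contra hx
    apply hMi
    have h1 : ∀ M' ∈ 𝓜, (((Nz M ⊓ Nz (cjg M' x) : Subgroup G)) : Set G).Finite := by
      intro M' hM'
      by_contra hinf'
      have h2 := eq_of_infinite_inf hG (hM M hMm).1 (hM M hMm).2 (maxDiv_cjg (hM M' hM').1 x)
        (cjg_ne_bot (hM M' hM').2 x) hinf'
      apply hx
      rw [h2, cjg_cjg, mul_inv_cancel, cjg_one]
      exact hM'
    have h3 : (⋃ M' ∈ 𝓜, (((Nz M ⊓ Nz (cjg M' x) : Subgroup G)) : Set G)).Finite :=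
      h𝓜.biUnion h1
    refine ((hB.image (fun t => x⁻¹ * t * x)).union h3).subset ?_
    rintro _ ⟨⟨g, rfl⟩, hgM⟩
    rcases hcov (g * x⁻¹) with h | ⟨M', hM', h⟩
    · refine Or.inl ⟨_, h, ?_⟩
      group
    · refine Or.inr ?_
      rw [Set.mem_iUnion₂]
      refine ⟨M', hM', hgM, ?_⟩
      have e : x * (g⁻¹ * b * g) * x⁻¹ = (g * x⁻¹)⁻¹ * b * (g * x⁻¹) := by group
      rw [← e] at h
      exact nz_cjg.2 h
  -- the normalizer has finite index
  have hne := nz_ne_top (hM M hMm).1.1 (hM M hMm).2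
  refine not_finiteIndex hne ?_
  have hq : Finite (G ⧸ Nz M) := by
    have h𝓜f : Finite 𝓜 := h𝓜
    refine Finite.of_injective (β := 𝓜) (fun q => Quotient.liftOn' q (fun g =>
      (⟨cjg M g⁻¹, key g⟩ : 𝓜)) (by
        intro g h hgh
        rw [QuotientGroup.leftRel_apply] at hgh
        apply Subtype.ext
        change cjg M g⁻¹ = cjg M h⁻¹
        have h1 : cjg M (g⁻¹ * h) = M := hgh
        have h2 : cjg (cjg M (g⁻¹ * h)) h⁻¹ = cjg M h⁻¹ := by rw [h1]
        rw [cjg_cjg] at h2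
        have e : g⁻¹ * h * h⁻¹ = g⁻¹ := by group
        rwa [e] at h2)) ?_
    intro q q' hqq
    induction q using Quotient.inductionOn' with
    | h g =>
      induction q' using Quotient.inductionOn' with
      | h g' =>
        apply Quotient.sound'
        rw [QuotientGroup.leftRel_apply]
        have h1 : cjg M g⁻¹ = cjg M g'⁻¹ := congrArg Subtype.val hqq
        change cjg M (g⁻¹ * g') = M
        rw [← cjg_cjg, h1, cjg_cjg, inv_mul_cancel, cjg_one]
  exact Subgroup.finiteIndex_of_finite_quotient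

/-- For every `g` such that `⟨a, b^g⟩` is finite, `⟨a, b^g⟩` normalizes a nontrivial finite
subgroup `Z` centralized by `a`. -/
def NormCond (a b : G) : Prop :=
  ∀ g : G, Finite (gen a b g) → ∃ Z : Subgroup G, Z ≠ ⊥ ∧ Finite Z ∧
    Z ≤ centralizer ({a} : Set G) ∧ g⁻¹ * b * g ∈ Nz Z

/-- **The case of a finite centralizer.** -/
theorem good_of_finC [IsSimpleGroup G] (hG : IsQuasiChernikov G) {a b : G} (hb : b ≠ 1)
    (hz : NormCond a b) (hfin : Finite (centralizer ({a} : Set G))) : (good a b).Infinite := by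
  classical
  have hinf := hG.infinite
  intro hgood
  set C := centralizer ({a} : Set G) with hC
  -- subgroups of `C`
  let 𝓩 : Set (Subgroup G) := {Z | Z ≠ ⊥ ∧ Z ≤ C}
  have h𝓩 : 𝓩.Finite := by
    have h1 : (Set.univ : Set (Subgroup C)).Finite := Set.toFinite _
    refine (h1.image (fun Z => Z.map C.subtype)).subset ?_
    rintro Z ⟨-, hZ⟩
    refine ⟨Z.subgroupOf C, trivial, ?_⟩
    change (Z.subgroupOf C).map C.subtype = Z
    rw [Subgroup.subgroupOf_map_subtype, inf_eq_left.2 hZ]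
  have hZt : ∀ Z ∈ 𝓩, Nz Z ≠ ⊤ := by
    rintro Z ⟨hZ, hZC⟩
    refine nz_ne_top' hZ ?_
    intro h
    have : Finite G := by
      have h2 : Finite (⊤ : Subgroup G) := by
        have h3 : C = ⊤ := top_le_iff.1 (h ▸ hZC)
        rw [← h3]; exact hfin
      exact Finite.of_equiv _ Subgroup.topEquiv.toEquiv
    exact not_finite G
  let m : Subgroup G → Subgroup G := fun Z =>
    if h : Z ∈ 𝓩 ∧ Infinite (Nz Z) then (exists_le_Nz hG (hZt Z h.1) h.2).choose else ⊥
  have hm : ∀ Z, Z ∈ 𝓩 → Infinite (Nz Z) → MaxDiv (m Z) ∧ m Z ≠ ⊥ ∧ Nz Z ≤ Nz (m Z) := by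
    intro Z h1 h2
    have h3 : m Z = (exists_le_Nz hG (hZt Z h1) h2).choose := dif_pos (⟨h1, h2⟩ : Z ∈ 𝓩 ∧ _)
    rw [h3]
    exact (exists_le_Nz hG (hZt Z h1) h2).choose_spec
  refine not_covered hG hb (B := (fun g => g⁻¹ * b * g) '' (good a b) ∪
    ⋃ Z ∈ {Z ∈ 𝓩 | Finite (Nz Z)}, (Nz Z : Set G)) ?_
    (𝓜 := m '' {Z ∈ 𝓩 | Infinite (Nz Z)}) ?_ ?_ ?_
  · refine (hgood.image _).union (Set.Finite.biUnion (h𝓩.subset fun Z hZ => hZ.1) ?_)
    rintro Z ⟨-, hZ⟩
    exact hZ
  · exact (h𝓩.subset fun Z hZ => hZ.1).image m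
  · rintro _ ⟨Z, ⟨h1, h2⟩, rfl⟩
    exact ⟨(hm Z h1 h2).1, (hm Z h1 h2).2.1⟩
  · intro g
    by_cases hg : g ∈ good a b
    · exact Or.inl (Or.inl ⟨g, hg, rfl⟩)
    · have hfg : Finite (gen a b g) := by
        by_contra h
        exact hg (hG.gen_eq_top h)
      obtain ⟨Z, hZ1, -, hZC, hZn⟩ := hz g hfg
      by_cases hZf : Finite (Nz Z)
      · refine Or.inl (Or.inr ?_)
        rw [Set.mem_iUnion₂]
        exact ⟨Z, ⟨⟨hZ1, hZC⟩, hZf⟩, hZn⟩
      · rw [not_finite_iff_infinite] at hZf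
        exact Or.inr ⟨m Z, ⟨Z, ⟨⟨hZ1, hZC⟩, hZf⟩, rfl⟩, (hm Z ⟨hZ1, hZC⟩ hZf).2.2 hZn⟩

/-- **The case of an infinite centralizer.** -/
theorem good_of_infC [IsSimpleGroup G] (hG : IsQuasiChernikov G) {a b : G} (hb : b ≠ 1)
    (hz : NormCond a b) (hinf : Infinite (centralizer ({a} : Set G))) {A : Subgroup G}
    (hA1 : A ≠ ⊥) (hAc : Comm A) (hAd : Dvb A)
    (h : ∀ E : Subgroup G, E ≠ ⊥ → Finite E → E ≤ centralizer ({a} : Set G) →
      {x : G | x ∈ A ∧ x ∈ centralizer (E : Set G)}.Infinite) : (good a b).Infinite := by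
  intro hf
  have hempty := good_empty hf (Or.inl hinf)
  refine exists_conj hG hb hA1 hAc hAd ?_
  intro g
  have hfg : Finite (gen a b g) := by
    by_contra h'
    exact hempty g (hG.gen_eq_top h')
  obtain ⟨Z, hZ1, hZf, hZC, hZn⟩ := hz g hfg
  refine ⟨Z, hZ1, ?_, h Z hZ1 hZf hZC⟩
  intro x
  have h1 : cjg Z (g⁻¹ * b * g) = Z := hZn
  conv_lhs => rw [← h1]
  exact mem_cjg

/-- **Centralizer centre-by-finite.** -/
theorem good_of_cbf [IsSimpleGroup G] (hG : IsQuasiChernikov G) {a b : G} (ha : a ≠ 1)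
    (hb : b ≠ 1) (hz : NormCond a b) (hc : CentreByFinite (centralizer ({a} : Set G))) :
    (good a b).Infinite := by
  have hinfG := hG.infinite
  by_cases hfin : Finite (centralizer ({a} : Set G))
  · exact good_of_finC hG hb hz hfin
  rw [not_finite_iff_infinite] at hfin
  set C := centralizer ({a} : Set G) with hC
  obtain ⟨A, hA, hAf⟩ := exists_isDiv hG (centralizer_ne_top ha)
  have hAne : A ≠ ⊥ := by
    intro h
    rw [h, bot_subgroupOf, finiteIndex_iff, index_bot] at hAf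
    exact hAf Nat.card_eq_zero_of_infinite
  have hAz : ∀ x ∈ A, ∀ y ∈ C, y * x = x * y := by
    intro x hx y hy
    have hi : 0 < (center C).index := Nat.pos_of_ne_zero (finiteIndex_iff.1 hc)
    obtain ⟨t, ht, rfl⟩ := hA.2.2.1 x hx (center C).index hi
    have h1 : (⟨t, hA.1 ht⟩ : C) ^ (center C).index ∈ center C := (center C).pow_index_mem _
    have h2 := mem_center_iff.1 h1 ⟨y, hy⟩
    exact congrArg Subtype.val h2
  refine good_of_infC hG hb hz hfin hAne hA.2.1 hA.2.2.1 ?_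
  intro E _ _ hEC
  have h1 := infinite_of_dvb hA.2.2.1 hAne
  refine (Set.infinite_coe_iff.1 h1).mono ?_
  intro x hx
  refine ⟨hx, ?_⟩
  rw [mem_centralizer_iff]
  intro y hy
  exact hAz x hx y (hEC hy)

end Pool.Agent.Helper24.QC
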