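import Pool.Agent.Helper24.QC.Min

set_option autoImplicit false

/-!
# Elements of large order in simple quasi-Chernikov groups
-/

universe u

namespace Pool.Agent.Helper24.QC

open Subgroup Pool.Agent.Helper36.QC

variable {G : Type u} [Group G]

/-- the union of a chain of cyclic groups -/
def chainGrp (f : ℕ → G) : Subgroup G := ⨆ k, zpowers (f k)

lemma chain_mono {p : ℕ} {f : ℕ → G} (hf : ∀ i j, i ≤ j → f j ^ (p ^ (j - i)) = f i) :
    Monotone (fun k => zpowers (f k)) := by
  intro i j hij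
  change zpowers (f i) ≤ zpowers (f j)
  rw [zpowers_le, ← hf i j hij]
  exact pow_mem (mem_zpowers _) _

lemma mem_chainGrp {p : ℕ} {f : ℕ → G} (hf : ∀ i j, i ≤ j → f j ^ (p ^ (j - i)) = f i) {x : G} :
    x ∈ chainGrp f ↔ ∃ k, x ∈ zpowers (f k) :=
  mem_iSup_of_directed (chain_mono hf).directed_le

lemma dvb_chainGrp {p : ℕ} (hp : p.Prime) {f : ℕ → G} (ho : ∀ k, orderOf (f k) = p ^ k)
    (hf : ∀ i j, i ≤ j → f j ^ (p ^ (j - i)) = f i) : Dvb (chainGrp f) := by
  intro x hx n hn
  obtain ⟨k, j, hj⟩ := (mem_chainGrp hf).1 hx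
  obtain ⟨e, n', hn', hnn⟩ := Nat.exists_eq_pow_mul_and_not_dvd hn.ne' p hp.ne_one
  have hcop : Nat.Coprime n' (orderOf (f (k + e))) := by
    rw [ho]
    exact ((hp.coprime_iff_not_dvd.2 hn').symm).pow_right _
  obtain ⟨m, hm⟩ := exists_pow_eq_self_of_coprime hcop
  have h1 : f (k + e) ^ (p ^ e) = f k := by
    have := hf k (k + e) (by omega)
    rwa [Nat.add_sub_cancel_left] at this
  refine ⟨(f (k + e) ^ m) ^ j, (mem_chainGrp hf).2 ⟨k + e,
    zpow_mem (pow_mem (mem_zpowers _) _) _⟩, ?_⟩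
  have h2 : ((f (k + e) ^ m) ^ j) ^ n = (((f (k + e) ^ n') ^ m) ^ (p ^ e)) ^ j := by
    rw [hnn, ← zpow_natCast, ← zpow_natCast (f (k + e)) m, ← zpow_natCast (f (k + e)) n',
      ← zpow_natCast _ m, ← zpow_natCast _ (p ^ e), ← zpow_mul, ← zpow_mul, ← zpow_mul,
      ← zpow_mul, ← zpow_mul]
    congr 1
    push_cast
    ring
  rw [h2, hm, h1]
  exact hj

/-- a finitely generated group is not the union of a proper increasing sequence of subgroups -/
lemma exists_eq_top_of_iSup [hfg : Group.FG G] {K : ℕ → Subgroup G} (hK : Monotone K)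
    (h : ⨆ k, K k = ⊤) : ∃ k, K k = ⊤ := by
  obtain ⟨S, hS, hSf⟩ := (Subgroup.fg_iff (⊤ : Subgroup G)).1 (Group.fg_def.1 hfg)
  have h1 : ∀ x : G, ∃ k, x ∈ K k := by
    intro x
    refine (mem_iSup_of_directed hK.directed_le).1 ?_
    rw [h]; trivial
  choose k hk using h1
  obtain ⟨m, hm⟩ := (hSf.image k).bddAbove
  refine ⟨m, ?_⟩
  rw [eq_top_iff, ← hS, closure_le]
  intro x hx
  exact hK (hm ⟨x, hx, rfl⟩) (hk x)

lemma gen_mono_pow {a b g : G} (k : ℕ) : gen a (b ^ k) g ≤ gen a b g := by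
  refine gen_le (left_mem_gen _ _ _) ?_
  have h1 : g⁻¹ * b ^ k * g = (g⁻¹ * b * g) ^ k := by
    have := conj_pow (i := k) (a := g⁻¹) (b := b)
    rw [inv_inv] at this
    exact this.symm
  rw [h1]
  exact pow_mem (right_mem_gen _ _ _) k

/-- Two conjugates of `B` commute elementwise. -/
def CommConj (B : Subgroup G) (g h : G) : Prop :=
  ∀ x ∈ cjg B g, ∀ y ∈ cjg B h, x * y = y * x

lemma CommConj.symm {B : Subgroup G} {g h : G} (H : CommConj B g h) : CommConj B h g :=
  fun x hx y hy => (H y hy x hx).symm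

lemma cjg_mul {B : Subgroup G} {g x y : G} : y ∈ cjg B (g * x) ↔ x * y * x⁻¹ ∈ cjg B g := by
  rw [mem_cjg, mem_cjg]
  have : g * x * y * (g * x)⁻¹ = g * (x * y * x⁻¹) * g⁻¹ := by group
  rw [this]

lemma CommConj.mul_right {B : Subgroup G} {g h : G} (H : CommConj B g h) (x : G) :
    CommConj B (g * x) (h * x) := by
  intro y hy z hz
  have h1 := H _ (cjg_mul.1 hy) _ (cjg_mul.1 hz)
  calc y * z = x⁻¹ * ((x * y * x⁻¹) * (x * z * x⁻¹)) * x := by group
    _ = x⁻¹ * ((x * z * x⁻¹) * (x * y * x⁻¹)) * x := by rw [h1]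
    _ = z * y := by group

lemma CommConj.trans [IsSimpleGroup G] (hG : IsQuasiChernikov G) {B : Subgroup G} (hB : Dvb B)
    (hB1 : B ≠ ⊥) {g h k : G} (H1 : CommConj B g h) (H2 : CommConj B h k) : CommConj B g k := by
  have := hG.infinite
  have hne : cjg B h ≠ ⊥ := by
    obtain ⟨x, hx1⟩ := ne_bot_iff_exists_ne_one.1 hB1
    intro h0
    have h2 : h⁻¹ * (x : G) * h ∈ cjg B h := conj_mem_cjg x.2
    rw [h0, mem_bot] at h2
    apply hx1
    apply Subtype.ext
    have h3 : (x : G) = h * (h⁻¹ * (x : G) * h) * h⁻¹ := by group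
    rw [h3, h2]
    simp
  obtain ⟨N, ⟨-, hNc, -, hN4⟩, -⟩ := exists_isDiv hG (centralizer_ne_top' hne)
  have hg : cjg B g ≤ N := by
    refine hN4 _ ?_ (dvb_cjg hB g)
    intro x hx
    rw [mem_centralizer_iff]
    intro y hy
    exact (H1 x hx y hy).symm
  have hk : cjg B k ≤ N := by
    refine hN4 _ ?_ (dvb_cjg hB k)
    intro x hx
    rw [mem_centralizer_iff]
    intro y hy
    exact H2 y hy x hx
  exact fun x hx y hy => hNc x (hg hx) y (hk hy)

/-- The contradiction: a nontrivial divisible subgroup `B` such that all `⟨a, B^g⟩` are proper,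
in a simple quasi-Chernikov group. -/
lemma false_of_proper [IsSimpleGroup G] (hG : IsQuasiChernikov G) {a : G} (ha : a ≠ 1)
    {B : Subgroup G} (hB : Dvb B) (hB1 : B ≠ ⊥)
    (h : ∀ g : G, ∃ K : Subgroup G, K ≠ ⊤ ∧ a ∈ K ∧ cjg B g ≤ K) : False := by
  have hinf := hG.infinite
  have h1 : ∀ g : G, CommConj B g (g * a) ∧ CommConj B g g := by
    intro g
    obtain ⟨K, hK, haK, hBK⟩ := h g
    obtain ⟨N, hN1, -, hN2, -, -⟩ := exists_isDiv_min hG hK
    have hBN : cjg B g ≤ N := hN1.2.2.2 _ hBK (dvb_cjg hB g)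
    constructor
    · intro x hx y hy
      refine hN1.2.1 x (hBN hx) y ?_
      have h3 := hN2 a⁻¹ (inv_mem haK) _ (hBN (cjg_mul.1 hy))
      have h4 : a⁻¹ * (a * y * a⁻¹) * a⁻¹⁻¹ = y := by group
      rwa [h4] at h3
    · intro x hx y hy
      exact hN1.2.1 x (hBN hx) y (hBN hy)
  let Γ : Subgroup G :=
    { carrier := {x | ∀ g : G, CommConj B g (g * x)}
      one_mem' := by
        intro g
        rw [mul_one]
        exact (h1 g).2
      mul_mem' := by
        intro x y hx hy g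
        have h2 := hy (g * x)
        rw [mul_assoc] at h2
        exact (hx g).trans hG hB hB1 h2
      inv_mem' := by
        intro x hx g
        have h2 := hx (g * x⁻¹)
        have h3 : g * x⁻¹ * x = g := by group
        rw [h3] at h2
        exact h2.symm }
  have hΓn : Γ.Normal := by
    constructor
    intro x hx c g
    have h2 := (hx (g * c)).mul_right c⁻¹
    have h3 : g * c * c⁻¹ = g := by group
    have h4 : g * c * x * c⁻¹ = g * (c * x * c⁻¹) := by group
    rw [h3, h4] at h2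
    exact h2
  have haΓ : a ∈ Γ := fun g => (h1 g).1
  have hΓ : Γ = ⊤ := by
    rcases IsSimpleGroup.eq_bot_or_eq_top_of_normal Γ hΓn with h | h
    · rw [h, mem_bot] at haΓ
      exact absurd haΓ ha
    · exact h
  obtain ⟨x, hx1⟩ := ne_bot_iff_exists_ne_one.1 hB1
  have hx1' : (x : G) ≠ 1 := fun h => hx1 (Subtype.ext h)
  -- `x` commutes with all conjugates of `B`
  have hcx : ∀ g : G, ∀ y ∈ cjg B g, (x : G) * y = y * x := by
    intro g y hy
    have h2 : g ∈ Γ := by rw [hΓ]; trivial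
    have h3 := h2 1
    rw [one_mul] at h3
    refine h3 x ?_ y hy
    rw [mem_cjg]
    simp
  have hnc : normalClosure (B : Set G) ≤ centralizer ({(x : G)} : Set G) := by
    rw [normalClosure, closure_le]
    intro y hy
    obtain ⟨t, ht, hty⟩ := Group.mem_conjugatesOfSet_iff.1 hy
    obtain ⟨c, hc⟩ := isConj_iff.1 hty
    rw [SetLike.mem_coe, mem_centralizer_singleton_iff]
    refine (hcx c⁻¹ y ?_).symm
    rw [mem_cjg, ← hc]
    have : c⁻¹ * (c * t * c⁻¹) * c⁻¹⁻¹ = t := by group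
    rw [this]; exact ht
  have htop : normalClosure (B : Set G) = ⊤ := by
    rcases IsSimpleGroup.eq_bot_or_eq_top_of_normal _ (normalClosure_normal (s := (B : Set G)))
      with h | h
    · exfalso
      apply hx1'
      have : (x : G) ∈ normalClosure (B : Set G) := subset_normalClosure x.2
      rw [h, mem_bot] at this
      exact this
    · exact h
  rw [htop, top_le_iff] at hnc
  exact centralizer_ne_top hx1' hnc

/-- **Elements of large order.** -/
theorem good_of_large [IsSimpleGroup G] [Group.FG G] (hG : IsQuasiChernikov G) {a : G}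
    (ha : a ≠ 1) {H : Subgroup G} (hH : H ≠ ⊤) :
    ∃ n : ℕ, ∀ b ∈ H, n < orderOf b → (good a b).Infinite := by
  have hinf := hG.infinite
  by_contra hcon
  push Not at hcon
  obtain ⟨N, hN1, hN2, -, hN4, m, hm, hmN⟩ := exists_isDiv_min hG hH
  have hfo := isOfFinOrder hG
  -- the set of bad elements
  let X : Set G := {b | b ∈ N ∧ ∀ g : G, gen a b g ≠ ⊤}
  have hXp : ∀ x ∈ X, ∀ k : ℕ, x ^ k ∈ X := by
    rintro x ⟨hx, hxg⟩ k
    refine ⟨pow_mem hx k, fun g hg => hxg g ?_⟩
    rw [eq_top_iff, ← hg]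
    exact gen_mono_pow k
  -- `N` is infinite
  have hNinf : Infinite N := by
    by_contra hNf
    rw [not_infinite_iff_finite] at hNf
    obtain ⟨b, hb, hbo, -⟩ := hcon (m * Nat.card N)
    have h1 : (b ^ m) ^ Nat.card N = 1 := by
      have := pow_card_eq_one' (x := (⟨b ^ m, hmN b hb⟩ : N))
      exact congrArg Subtype.val this
    rw [← pow_mul] at h1
    have h2 := Nat.le_of_dvd (Nat.mul_pos hm Nat.card_pos) (orderOf_dvd_of_pow_eq_one h1)
    omega
  have hX : ∀ n : ℕ, ∃ x ∈ X, n < orderOf x := by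
    intro n
    obtain ⟨b, hb, hbo, hbg⟩ := hcon (m * n)
    refine ⟨b ^ m, ⟨hmN b hb, ?_⟩, ?_⟩
    · have h1 : (good a (b ^ m)).Finite := hbg.subset (good_pow_right m)
      have h2 : Infinite (centralizer ({b ^ m} : Set G)) := by
        have hle : N ≤ centralizer ({b ^ m} : Set G) := by
          intro y hy
          rw [mem_centralizer_singleton_iff]
          exact hN1.2.1 y hy _ (hmN b hb)
        exact Infinite.of_injective (inclusion hle) (inclusion_injective hle)
      exact good_empty h1 (Or.inr h2)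
    · have h1 : b ^ (m * orderOf (b ^ m)) = 1 := by
        rw [pow_mul, pow_orderOf_eq_one]
      have h2 := Nat.le_of_dvd (Nat.mul_pos hm (hfo (b ^ m)).orderOf_pos)
        (orderOf_dvd_of_pow_eq_one h1)
      by_contra h3
      push Not at h3
      have := Nat.mul_le_mul_left m h3
      omega
  obtain ⟨p, hp, f, hfX, hfo', hf⟩ := exists_chain hN1.2.1 hN2 hfo (X := X) (fun x hx => hx.1)
    hXp hX
  have hB := dvb_chainGrp hp hfo' hf
  have hB1 : chainGrp f ≠ ⊥ := by
    intro h
    have h1 : f 1 ∈ chainGrp f := (mem_chainGrp hf).2 ⟨1, mem_zpowers _⟩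
    rw [h, mem_bot] at h1
    have h2 := hfo' 1
    rw [h1, orderOf_one, pow_one] at h2
    exact hp.one_lt.ne h2
  refine false_of_proper hG ha hB hB1 ?_
  intro g
  let K : ℕ → Subgroup G := fun k => gen a (f k) g
  have hK : Monotone K := by
    intro i j hij
    change gen a (f i) g ≤ gen a (f j) g
    rw [← hf i j hij]
    exact gen_mono_pow _
  refine ⟨⨆ k, K k, ?_, ?_, ?_⟩
  · intro h
    obtain ⟨k, hk⟩ := exists_eq_top_of_iSup hK h
    exact (hfX k).2 g hk
  · exact (le_iSup K 0) (left_mem_gen _ _ _)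
  · intro x hx
    obtain ⟨k, j, hj⟩ := (mem_chainGrp hf).1 (mem_cjg.1 hx)
    refine (le_iSup K k) ?_
    have h1 : x = (g⁻¹ * f k * g) ^ j := by
      have h2 := conj_zpow (i := j) (a := g⁻¹) (b := f k)
      rw [inv_inv] at h2
      rw [h2]
      have h3 : f k ^ j = g * x * g⁻¹ := hj
      rw [h3]; group
    rw [h1]
    exact zpow_mem (right_mem_gen _ _ _) j

end Pool.Agent.Helper24.QC
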