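import Pool.Agent.Helper24.QC.Basic

set_option autoImplicit false

/-!
# Abelian groups with the minimal condition
-/

universe u

namespace Pool.Agent.Helper24.QC

open Subgroup Pool.Agent.Helper36.QC

variable {G : Type u} [Group G]

/-- the minimal condition on the subgroups of `N` -/
def MinOn (N : Subgroup G) : Prop :=
  ∀ f : ℕ → Subgroup G, Antitone f → (∀ k, f k ≤ N) → ∃ m, ∀ k, m ≤ k → f k = f m

/-- The divisible part of a proper subgroup of a quasi-Chernikov group, with the minimal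
condition. -/
lemma exists_isDiv_min (hG : IsQuasiChernikov G) {H : Subgroup G} (hH : H ≠ ⊤) :
    ∃ N : Subgroup G, IsDiv H N ∧ MinOn N ∧
      (∀ u ∈ H, ∀ x ∈ N, u * x * u⁻¹ ∈ N) ∧ (N.subgroupOf H).FiniteIndex ∧
      ∃ m, 0 < m ∧ ∀ x ∈ H, x ^ m ∈ N := by
  obtain ⟨N, hN, hfi, hc, hdiv, hmin⟩ := hG.2 H hH
  have hi : 0 < N.index := Nat.pos_of_ne_zero (finiteIndex_iff.1 hfi)
  refine ⟨N.map H.subtype, ⟨?_, ?_, ?_, ?_⟩, ?_, ?_, ?_, N.index, hi, ?_⟩
  · rintro _ ⟨x, -, rfl⟩
    exact x.2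
  · rintro _ ⟨x, hx, rfl⟩ _ ⟨y, hy, rfl⟩
    exact congrArg Subtype.val (hc x hx y hy)
  · rintro _ ⟨x, hx, rfl⟩ n hn
    obtain ⟨y, hy, hyx⟩ := hdiv x hx n hn
    exact ⟨y, ⟨y, hy, rfl⟩, congrArg Subtype.val hyx⟩
  · intro A hA hAd x hx
    obtain ⟨y, hy, rfl⟩ := hAd x hx N.index hi
    exact ⟨⟨y, hA hy⟩ ^ N.index, N.pow_index_mem _, rfl⟩
  · intro f hf hfN
    have hfH : ∀ k, f k ≤ H := by
      intro k x hx
      obtain ⟨y, -, rfl⟩ := hfN k hx
      exact y.2
    obtain ⟨m, hm⟩ := hmin (fun k => (f k).subgroupOf H) (fun i j hij x hx => hf hij hx) (by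
      intro k x hx
      obtain ⟨y, hy, hyx⟩ := hfN k (show (x : G) ∈ f k from hx)
      have : y = x := Subtype.ext hyx
      rw [← this]; exact hy)
    refine ⟨m, fun k hk => ?_⟩
    have h1 := hm k hk
    apply le_antisymm
    · intro x hx
      have h2 : (⟨x, hfH k hx⟩ : H) ∈ (f k).subgroupOf H := hx
      rw [h1] at h2
      exact h2
    · intro x hx
      have h2 : (⟨x, hfH m hx⟩ : H) ∈ (f m).subgroupOf H := hx
      rw [← h1] at h2
      exact h2
  · rintro u hu _ ⟨x, hx, rfl⟩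
    exact ⟨⟨u, hu⟩ * x * ⟨u, hu⟩⁻¹, hN.conj_mem x hx ⟨u, hu⟩, rfl⟩
  · have : (N.map H.subtype).subgroupOf H = N := by
      rw [subgroupOf, comap_map_eq_self_of_injective H.subtype_injective]
    rw [this]; exact hfi
  · intro x hx
    exact ⟨⟨x, hx⟩ ^ N.index, N.pow_index_mem _, rfl⟩

lemma comm_mul_pow {N : Subgroup G} (hc : Comm N) {x y : G} (hx : x ∈ N) (hy : y ∈ N) (n : ℕ) :
    (x * y) ^ n = x ^ n * y ^ n :=
  (show Commute x y from hc x hx y hy).mul_pow n

/-- the elements of `N` killed by `n` -/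
def tors (N : Subgroup G) (hc : Comm N) (n : ℕ) : Subgroup G where
  carrier := {x | x ∈ N ∧ x ^ n = 1}
  one_mem' := ⟨one_mem N, one_pow n⟩
  mul_mem' := by
    rintro x y ⟨hx, hx1⟩ ⟨hy, hy1⟩
    exact ⟨mul_mem hx hy, by rw [comm_mul_pow hc hx hy, hx1, hy1, one_mul]⟩
  inv_mem' := by
    rintro x ⟨hx, hx1⟩
    exact ⟨inv_mem hx, by rw [inv_pow, hx1, inv_one]⟩

lemma finite_of_min_field (K : Type) {V : Type u} [Field K] [Finite K] [AddCommGroup V]
    [Module K V]
    (hm : ∀ f : ℕ → AddSubgroup V, Antitone f → ∃ m, ∀ k, m ≤ k → f k = f m) : Finite V := by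
  have hart : IsArtinian K V := by
    rw [← monotone_stabilizes_iff_artinian]
    intro f
    obtain ⟨m, hm'⟩ := hm (fun k => (OrderDual.ofDual (f k)).toAddSubgroup)
      (fun i j hij x hx => f.monotone hij hx)
    exact ⟨m, fun k hk => (Submodule.toAddSubgroup_injective (hm' k hk)).symm⟩
  have hfin : Module.Finite K V :=
    ((IsSemisimpleModule.finite_tfae (R := K) (M := V)).out 0 2).2 hart
  exact Module.finite_of_finite K

lemma finite_of_min {V : Type u} [AddCommGroup V] (p : ℕ) [hp : Fact p.Prime]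
    (hk : ∀ x : V, p • x = 0)
    (hm : ∀ f : ℕ → AddSubgroup V, Antitone f → ∃ m, ∀ k, m ≤ k → f k = f m) : Finite V :=
  @finite_of_min_field (ZMod p) V _ _ _ (AddCommGroup.zmodModule hk) hm

lemma finite_tors_prime {N : Subgroup G} (hc : Comm N) (hm : MinOn N) {p : ℕ} (hp : p.Prime) :
    {x : G | x ∈ N ∧ x ^ p = 1}.Finite := by
  set W := tors N hc p with hW
  have hWN : W ≤ N := fun x hx => hx.1
  let iC : CommGroup W :=
    { (inferInstance : Group W) with
      mul_comm := fun x y => Subtype.ext (hc x (hWN x.2) y (hWN y.2)) }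
  have hFp : Fact p.Prime := ⟨hp⟩
  have hk : ∀ x : Additive W, p • x = 0 := by
    intro x
    have h1 : (x.toMul : W) ^ p = 1 := Subtype.ext (by simpa using (x.toMul : W).2.2)
    exact congrArg Additive.ofMul h1
  have h1 : Finite (Additive W) := by
    refine finite_of_min p hk ?_
    intro f hf
    let F : AddSubgroup (Additive W) → Subgroup G := fun S =>
      (AddSubgroup.toSubgroup' S).map W.subtype
    have hF : ∀ (S : AddSubgroup (Additive W)) (x : Additive W),
        ((x.toMul : W) : G) ∈ F S ↔ x ∈ S := by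
      intro S x
      constructor
      · rintro ⟨y, hy, hyx⟩
        have h1 : y = x.toMul := Subtype.ext hyx
        have h2 : Additive.ofMul y = x := by rw [h1]; rfl
        rw [← h2]; exact hy
      · intro h
        exact ⟨x.toMul, h, rfl⟩
    obtain ⟨m, hm'⟩ := hm (fun k => F (f k)) (by
      rintro i j hij _ ⟨y, hy, rfl⟩
      exact (hF (f i) (Additive.ofMul y)).2 (hf hij hy)) (by
      rintro k _ ⟨y, -, rfl⟩
      exact hWN y.2)
    refine ⟨m, fun k hk => ?_⟩
    ext x
    have h1 := hF (f k) x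
    have h2 := hF (f m) x
    have h3 : F (f k) = F (f m) := hm' k hk
    rw [h3] at h1
    exact h1.symm.trans h2
  have h2 : Finite W := h1
  exact h2

lemma finite_fibre {N : Subgroup G} (hc : Comm N) {n : ℕ} (h : {x : G | x ∈ N ∧ x ^ n = 1}.Finite)
    (c : G) : {x : G | x ∈ N ∧ x ^ n = c}.Finite := by
  by_cases he : ∃ x0, x0 ∈ N ∧ x0 ^ n = c
  · obtain ⟨x0, hx0, hx0c⟩ := he
    refine (h.image (fun y => x0 * y)).subset ?_
    rintro x ⟨hx, hxc⟩
    refine ⟨x0⁻¹ * x, ⟨mul_mem (inv_mem hx0) hx, ?_⟩, by simp⟩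
    rw [comm_mul_pow hc (inv_mem hx0) hx, inv_pow, hx0c, hxc, inv_mul_cancel]
  · refine Set.finite_empty.subset ?_
    intro x hx
    exact absurd ⟨x, hx⟩ he

lemma finite_tors {N : Subgroup G} (hc : Comm N) (hm : MinOn N) (n : ℕ) (hn : n ≠ 0) :
    {x : G | x ∈ N ∧ x ^ n = 1}.Finite := by
  induction n using Nat.recOnMul with
  | zero => exact absurd rfl hn
  | one =>
    refine (Set.finite_singleton (1 : G)).subset ?_
    rintro x ⟨-, hx⟩
    rw [pow_one] at hx
    exact hx
  | prime p hp => exact finite_tors_prime hc hm hp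
  | mul a b iha ihb =>
    have ha : a ≠ 0 := left_ne_zero_of_mul hn
    have hb : b ≠ 0 := right_ne_zero_of_mul hn
    have h1 := (ihb hb).biUnion (t := fun c => {x : G | x ∈ N ∧ x ^ a = c})
      (fun c _ => finite_fibre hc (iha ha) c)
    refine h1.subset ?_
    rintro x ⟨hx, hx1⟩
    rw [Set.mem_iUnion₂]
    exact ⟨x ^ a, ⟨pow_mem hx a, by rw [← pow_mul]; exact hx1⟩, hx, rfl⟩

/-- only finitely many primes occur -/
lemma finite_primes {N : Subgroup G} (hc : Comm N) (hm : MinOn N) :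
    ∃ m : ℕ, ∀ p : ℕ, p.Prime → m < p → ∀ x ∈ N, x ^ p = 1 → x = 1 := by
  let f : ℕ → Subgroup G := fun k =>
    { carrier := {x | x ∈ N ∧ ∃ n : ℕ, Nat.Coprime n k.factorial ∧ x ^ n = 1}
      one_mem' := ⟨one_mem N, 1, Nat.coprime_one_left _, one_pow 1⟩
      mul_mem' := by
        rintro x y ⟨hx, n, hn, hxn⟩ ⟨hy, l, hl, hyl⟩
        refine ⟨mul_mem hx hy, n * l, hn.mul_left hl, ?_⟩
        rw [comm_mul_pow hc hx hy, pow_mul, hxn, one_pow, mul_comm n l, pow_mul, hyl, one_pow, one_mul]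
      inv_mem' := by
        rintro x ⟨hx, n, hn, hxn⟩
        exact ⟨inv_mem hx, n, hn, by rw [inv_pow, hxn, inv_one]⟩ }
  obtain ⟨m, hm'⟩ := hm f (by
    rintro i j hij x ⟨hx, n, hn, hxn⟩
    exact ⟨hx, n, hn.coprime_dvd_right (Nat.factorial_dvd_factorial hij), hxn⟩) (fun k x hx => hx.1)
  refine ⟨m, fun p hp hmp x hx hxp => ?_⟩
  have h1 : x ∈ f m := by
    refine ⟨hx, p, ?_, hxp⟩
    rw [hp.coprime_iff_not_dvd, hp.dvd_factorial]
    omega
  rw [← hm' p hmp.le] at h1
  obtain ⟨-, n, hn, hxn⟩ := h1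
  have h2 : Nat.Coprime n p := hn.coprime_dvd_right (hp.dvd_factorial.2 le_rfl)
  have h3 := Nat.dvd_gcd (orderOf_dvd_of_pow_eq_one hxn) (orderOf_dvd_of_pow_eq_one hxp)
  rw [h2] at h3
  exact orderOf_eq_one_iff.1 (Nat.dvd_one.1 h3)

/-- a power-closed set with elements of unbounded order contains an infinite chain -/
lemma exists_chain {N : Subgroup G} (hc : Comm N) (hm : MinOn N)
    (hfo : ∀ x : G, IsOfFinOrder x) {X : Set G} (hXN : ∀ x ∈ X, x ∈ N)
    (hXp : ∀ x ∈ X, ∀ k : ℕ, x ^ k ∈ X) (hX : ∀ n : ℕ, ∃ x ∈ X, n < orderOf x) :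
    ∃ p : ℕ, p.Prime ∧ ∃ f : ℕ → G, (∀ k, f k ∈ X) ∧ (∀ k, orderOf (f k) = p ^ k) ∧
      ∀ i j, i ≤ j → f j ^ (p ^ (j - i)) = f i := by
  obtain ⟨m, hmp⟩ := finite_primes hc hm
  have hord : ∀ x : G, orderOf x ≠ 0 := fun x => (hfo x).orderOf_pos.ne'
  have step1 : ∃ p : ℕ, p.Prime ∧ ∀ k, ∃ x ∈ X, orderOf x = p ^ k := by
    by_contra hcon
    push Not at hcon
    have h1 : ∀ p : ℕ, ∃ e : ℕ, p.Prime → ∀ x ∈ X, orderOf x ≠ p ^ e := by
      intro p
      by_cases hp : p.Prime
      · obtain ⟨e, he⟩ := hcon p hp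
        exact ⟨e, fun _ => he⟩
      · exact ⟨0, fun h => absurd h hp⟩
    choose e he using h1
    set L := ∏ p ∈ (Finset.range (m + 1)).filter Nat.Prime, p ^ e p with hL
    have hL0 : L ≠ 0 := by
      rw [hL, Finset.prod_ne_zero_iff]
      intro p hp
      exact pow_ne_zero _ (Finset.mem_filter.1 hp).2.ne_zero
    obtain ⟨x, hxX, hx⟩ := hX L
    have hdvd : orderOf x ∣ L := by
      rw [← Nat.factorization_prime_le_iff_dvd (hord x) hL0]
      intro p hp
      by_cases hpo : p ∣ orderOf x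
      · -- `p ≤ m`
        have hpm : p ≤ m := by
          by_contra hpm
          push Not at hpm
          have h2 : (x ^ (orderOf x / p)) ^ p = 1 := by
            rw [← pow_mul, Nat.div_mul_cancel hpo, pow_orderOf_eq_one]
          have h3 := hmp p hp hpm _ (pow_mem (hXN x hxX) _) h2
          have h4 := orderOf_dvd_of_pow_eq_one h3
          have h5 : orderOf x / p < orderOf x :=
            Nat.div_lt_self (Nat.pos_of_ne_zero (hord x)) hp.one_lt
          have h6 : 0 < orderOf x / p := Nat.div_pos (Nat.le_of_dvd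
            (Nat.pos_of_ne_zero (hord x)) hpo) hp.pos
          exact absurd (Nat.le_of_dvd h6 h4) (not_le.2 h5)
        have h7 : ¬ p ^ e p ∣ orderOf x := by
          intro hd
          have hne : orderOf x / p ^ e p ≠ 0 := by
            have := Nat.div_pos (Nat.le_of_dvd (Nat.pos_of_ne_zero (hord x)) hd)
              (pow_pos hp.pos _)
            omega
          have h8 : orderOf (x ^ (orderOf x / p ^ e p)) = p ^ e p := by
            rw [orderOf_pow_of_dvd hne (Nat.div_dvd_of_dvd hd), Nat.div_div_self hd (hord x)]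
          exact he p hp _ (hXp x hxX _) h8
        have h9 : p ^ e p ∣ L := Finset.dvd_prod_of_mem _
          (Finset.mem_filter.2 ⟨Finset.mem_range.2 (by omega), hp⟩)
        have h10 := (hp.pow_dvd_iff_le_factorization hL0).1 h9
        have h11 : ¬ e p ≤ (orderOf x).factorization p := by
          intro h
          exact h7 ((hp.pow_dvd_iff_le_factorization (hord x)).2 h)
        omega
      · rw [Nat.factorization_eq_zero_of_not_dvd hpo]
        exact Nat.zero_le _
    exact absurd (Nat.le_of_dvd (Nat.pos_of_ne_zero hL0) hdvd) (not_le.2 hx)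
  obtain ⟨p, hp, hpX⟩ := step1
  refine ⟨p, hp, ?_⟩
  let α : ℕ → Type u := fun k => {x : G // x ∈ X ∧ orderOf x = p ^ k}
  have hα0 : Finite (α 0) := by
    have : Subsingleton (α 0) := by
      constructor
      rintro ⟨x, hx, hx1⟩ ⟨y, hy, hy1⟩
      rw [pow_zero, orderOf_eq_one_iff] at hx1 hy1
      exact Subtype.ext (hx1.trans hy1.symm)
    infer_instance
  have hαn : ∀ i, Nonempty (α i) := fun i => by
    obtain ⟨x, hx, hxo⟩ := hpX i
    exact ⟨⟨x, hx, hxo⟩⟩
  let π : {i j : ℕ} → (hij : i ≤ j) → α j → α i := fun {i j} hij x =>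
    ⟨x.1 ^ (p ^ (j - i)), hXp _ x.2.1 _, by
      rw [orderOf_pow_of_dvd (pow_ne_zero _ hp.ne_zero) (by
        rw [x.2.2]; exact pow_dvd_pow _ (Nat.sub_le j i)), x.2.2, Nat.pow_div (Nat.sub_le j i) hp.pos]
      congr 1
      omega⟩
  obtain ⟨f, hf⟩ := exists_seq_forall_proj_of_forall_finite (α := α) π (by
      intro i a
      apply Subtype.ext
      change a.1 ^ (p ^ (i - i)) = a.1
      rw [Nat.sub_self, pow_zero, pow_one]) (by
      intro i j k hij hjk a
      apply Subtype.ext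
      change (a.1 ^ (p ^ (k - j))) ^ (p ^ (j - i)) = a.1 ^ (p ^ (k - i))
      rw [← pow_mul, ← pow_add]
      congr 2
      omega) (by
      intro i a
      have h1 := finite_fibre hc (finite_tors_prime hc hm hp) a.1
      refine Set.Finite.of_finite_image (f := Subtype.val) (h1.subset ?_)
        Subtype.val_injective.injOn
      rintro _ ⟨b, hb, rfl⟩
      refine ⟨hXN _ b.2.1, ?_⟩
      have := congrArg Subtype.val hb
      change b.1 ^ (p ^ (i + 1 - i)) = a.1 at this
      rwa [Nat.add_sub_cancel_left, pow_one] at this)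
  refine ⟨fun k => (f k).1, fun k => (f k).2.1, fun k => (f k).2.2, fun i j hij => ?_⟩
  exact congrArg Subtype.val (hf hij)

end Pool.Agent.Helper24.QC
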