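import Pool.Agent.Helper24.QC.Perp
import Pool.Agent.Helper24.QC.FinC

set_option autoImplicit false

/-!
# Simple quasi-Chernikov groups all of whose finite subgroups are `p`-closed
-/

universe u

namespace Pool.Agent.Helper24.QC

open Subgroup Pool.Agent.Helper36.QC

variable {G : Type u} [Group G]

/-- A `p`-element `b` with infinite centralizer normalizes only one maximal divisible abelian
subgroup. -/
theorem nz_unique [IsSimpleGroup G] (hG : IsQuasiChernikov G) {p : ℕ} (hN : PCl p G)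
    (hp : p.Prime) {b : G} (hb : b ≠ 1) (hbp : PEl p b) {M M' : Subgroup G} (hM : Att b M)
    (hM' : MaxDiv M') (hM'ne : M' ≠ ⊥) (hbn : b ∈ Nz M') : M' = M := by
  have hinf := hG.infinite
  have hFp : Fact p.Prime := ⟨hp⟩
  by_cases h : ∀ t ∈ M', PEl p t
  · have hM't : M' ≠ ⊤ := comm_ne_top hM'.1
    obtain ⟨N, hN1, hNm, -⟩ := exists_isDiv_min hG hM't
    have hNM : N = M' := IsDiv.unique hN1 ⟨le_rfl, hM'.1, hM'.2.1, fun A hA _ => hA⟩
    rw [hNM] at hNm
    have htne : tors M' hM'.1 p ≠ ⊥ := by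
      intro h0
      obtain ⟨t, ht1⟩ := ne_bot_iff_exists_ne_one.1 hM'ne
      have ht1' : (t : G) ≠ 1 := fun h => ht1 (Subtype.ext h)
      obtain ⟨k, hk⟩ := exists_prime_pow hG ht1'
      obtain ⟨l, hl⟩ := (h t t.2).pow k
      have h3 : orderOf ((t : G) ^ k) ∣ p ^ l := orderOf_dvd_of_pow_eq_one hl
      have h4 : orderOf ((t : G) ^ k) = p := (Nat.prime_dvd_prime_iff_eq hk hp).1
        (hk.dvd_of_dvd_pow h3)
      have h5 : (t : G) ^ k ∈ tors M' hM'.1 p :=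
        ⟨pow_mem t.2 k, by rw [← h4]; exact pow_orderOf_eq_one _⟩
      rw [h0, mem_bot] at h5
      rw [h5, orderOf_one] at h4
      exact hp.one_lt.ne h4
    have htp : IsPGroup p (tors M' hM'.1 p) := by
      rintro ⟨t, ht, htp⟩
      exact ⟨1, Subtype.ext (by rw [pow_one]; exact htp)⟩
    obtain ⟨u, ⟨huM, hup⟩, hu1, hub⟩ := exists_fixed (L := zpowers b) (B := tors M' hM'.1 p)
      (isPGroup_zpowers hbp) htp (finite_tors_prime hM'.1 hNm hp) htne (by
        rintro l hl t ⟨ht, htp⟩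
        have hlE : l ∈ Nz M' := (zpowers_le.2 hbn) hl
        refine ⟨Nz.conj hlE ht, ?_⟩
        rw [conj_pow, htp]; group)
    have hbu : b * u = u * b := hub b (mem_zpowers b)
    have hu : Att u M' := ⟨hM', M', hM'ne, hM'.2.1, le_rfl, fun t ht =>
      mem_centralizer_singleton_iff.2 (hM'.1 t ht u huM)⟩
    exact (no_perp hG hN hp hb hu1 hbp ⟨1, by rw [pow_one]; exact hup⟩ hbu hM hu).symm
  · push Not at h
    have h1 := infinite_of_not_p hG hN hp hbp hM'ne hM'.1 hM'.2.1 hbn h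
    exact Att.unique hG hb (Att.of_infinite hG hM' h1) hM

/-- the action on a set of subgroups -/
@[instance_reducible] def actS (L : Subgroup G) (Φ : Set (Subgroup G)) (h : ∀ l ∈ L, ∀ M' ∈ Φ, cjg M' l⁻¹ ∈ Φ) :
    MulAction L Φ where
  smul := fun l M' => ⟨cjg M' (l : G)⁻¹, h l l.2 M' M'.2⟩
  one_smul := fun M' => Subtype.ext (by
    change cjg (M' : Subgroup G) (1 : G)⁻¹ = M'
    rw [inv_one, cjg_one])
  mul_smul := fun l m M' => Subtype.ext (by
    change cjg (M' : Subgroup G) ((l : G) * m)⁻¹ = cjg (cjg (M' : Subgroup G) (m : G)⁻¹) (l : G)⁻¹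
    rw [cjg_cjg, mul_inv_rev])

/-- an element with finite centralizer normalizes finitely many conjugates of `M` -/
lemma finite_nz [IsSimpleGroup G] (hG : IsQuasiChernikov G) {M : Subgroup G} (hMc : Comm M)
    (hMne : M ≠ ⊥) {z : G} (hz : Finite (centralizer ({z} : Set G))) :
    {M' : Subgroup G | (∃ g, M' = cjg M g) ∧ z ∈ Nz M'}.Finite := by
  classical
  have hinf := hG.infinite
  obtain ⟨S, hS, hSH⟩ := exists_reps_exponent hG (nz_ne_top hMc hMne)
    (isOfFinOrder hG z).orderOf_pos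
  let t : G → G := fun r => if h : ∃ t : G, t * z * t⁻¹ = r then h.choose else 1
  have hfin : (S ×ˢ (centralizer ({z} : Set G) : Set G)).Finite := hS.prod hz
  refine (hfin.image (fun rc : G × G => cjg M (t rc.1 * rc.2))).subset ?_
  rintro M' ⟨⟨g, rfl⟩, hzM⟩
  have h1 : cjg M (g * z) = cjg M g := by
    rw [← cjg_cjg]
    exact hzM
  have h2 : g * z * g⁻¹ ∈ Nz M := by
    change cjg M (g * z * g⁻¹) = M
    rw [← cjg_cjg, h1, cjg_cjg, mul_inv_cancel, cjg_one]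
  obtain ⟨x, hx, r, hr, hxr⟩ := hSH _ h2 (by rw [conj_pow, pow_orderOf_eq_one]; group)
  have hr' : x * g * z * (x * g)⁻¹ = r := by
    have : r = x * (x⁻¹ * r * x) * x⁻¹ := by group
    rw [this, ← hxr]; group
  have hex : ∃ t : G, t * z * t⁻¹ = r := ⟨x * g, hr'⟩
  have ht : t r = hex.choose := by
    change (if h : ∃ t : G, t * z * t⁻¹ = r then h.choose else 1) = _
    rw [dif_pos hex]
  have hts : t r * z * (t r)⁻¹ = r := by rw [ht]; exact hex.choose_spec
  refine ⟨(r, (t r)⁻¹ * (x * g)), ⟨hr, ?_⟩, ?_⟩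
  · change (t r)⁻¹ * (x * g) ∈ centralizer ({z} : Set G)
    rw [mem_centralizer_singleton_iff]
    calc (t r)⁻¹ * (x * g) * z = (t r)⁻¹ * (x * g * z * (x * g)⁻¹) * (x * g) := by group
      _ = (t r)⁻¹ * (t r * z * (t r)⁻¹) * (x * g) := by rw [hr', hts]
      _ = z * ((t r)⁻¹ * (x * g)) := by group
  · change cjg M (t r * ((t r)⁻¹ * (x * g))) = cjg M g
    have e : t r * ((t r)⁻¹ * (x * g)) = x * g := by group
    rw [e, ← cjg_cjg]
    have hx' : cjg M x = M := hx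
    rw [hx']

/-- **Counting.** -/
theorem fix_count [IsSimpleGroup G] (hG : IsQuasiChernikov G) {p : ℕ} (hN : PCl p G)
    (hp : p.Prime) {b z : G} (hb : b ≠ 1) {M : Subgroup G} (hM : Att b M)
    (hz : Finite (centralizer ({z} : Set G))) {P : Subgroup G} (hP : IsPGroup p P) (hbP : b ∈ P)
    (hPz : ∀ x ∈ P, x * z = z * x) : P ≤ Nz M := by
  have hinf := hG.infinite
  have hFp : Fact p.Prime := ⟨hp⟩
  have hMne := hM.ne_bot
  set Φ : Set (Subgroup G) := {M' : Subgroup G | (∃ g, M' = cjg M g) ∧ z ∈ Nz M'} with hΦ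
  have hΦf : Finite Φ := finite_nz hG hM.1.1 hMne hz
  have hst : ∀ L : Subgroup G, L ≤ P → ∀ l ∈ L, ∀ M' ∈ Φ, cjg M' l⁻¹ ∈ Φ := by
    rintro L hL l hl M' ⟨⟨g, rfl⟩, hzM⟩
    refine ⟨⟨g * l⁻¹, cjg_cjg M g l⁻¹⟩, ?_⟩
    have hlz : l⁻¹ * z = z * l⁻¹ := hPz _ (inv_mem (hL hl))
    change cjg (cjg (cjg M g) l⁻¹) z = cjg (cjg M g) l⁻¹
    rw [cjg_cjg (cjg M g) l⁻¹ z, hlz, ← cjg_cjg (cjg M g) z l⁻¹]
    have hzM' : cjg (cjg M g) z = cjg M g := hzM
    rw [hzM']
  have hbz : z * b = b * z := (hPz b hbP).symm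
  have hMΦ : M ∈ Φ := ⟨⟨1, (cjg_one M).symm⟩, hM.mem_Nz hG hb hbz⟩
  -- the fixed points of `b`
  have hfix : ∀ M' ∈ Φ, cjg M' b⁻¹ = M' → M' = M := by
    rintro M' ⟨⟨g, rfl⟩, -⟩ hbM
    have h1 : b⁻¹ ∈ Nz (cjg M g) := hbM
    have h2 := inv_mem h1
    rw [inv_inv] at h2
    have hbp : PEl p b := by
      obtain ⟨k, hk⟩ := hP ⟨b, hbP⟩
      exact ⟨k, congrArg Subtype.val hk⟩
    exact nz_unique hG hN hp hb hbp hM (maxDiv_cjg hM.1 g) (cjg_ne_bot hMne g) h2
  have hbL : zpowers b ≤ P := zpowers_le.2 hbP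
  have hcard : ¬ p ∣ Nat.card Φ := by
    let act := actS (zpowers b) Φ (hst _ hbL)
    have h1 := (hP.to_le hbL).card_modEq_card_fixedPoints Φ
    have h2 : MulAction.fixedPoints (zpowers b) Φ = {⟨M, hMΦ⟩} := by
      ext M'
      rw [Set.mem_singleton_iff]
      constructor
      · intro h
        exact Subtype.ext (hfix M' M'.2 (congrArg Subtype.val (h ⟨b, mem_zpowers b⟩)))
      · rintro rfl
        rintro ⟨_, j, rfl⟩
        apply Subtype.ext
        change cjg M (b ^ j)⁻¹ = M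
        have h3 : b ∈ Nz M := hM.mem_Nz hG hb rfl
        exact inv_mem (zpow_mem h3 j)
    rw [h2] at h1
    have h3 : Nat.card ({⟨M, hMΦ⟩} : Set Φ) = 1 := by simp
    rw [h3] at h1
    intro hd
    have h4 := (Nat.modEq_zero_iff_dvd.2 hd).symm.trans h1
    have h5 := (Nat.modEq_zero_iff_dvd.1 h4.symm)
    exact hp.one_lt.ne' (Nat.dvd_one.1 h5)
  let act := actS P Φ (hst _ le_rfl)
  obtain ⟨M', hM'⟩ := hP.nonempty_fixed_point_of_prime_not_dvd_card Φ hcard
  have h1 : (M' : Subgroup G) = M := hfix M' M'.2 (congrArg Subtype.val (hM' ⟨b, hbP⟩))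
  intro x hx
  have h2 : cjg (M' : Subgroup G) x⁻¹ = M' := congrArg Subtype.val (hM' ⟨x, hx⟩)
  rw [h1] at h2
  have h3 : x⁻¹ ∈ Nz M := h2
  have h4 := inv_mem h3
  rwa [inv_inv] at h4

/-- `F` acts on a normal Sylow subgroup -/
lemma good_of_pcl_inf [IsSimpleGroup G] (hG : IsQuasiChernikov G) {p : ℕ} (hN : PCl p G)
    (hp : p.Prime) {a b : G} (ha : a ≠ 1) (hb : b ≠ 1) (hap : PEl p a)
    (hinf : Infinite (centralizer ({a} : Set G))) : (good a b).Infinite := by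
  have hinfG := hG.infinite
  have hFp : Fact p.Prime := ⟨hp⟩
  intro hfin
  have hempty := good_empty hfin (Or.inl hinf)
  obtain ⟨M, hM⟩ := exists_att hG ha hinf
  have hMne := hM.ne_bot
  apply nz_ne_top hM.1.1 hMne
  refine eq_top_of_conj' hb fun g => ?_
  have hFf : Finite (gen a b g) := by
    by_contra h
    exact hempty g (hG.gen_eq_top h)
  set F := gen a b g with hF
  set f := g⁻¹ * b * g with hf
  have haF : a ∈ F := left_mem_gen a b g
  have hfF : f ∈ F := right_mem_gen a b g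
  have h1 : IsPGroup p (zpowers (⟨a, haF⟩ : F)) := by
    obtain ⟨k, hk⟩ := hap
    exact isPGroup_zpowers ⟨k, Subtype.ext hk⟩
  obtain ⟨S, hS⟩ := h1.exists_le_sylow
  have hSn : (S : Subgroup F).Normal := hN F hFf S
  set P : Subgroup G := (S : Subgroup F).map F.subtype with hP
  have haP : a ∈ P := ⟨⟨a, haF⟩, hS (mem_zpowers _), rfl⟩
  have hPp : IsPGroup p P := by
    rintro ⟨_, y, hy, rfl⟩
    obtain ⟨k, hk⟩ := S.2 ⟨y, hy⟩
    refine ⟨k, Subtype.ext ?_⟩
    exact congrArg (fun x : (S : Subgroup F) => ((x : F) : G)) hk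
  have hPf : Finite P := by
    have : ((S : Subgroup F) : Set F).Finite := Set.toFinite _
    exact (this.image F.subtype).to_subtype
  have hPn : ∀ x ∈ P, f⁻¹ * x * f ∈ P := by
    rintro _ ⟨y, hy, rfl⟩
    refine ⟨(⟨f, hfF⟩ : F)⁻¹ * y * (⟨f, hfF⟩ : F), ?_, rfl⟩
    have := hSn.conj_mem y hy (⟨f, hfF⟩ : F)⁻¹
    rwa [inv_inv] at this
  have hPn' : ∀ x ∈ P, f * x * f⁻¹ ∈ P := by
    rintro _ ⟨y, hy, rfl⟩
    exact ⟨(⟨f, hfF⟩ : F) * y * (⟨f, hfF⟩ : F)⁻¹, hSn.conj_mem y hy _, rfl⟩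
  -- a central element
  have hPnt : Nontrivial P := ⟨⟨⟨a, haP⟩, 1, fun h => ha (congrArg Subtype.val h)⟩⟩
  have hcn := hPp.center_nontrivial
  obtain ⟨z0, hz0⟩ := exists_ne (1 : center P)
  set z : G := ((z0 : P) : G) with hz
  have hzP : z ∈ P := (z0 : P).2
  have hz1 : z ≠ 1 := by
    intro h
    exact hz0 (Subtype.ext (Subtype.ext h))
  have hzc : ∀ x ∈ P, x * z = z * x := by
    intro x hx
    exact congrArg Subtype.val (mem_center_iff.1 z0.2 ⟨x, hx⟩)
  have hpel : ∀ x ∈ P, PEl p x := by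
    intro x hx
    obtain ⟨k, hk⟩ := hPp ⟨x, hx⟩
    exact ⟨k, congrArg Subtype.val hk⟩
  have haf : f⁻¹ * a * f ∈ P := hPn a haP
  have haf1 : f⁻¹ * a * f ≠ 1 := by
    intro h
    apply ha
    have : a = f * (f⁻¹ * a * f) * f⁻¹ := by group
    rw [this, h]; group
  by_cases hzf : Finite (centralizer ({z} : Set G))
  · have h2 := fix_count hG hN hp ha hM hzf hPp haP hzc haf
    exact (nz_unique hG hN hp haf1 (hpel _ haf) (hM.cjg f) hM.1 hMne h2).symm
  · rw [not_finite_iff_infinite] at hzf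
    obtain ⟨Mz, hMz⟩ := exists_att hG hz1 hzf
    have h2 := no_perp hG hN hp ha hz1 hap (hpel z hzP) (hzc a haP) hM hMz
    rw [← h2] at hMz
    have hzf1 : f⁻¹ * z * f ≠ 1 := by
      intro h
      apply hz1
      have : z = f * (f⁻¹ * z * f) * f⁻¹ := by group
      rw [this, h]; group
    have h3 : a * (f⁻¹ * z * f) = (f⁻¹ * z * f) * a := by
      have h4 := hzc _ (hPn' a haP)
      calc a * (f⁻¹ * z * f) = f⁻¹ * ((f * a * f⁻¹) * z) * f := by group
        _ = f⁻¹ * (z * (f * a * f⁻¹)) * f := by rw [h4]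
        _ = (f⁻¹ * z * f) * a := by group
    exact (no_perp hG hN hp ha hzf1 hap (hpel _ (hPn z hzP)) h3 hM (hMz.cjg f)).symm

/-- **Main theorem.** -/
theorem good_of_pcl [IsSimpleGroup G] (hG : IsQuasiChernikov G) {p : ℕ} (hN : PCl p G)
    (hp : p.Prime) {a b : G} (hpa : p ∣ orderOf a) (hb : b ≠ 1) : (good a b).Infinite := by
  have hinfG := hG.infinite
  have hFp : Fact p.Prime := ⟨hp⟩
  have hpos := (isOfFinOrder hG a).orderOf_pos
  refine Set.Infinite.mono (good_pow_left (orderOf a / p)) ?_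
  have ho : orderOf (a ^ (orderOf a / p)) = p := by
    rw [orderOf_pow_of_dvd _ (Nat.div_dvd_of_dvd hpa), Nat.div_div_self hpa hpos.ne']
    have := Nat.div_pos (Nat.le_of_dvd hpos hpa) hp.pos
    omega
  set a0 := a ^ (orderOf a / p) with ha0
  have ha1 : a0 ≠ 1 := by
    intro h
    rw [h, orderOf_one] at ho
    exact hp.one_lt.ne ho
  have hap : PEl p a0 := ⟨1, by rw [pow_one, ← ho]; exact pow_orderOf_eq_one a0⟩
  by_cases hfin : Finite (centralizer ({a0} : Set G))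
  · refine good_of_finC hG hb ?_ hfin
    intro g hFf
    set F := gen a0 b g with hF
    have haF : a0 ∈ F := left_mem_gen a0 b g
    have hfF : g⁻¹ * b * g ∈ F := right_mem_gen a0 b g
    have h1 : IsPGroup p (zpowers (⟨a0, haF⟩ : F)) := by
      obtain ⟨k, hk⟩ := hap
      exact isPGroup_zpowers ⟨k, Subtype.ext hk⟩
    obtain ⟨S, hS⟩ := h1.exists_le_sylow
    have hSn : (S : Subgroup F).Normal := hN F hFf S
    have haS : (⟨a0, haF⟩ : F) ∈ (S : Subgroup F) := hS (mem_zpowers _)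
    have hSnt : Nontrivial (S : Subgroup F) :=
      ⟨⟨⟨⟨a0, haF⟩, haS⟩, 1, fun h => ha1 (congrArg (fun x : (S : Subgroup F) => ((x : F) : G)) h)⟩⟩
    have hcn := S.2.center_nontrivial
    obtain ⟨z0, hz0⟩ := exists_ne (1 : center (S : Subgroup F))
    -- the centre as a subgroup of `G`
    let Z : Subgroup G := ((center (S : Subgroup F)).map (S : Subgroup F).subtype).map F.subtype
    have hmem : ∀ x : G, x ∈ Z ↔ ∃ (hx : x ∈ F), (⟨x, hx⟩ : F) ∈ (S : Subgroup F) ∧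
        ∀ y ∈ (S : Subgroup F), y * (⟨x, hx⟩ : F) = (⟨x, hx⟩ : F) * y := by
      intro x
      constructor
      · rintro ⟨_, ⟨w, hw, rfl⟩, rfl⟩
        refine ⟨(w : F).2, w.2, fun y hy => ?_⟩
        exact congrArg Subtype.val (mem_center_iff.1 hw ⟨y, hy⟩)
      · rintro ⟨hx, hxS, hxc⟩
        refine ⟨⟨x, hx⟩, ⟨⟨⟨x, hx⟩, hxS⟩, ?_, rfl⟩, rfl⟩
        rw [SetLike.mem_coe, mem_center_iff]
        intro y
        exact Subtype.ext (hxc y y.2)
    refine ⟨Z, ?_, ?_, ?_, ?_⟩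
    · intro h
      apply hz0
      have h2 : (((z0 : (S : Subgroup F)) : F) : G) ∈ Z := ⟨_, ⟨_, z0.2, rfl⟩, rfl⟩
      rw [h, mem_bot] at h2
      exact Subtype.ext (Subtype.ext (Subtype.ext h2))
    · have : Finite (center (S : Subgroup F)) := inferInstance
      exact (((Set.toFinite _).image _).image _ : ((F.subtype) '' ((S : Subgroup F).subtype ''
        (center (S : Subgroup F) : Set (S : Subgroup F)))).Finite).to_subtype
    · intro x hx
      obtain ⟨hxF, hxS, hxc⟩ := (hmem x).1 hx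
      rw [mem_centralizer_singleton_iff]
      exact (congrArg Subtype.val (hxc ⟨a0, haF⟩ haS)).symm
    · have key : ∀ f ∈ F, ∀ x ∈ Z, f * x * f⁻¹ ∈ Z := by
        intro f hf x hx
        obtain ⟨hxF, hxS, hxc⟩ := (hmem x).1 hx
        rw [hmem]
        refine ⟨mul_mem (mul_mem hf hxF) (inv_mem hf), hSn.conj_mem _ hxS ⟨f, hf⟩, ?_⟩
        intro y hy
        have h3 := hSn.conj_mem y hy (⟨f, hf⟩ : F)⁻¹
        rw [inv_inv] at h3
        have h4 := hxc _ h3
        change y * ((⟨f, hf⟩ : F) * ⟨x, hxF⟩ * (⟨f, hf⟩ : F)⁻¹)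
          = ((⟨f, hf⟩ : F) * ⟨x, hxF⟩ * (⟨f, hf⟩ : F)⁻¹) * y
        calc y * ((⟨f, hf⟩ : F) * ⟨x, hxF⟩ * (⟨f, hf⟩ : F)⁻¹)
            = (⟨f, hf⟩ : F) * (((⟨f, hf⟩ : F)⁻¹ * y * (⟨f, hf⟩ : F)) * ⟨x, hxF⟩) *
              (⟨f, hf⟩ : F)⁻¹ := by group
          _ = (⟨f, hf⟩ : F) * (⟨x, hxF⟩ * ((⟨f, hf⟩ : F)⁻¹ * y * (⟨f, hf⟩ : F))) *
              (⟨f, hf⟩ : F)⁻¹ := by rw [h4]
          _ = _ := by group
      change cjg Z (g⁻¹ * b * g) = Z
      ext x
      rw [mem_cjg]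
      constructor
      · intro hx
        have h5 := key _ (inv_mem hfF) _ hx
        have e : (g⁻¹ * b * g)⁻¹ * (g⁻¹ * b * g * x * (g⁻¹ * b * g)⁻¹) * (g⁻¹ * b * g)⁻¹⁻¹ = x := by
          group
        rwa [e] at h5
      · intro hx
        exact key _ hfF _ hx
  · rw [not_finite_iff_infinite] at hfin
    exact good_of_pcl_inf hG hN hp ha1 hb hap hfin

end Pool.Agent.Helper24.QC
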