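import Pool.Agent.Helper24.QC.Att

set_option autoImplicit false

/-!
# Commuting elements with infinite centralizers are attached to the same subgroup
-/

universe u

namespace Pool.Agent.Helper24.QC

open Subgroup Pool.Agent.Helper36.QC

/-- iterates of an endomorphism -/
def itr {D : Type u} [CommGroup D] (ψ : D →* D) : ℕ → (D →* D)
  | 0 => MonoidHom.id D
  | (n + 1) => ψ.comp (itr ψ n)

lemma itr_add {D : Type u} [CommGroup D] (ψ : D →* D) (m n : ℕ) (x : D) :
    itr ψ (m + n) x = itr ψ m (itr ψ n x) := by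
  induction m with
  | zero =>
    rw [Nat.zero_add]
    rfl
  | succ m ih =>
    rw [Nat.succ_add]
    change ψ (itr ψ (m + n) x) = ψ (itr ψ m (itr ψ n x))
    rw [ih]

lemma finite_ker_itr {D : Type u} [CommGroup D] (ψ : D →* D) (hk : (ψ.ker : Set D).Finite)
    (n : ℕ) : ((itr ψ n).ker : Set D).Finite := by
  induction n with
  | zero =>
    refine (Set.finite_singleton (1 : D)).subset ?_
    intro x hx
    exact hx
  | succ n ih =>
    have h1 : ∀ c : D, {x : D | itr ψ n x = c}.Finite := by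
      intro c
      by_cases he : ∃ x0, itr ψ n x0 = c
      · obtain ⟨x0, hx0⟩ := he
        refine (ih.image (fun y => x0 * y)).subset ?_
        intro x hx
        refine ⟨x0⁻¹ * x, ?_, by simp⟩
        change itr ψ n (x0⁻¹ * x) = 1
        have hx' : itr ψ n x = c := hx
        rw [map_mul, map_inv, hx0, hx', inv_mul_cancel]
      · refine Set.finite_empty.subset ?_
        intro x hx
        exact absurd ⟨x, hx⟩ he
    refine (hk.biUnion (t := fun c => {x : D | itr ψ n x = c}) fun c _ => h1 c).subset ?_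
    intro x hx
    rw [Set.mem_iUnion₂]
    exact ⟨itr ψ n x, hx, rfl⟩

/-- An endomorphism with finite kernel of a divisible abelian group with the minimal condition is
surjective. -/
lemma surj_of_finite_ker {D : Type u} [CommGroup D]
    (hd : ∀ x : D, ∀ n : ℕ, 0 < n → ∃ y, y ^ n = x)
    (hm : ∀ f : ℕ → Subgroup D, Antitone f → ∃ m, ∀ k, m ≤ k → f k = f m) (ψ : D →* D)
    (hk : (ψ.ker : Set D).Finite) : Function.Surjective ψ := by
  obtain ⟨m, hm'⟩ := hm (fun k => (itr ψ k).range) (by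
    refine antitone_nat_of_succ_le fun n => ?_
    rintro _ ⟨x, rfl⟩
    exact ⟨itr ψ 1 x, (itr_add ψ n 1 x).symm⟩)
  have hfin := finite_ker_itr ψ hk m
  have hfin' : Finite (itr ψ m).ker := hfin
  set R := (itr ψ m).range with hR
  have hsurj : Function.Surjective (fun x : (itr ψ m).ker => (QuotientGroup.mk (x : D) : D ⧸ R)) := by
    intro q
    obtain ⟨x, rfl⟩ := QuotientGroup.mk_surjective q
    have h1 : itr ψ m x ∈ (itr ψ (m + m)).range := by
      have h2 : (itr ψ (m + m)).range = (itr ψ m).range := hm' (m + m) (by omega)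
      rw [h2]
      exact ⟨x, rfl⟩
    obtain ⟨e, he⟩ := h1
    rw [itr_add] at he
    refine ⟨⟨x * (itr ψ m e)⁻¹, ?_⟩, ?_⟩
    · rw [MonoidHom.mem_ker, map_mul, map_inv, he, mul_inv_cancel]
    · rw [QuotientGroup.eq]
      refine ⟨e, ?_⟩
      simp
  have hq : Finite (D ⧸ R) := Finite.of_surjective _ hsurj
  have hi : 0 < R.index := Nat.card_pos
  have htop : ∀ x : D, x ∈ R := by
    intro x
    obtain ⟨y, hy⟩ := hd x R.index hi
    rw [← hy]
    exact R.pow_index_mem y
  intro x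
  have h2 : (itr ψ (m + 1)).range = (itr ψ m).range := hm' (m + 1) (by omega)
  have h3 : x ∈ (itr ψ (m + 1)).range := by rw [h2]; exact htop x
  obtain ⟨y, hy⟩ := h3
  exact ⟨itr ψ m y, hy⟩

variable {G : Type u} [Group G]

lemma exists_comm_eq {D : Subgroup G} (hDc : Comm D) (hDd : Dvb D) (hDm : MinOn D) {w : G}
    (hw : ∀ x ∈ D, w⁻¹ * x * w ∈ D) (hfin : {t : G | t ∈ D ∧ t * w = w * t}.Finite) {u : G}
    (hu : u ∈ D) : ∃ c ∈ D, c⁻¹ * w * c = w * u := by
  let iC : CommGroup D :=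
    { (inferInstance : Group D) with
      mul_comm := fun x y => Subtype.ext (hDc x x.2 y y.2) }
  let ψ : D →* D :=
    { toFun := fun t => ⟨(w⁻¹ * (t : G)⁻¹ * w) * t, mul_mem (hw _ (inv_mem t.2)) t.2⟩
      map_one' := Subtype.ext (by simp)
      map_mul' := fun s t => Subtype.ext (by
        change (w⁻¹ * ((s : G) * t)⁻¹ * w) * ((s : G) * t)
          = ((w⁻¹ * (s : G)⁻¹ * w) * s) * ((w⁻¹ * (t : G)⁻¹ * w) * t)
        have h1 := hDc _ (hw _ (inv_mem t.2)) _ (mul_mem (hw _ (inv_mem s.2)) s.2)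
        calc (w⁻¹ * ((s : G) * t)⁻¹ * w) * ((s : G) * t)
            = (w⁻¹ * (t : G)⁻¹ * w) * ((w⁻¹ * (s : G)⁻¹ * w) * s) * t := by group
          _ = ((w⁻¹ * (s : G)⁻¹ * w) * s) * (w⁻¹ * (t : G)⁻¹ * w) * t := by rw [h1]
          _ = _ := by group) }
  have hker : (ψ.ker : Set D).Finite := by
    refine Set.Finite.of_finite_image (f := Subtype.val) (hfin.subset ?_)
      Subtype.val_injective.injOn
    rintro _ ⟨t, ht, rfl⟩
    refine ⟨t.2, ?_⟩
    have h1 : (w⁻¹ * (t : G)⁻¹ * w) * t = 1 := congrArg Subtype.val ht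
    calc (t : G) * w = t * w * ((w⁻¹ * (t : G)⁻¹ * w) * t) := by rw [h1, mul_one]
      _ = w * t := by group
  have hsurj := surj_of_finite_ker (D := D) (fun x n hn => by
      obtain ⟨y, hy, hyx⟩ := hDd x x.2 n hn
      exact ⟨⟨y, hy⟩, Subtype.ext hyx⟩) (fun f hf => by
      obtain ⟨m, hm⟩ := hDm (fun k => (f k).map D.subtype)
        (fun i j hij => Subgroup.map_mono (hf hij)) (fun k => by
          rintro _ ⟨x, -, rfl⟩
          exact x.2)
      exact ⟨m, fun k hk => Subgroup.map_injective D.subtype_injective (hm k hk)⟩) ψ hker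
  obtain ⟨c, hc⟩ := hsurj ⟨u, hu⟩
  refine ⟨c, c.2, ?_⟩
  have h1 : (w⁻¹ * (c : G)⁻¹ * w) * c = u := congrArg Subtype.val hc
  rw [← h1]; group

/-- `x` has order a power of `p` -/
def PEl (p : ℕ) (x : G) : Prop := ∃ k : ℕ, x ^ p ^ k = 1

lemma PEl.pow {p : ℕ} {x : G} (h : PEl p x) (n : ℕ) : PEl p (x ^ n) := by
  obtain ⟨k, hk⟩ := h
  exact ⟨k, by rw [← pow_mul, mul_comm, pow_mul, hk, one_pow]⟩

lemma isPGroup_zpowers {p : ℕ} {x : G} (h : PEl p x) : IsPGroup p (zpowers x) := by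
  obtain ⟨k, hk⟩ := h
  rintro ⟨_, j, rfl⟩
  refine ⟨k, Subtype.ext ?_⟩
  change (x ^ j) ^ p ^ k = 1
  rw [← zpow_natCast, ← zpow_mul, mul_comm, zpow_mul, zpow_natCast, hk, one_zpow]

/-- a `p`-group acting on a nontrivial finite `p`-group has a nontrivial fixed element -/
lemma exists_fixed {p : ℕ} [hp : Fact p.Prime] {L B : Subgroup G} (hL : IsPGroup p L)
    (hB : IsPGroup p B) (hBf : Finite B) (hB1 : B ≠ ⊥)
    (hn : ∀ l ∈ L, ∀ x ∈ B, l * x * l⁻¹ ∈ B) : ∃ v ∈ B, v ≠ 1 ∧ ∀ l ∈ L, l * v = v * l := by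
  let act : MulAction L B :=
    { smul := fun l x => ⟨l * x * (l : G)⁻¹, hn l l.2 x x.2⟩
      one_smul := fun x => Subtype.ext (by
        change (1 : G) * x * (1 : G)⁻¹ = x
        simp)
      mul_smul := fun l m x => Subtype.ext (by
        change ((l : G) * m) * x * ((l : G) * m)⁻¹ = l * (m * x * (m : G)⁻¹) * (l : G)⁻¹
        group) }
  have h1 : (1 : B) ∈ MulAction.fixedPoints L B := by
    intro l
    apply Subtype.ext
    change (l : G) * 1 * (l : G)⁻¹ = 1
    group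
  have hdvd : p ∣ Nat.card B := by
    obtain ⟨n, hn⟩ := IsPGroup.iff_card.1 hB
    have hn0 : n ≠ 0 := by
      rintro rfl
      rw [pow_zero] at hn
      exact hB1 (Subgroup.card_eq_one.1 hn)
    rw [hn]
    exact dvd_pow_self p hn0
  obtain ⟨v, hv, hv1⟩ := hL.exists_fixed_point_of_prime_dvd_card_of_fixed_point B hdvd h1
  refine ⟨v, v.2, fun h => hv1 (Subtype.ext h.symm), fun l hl => ?_⟩
  have h2 : l * (v : G) * l⁻¹ = v := congrArg Subtype.val (hv ⟨l, hl⟩)
  calc l * (v : G) = (l * (v : G) * l⁻¹) * l := by group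
    _ = v * l := by rw [h2]

/-- every finite subgroup has a normal Sylow `p`-subgroup -/
def PCl (p : ℕ) (G : Type u) [Group G] : Prop :=
  ∀ F : Subgroup G, Finite F → ∀ S : Sylow p F, (S : Subgroup F).Normal

lemma finite_closure [IsSimpleGroup G] (hG : IsQuasiChernikov G) {K : Subgroup G} (hK : K ≠ ⊤)
    {S : Set G} (hS : S.Finite) (hSK : S ⊆ K) : Finite (closure S) := by
  have hne : closure S ≠ ⊤ := by
    intro h
    exact hK (top_le_iff.1 (h ▸ (closure_le K).2 hSK))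
  have hfg : Group.FG (closure S) := (Group.fg_iff_subgroup_fg _).2
    ((Subgroup.fg_iff _).2 ⟨S, rfl, hS⟩)
  exact (hG.2 _ hne).finite

/-- a finite `p`-closed group generated by `p`-elements is a `p`-group -/
lemma isPGroup_closure {p : ℕ} (hN : PCl p G) [hp : Fact p.Prime] {S : Set G}
    (hS : ∀ s ∈ S, PEl p s) (hf : Finite (closure S)) : IsPGroup p (closure S) := by
  set F := closure S with hF
  let P : Sylow p F := default
  have hPn : (P : Subgroup F).Normal := hN F hf P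
  have hSP : ∀ s (hs : s ∈ S), (⟨s, subset_closure hs⟩ : F) ∈ (P : Subgroup F) := by
    intro s hs
    obtain ⟨k, hk⟩ := hS s hs
    have h1 : IsPGroup p (zpowers (⟨s, subset_closure hs⟩ : F)) :=
      isPGroup_zpowers ⟨k, Subtype.ext hk⟩
    obtain ⟨Q, hQ⟩ := h1.exists_le_sylow
    have hu : Q = P := by
      have := Sylow.unique_of_normal P hPn
      exact Subsingleton.elim _ _
    rw [← hu]
    exact hQ (mem_zpowers _)
  have hle : F ≤ (P : Subgroup F).map F.subtype := by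
    refine (closure_le _).2 ?_
    intro s hs
    exact ⟨⟨s, subset_closure hs⟩, hSP s hs, rfl⟩
  intro x
  obtain ⟨y, hy, hyx⟩ := hle x.2
  have hyx' : y = x := Subtype.ext hyx
  obtain ⟨k, hk⟩ := P.2 ⟨y, hy⟩
  refine ⟨k, ?_⟩
  rw [← hyx']
  exact congrArg Subtype.val hk

/-- a `p`-element `y` normalizing an abelian group `D` commutes with the `q`-elements of `D` -/
lemma commute_of_ne {p q : ℕ} (hN : PCl p G) (hp : p.Prime) (hq : q.Prime) (hpq : p ≠ q)
    {D : Subgroup G} (hDc : Comm D) {y s : G} (hy : PEl p y) (hyD : y ∈ Nz D) (hs : s ∈ D)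
    (hsq : PEl q s) (hf : Finite (closure ({y, s} : Set G))) : y * s = s * y := by
  have hFp : Fact p.Prime := ⟨hp⟩
  set F := closure ({y, s} : Set G) with hF
  have hyF : y ∈ F := subset_closure (Set.mem_insert _ _)
  have hsF : s ∈ F := subset_closure (Set.mem_insert_of_mem _ rfl)
  have h1 : IsPGroup p (zpowers (⟨y, hyF⟩ : F)) := by
    obtain ⟨k, hk⟩ := hy
    exact isPGroup_zpowers ⟨k, Subtype.ext hk⟩
  obtain ⟨P, hP⟩ := h1.exists_le_sylow
  have hPn : (P : Subgroup F).Normal := hN F hf P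
  have hyP : (⟨y, hyF⟩ : F) ∈ (P : Subgroup F) := hP (mem_zpowers _)
  -- the commutator
  set t : G := y * (s * y⁻¹ * s⁻¹) with ht
  have htP : (⟨y, hyF⟩ : F) * ((⟨s, hsF⟩ : F) * (⟨y, hyF⟩ : F)⁻¹ * (⟨s, hsF⟩ : F)⁻¹)
      ∈ (P : Subgroup F) := mul_mem hyP (hPn.conj_mem _ (inv_mem hyP) _)
  have htp : PEl p t := by
    obtain ⟨k, hk⟩ := P.2 ⟨_, htP⟩
    exact ⟨k, congrArg (fun x : (P : Subgroup F) => ((x : F) : G)) hk⟩
  have htq : PEl q t := by
    have e : t = (y * s * y⁻¹) * s⁻¹ := by rw [ht]; group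
    obtain ⟨k, hk⟩ := hsq
    refine ⟨k, ?_⟩
    rw [e, comm_mul_pow hDc (Nz.conj hyD hs) (inv_mem hs), conj_pow, hk, inv_pow, hk]
    group
  have ht1 : t = 1 := by
    obtain ⟨k, hk⟩ := htp
    obtain ⟨l, hl⟩ := htq
    have h2 := Nat.dvd_gcd (orderOf_dvd_of_pow_eq_one hk) (orderOf_dvd_of_pow_eq_one hl)
    have h3 : Nat.gcd (p ^ k) (q ^ l) = 1 := Nat.Coprime.pow k l ((Nat.coprime_primes hp hq).2 hpq)
    rw [h3] at h2
    exact orderOf_eq_one_iff.1 (Nat.dvd_one.1 h2)
  calc y * s = t * (s * y) := by rw [ht]; group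
    _ = s * y := by rw [ht1, one_mul]

/-- infinitely many `q`-elements -/
lemma q_infinite {D : Subgroup G} (hDc : Comm D) (hDd : Dvb D) {q : ℕ} (hq : q.Prime) {t : G}
    (ht : t ∈ D) (ht1 : t ≠ 1) (htq : t ^ q = 1) : {s : G | s ∈ D ∧ PEl q s}.Infinite := by
  intro hfin
  let T : Subgroup G :=
    { carrier := {s | s ∈ D ∧ PEl q s}
      one_mem' := ⟨one_mem D, 0, one_pow _⟩
      mul_mem' := by
        rintro x y ⟨hx, k, hk⟩ ⟨hy, l, hl⟩
        refine ⟨mul_mem hx hy, k + l, ?_⟩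
        rw [comm_mul_pow hDc hx hy, pow_add, pow_mul, hk, one_pow, one_mul, mul_comm, pow_mul, hl,
          one_pow]
      inv_mem' := by
        rintro x ⟨hx, k, hk⟩
        exact ⟨inv_mem hx, k, by rw [inv_pow, hk, inv_one]⟩ }
  have hTf : Finite T := hfin
  set N := Nat.card T with hN
  obtain ⟨s, hs, hst⟩ := hDd t ht (q ^ N) (pow_pos hq.pos N)
  have hs1 : s ^ q ^ (N + 1) = 1 := by rw [pow_succ, pow_mul, hst, htq]
  have hsT : s ∈ T := ⟨hs, N + 1, hs1⟩
  have ho : orderOf s = q ^ (N + 1) := by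
    refine (Nat.dvd_prime_pow hq).1 (orderOf_dvd_of_pow_eq_one hs1) |>.elim fun i hi => ?_
    have hiN : ¬ i ≤ N := by
      intro h
      apply ht1
      rw [← hst]
      apply orderOf_dvd_iff_pow_eq_one.1
      rw [hi.2]
      exact pow_dvd_pow q h
    have : i = N + 1 := by omega
    rw [hi.2, this]
  have h1 : s ^ N = 1 := by
    have := pow_card_eq_one' (x := (⟨s, hsT⟩ : T))
    exact congrArg Subtype.val this
  have h2 := Nat.le_of_dvd Nat.card_pos (orderOf_dvd_of_pow_eq_one h1)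
  rw [ho] at h2
  have h3 : N + 1 < q ^ (N + 1) := Nat.lt_pow_self hq.one_lt
  omega

/-- a `p`-element normalizing a divisible abelian group which is not a `p`-group centralizes
infinitely many of its elements -/
lemma infinite_of_not_p [IsSimpleGroup G] (hG : IsQuasiChernikov G) {p : ℕ} (hN : PCl p G)
    (hp : p.Prime) {y : G} (hy : PEl p y) {D : Subgroup G} (hD : D ≠ ⊥) (hDc : Comm D)
    (hDd : Dvb D) (hyD : y ∈ Nz D) (hnp : ∃ t ∈ D, ¬ PEl p t) :
    {t : G | t ∈ D ∧ t * y = y * t}.Infinite := by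
  have := hG.infinite
  obtain ⟨t, ht, htp⟩ := hnp
  -- a power of `t` of prime order `q ≠ p`
  have hpos := (isOfFinOrder hG t).orderOf_pos
  obtain ⟨e, m, hm, hem⟩ := Nat.exists_eq_pow_mul_and_not_dvd hpos.ne' p hp.ne_one
  have hm1 : m ≠ 1 := by
    rintro rfl
    apply htp
    refine ⟨e, ?_⟩
    rw [mul_one] at hem
    rw [← hem, pow_orderOf_eq_one]
  obtain ⟨q, hq, hqm⟩ := Nat.exists_prime_and_dvd hm1
  have hqp : p ≠ q := by
    rintro rfl
    exact hm hqm
  have hqo : q ∣ orderOf t := by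
    rw [hem]
    exact hqm.mul_left _
  have h1 : (t ^ (orderOf t / q)) ^ q = 1 := by
    rw [← pow_mul, Nat.div_mul_cancel hqo, pow_orderOf_eq_one]
  have h2 : t ^ (orderOf t / q) ≠ 1 := by
    intro h
    have h3 := Nat.le_of_dvd (Nat.div_pos (Nat.le_of_dvd hpos hqo) hq.pos)
      (orderOf_dvd_of_pow_eq_one h)
    have h4 := Nat.div_lt_self hpos hq.one_lt
    omega
  refine (q_infinite hDc hDd hq (pow_mem ht _) h2 h1).mono ?_
  rintro s ⟨hs, hsq⟩
  refine ⟨hs, (commute_of_ne hN hp hq hqp hDc hy hyD hs hsq ?_).symm⟩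
  refine finite_closure hG (nz_ne_top hDc hD) (Set.toFinite _) ?_
  rintro x (rfl | rfl)
  · exact hyD
  · change cjg D x = D
    ext z
    rw [mem_cjg]
    constructor
    · intro hz
      have h5 := mul_mem (mul_mem (inv_mem hs) hz) hs
      have e : x⁻¹ * (x * z * x⁻¹) * x = z := by group
      rwa [e] at h5
    · intro hz
      exact mul_mem (mul_mem hs hz) (inv_mem hs)

/-- an element commuting with `x` normalizes the divisible part of the centralizer of `x` -/
lemma mem_Nz_div {x y : G} {E : Subgroup G} (hE : IsDiv (centralizer ({x} : Set G)) E)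
    (hy : y * x = x * y) : y ∈ Nz E := by
  have hyC : y ∈ centralizer ({x} : Set G) := mem_centralizer_singleton_iff.2 hy
  have hEy : ∀ t, t ∈ E ↔ y * t * y⁻¹ ∈ E := hE.normalizes fun t => by
    constructor
    · intro ht
      exact mul_mem (mul_mem hyC ht) (inv_mem hyC)
    · intro ht
      have := mul_mem (mul_mem (inv_mem hyC) ht) hyC
      have e : y⁻¹ * (y * t * y⁻¹) * y = t := by group
      rwa [e] at this
  rw [mem_Nz]
  ext t
  exact (hEy t).symm

lemma exists_pow_form {u w : G} (huw : u * w = w * u) {v : G}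
    (hv : v ∈ closure ({u, w} : Set G)) : ∃ i j : ℤ, v = u ^ i * w ^ j := by
  have hc : Commute u w := huw
  induction hv using closure_induction with
  | mem x hx =>
    rcases hx with rfl | hx
    · exact ⟨1, 0, by simp⟩
    · rw [Set.mem_singleton_iff] at hx
      subst hx
      exact ⟨0, 1, by simp⟩
  | one => exact ⟨0, 0, by simp⟩
  | mul x y _ _ hx hy =>
    obtain ⟨i, j, rfl⟩ := hx
    obtain ⟨k, l, rfl⟩ := hy
    refine ⟨i + k, j + l, ?_⟩
    have h1 : w ^ j * u ^ k = u ^ k * w ^ j := ((hc.zpow_zpow k j).eq).symm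
    rw [zpow_add, zpow_add]
    calc u ^ i * w ^ j * (u ^ k * w ^ l) = u ^ i * (w ^ j * u ^ k) * w ^ l := by group
      _ = u ^ i * (u ^ k * w ^ j) * w ^ l := by rw [h1]
      _ = _ := by group
  | inv x _ hx =>
    obtain ⟨i, j, rfl⟩ := hx
    refine ⟨-i, -j, ?_⟩
    have h1 := (hc.zpow_zpow i j).eq
    rw [h1]
    group

lemma zpow_eq_one_of {p : ℕ} (hp : p.Prime) {u w : G} (hu1 : u ≠ 1) (hup : u ^ p = 1)
    (hwp : w ^ p = 1) {j : ℤ} (h : u ^ j = 1) : w ^ j = 1 := by
  have ho : orderOf u = p := orderOf_eq_prime hup hu1 (hp := ⟨hp⟩)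
  have h1 := orderOf_dvd_iff_zpow_eq_one.2 h
  rw [ho] at h1
  obtain ⟨k, rfl⟩ := h1
  rw [zpow_mul, zpow_natCast, hwp, one_zpow]

/-- **No perpendicular elements.** -/
theorem no_perp [IsSimpleGroup G] (hG : IsQuasiChernikov G) {p : ℕ} (hN : PCl p G)
    (hp : p.Prime) {x y : G} (hx : x ≠ 1) (hy : y ≠ 1) (hxp : PEl p x) (hyp : PEl p y)
    (hxy : x * y = y * x) {M1 M2 : Subgroup G} (h1 : Att x M1) (h2 : Att y M2) : M1 = M2 := by
  have hinf := hG.infinite
  have hFp : Fact p.Prime := ⟨hp⟩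
  by_contra hne
  obtain ⟨E1, hE1, hE1m, -⟩ := exists_isDiv_min hG (centralizer_ne_top hx)
  obtain ⟨E2, hE2, hE2m, -⟩ := exists_isDiv_min hG (centralizer_ne_top hy)
  obtain ⟨hE1M, hE1ne⟩ := h1.div hG hE1
  obtain ⟨hE2M, hE2ne⟩ := h2.div hG hE2
  have hyE1 : y ∈ Nz E1 := mem_Nz_div hE1 hxy.symm
  have hxE2 : x ∈ Nz E2 := mem_Nz_div hE2 hxy
  -- `E1`, `E2` are `p`-groups
  have hE1p : ∀ t ∈ E1, PEl p t := by
    by_contra hcon
    push Not at hcon
    have h3 := infinite_of_not_p hG hN hp hyp hE1ne hE1.2.1 hE1.2.2.1 hyE1 hcon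
    obtain ⟨D, hD1, hD2, hD3, hD4⟩ := att_of_infinite hG h1.1 hE1M h3
    exact hne (Att.unique hG hy ⟨h1.1, D, hD1, hD2, hD3.trans hE1M, hD4⟩ h2)
  have hE2p : ∀ t ∈ E2, PEl p t := by
    by_contra hcon
    push Not at hcon
    have h3 := infinite_of_not_p hG hN hp hxp hE2ne hE2.2.1 hE2.2.2.1 hxE2 hcon
    obtain ⟨D, hD1, hD2, hD3, hD4⟩ := att_of_infinite hG h2.1 hE2M h3
    exact hne (Att.unique hG hx h1 ⟨h2.1, D, hD1, hD2, hD3.trans hE2M, hD4⟩)
  -- nontrivial elements of order `p`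
  have htors : ∀ E : Subgroup G, E ≠ ⊥ → (hc : Comm E) → (∀ t ∈ E, PEl p t) →
      tors E hc p ≠ ⊥ := by
    intro E hE hc hEp h
    obtain ⟨t, ht1⟩ := ne_bot_iff_exists_ne_one.1 hE
    have ht1' : (t : G) ≠ 1 := fun h => ht1 (Subtype.ext h)
    obtain ⟨k, hk⟩ := exists_prime_pow hG ht1'
    obtain ⟨l, hl⟩ := (hEp t t.2).pow k
    have h3 : orderOf ((t : G) ^ k) ∣ p ^ l := orderOf_dvd_of_pow_eq_one hl
    have h4 : orderOf ((t : G) ^ k) = p := (Nat.prime_dvd_prime_iff_eq hk hp).1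
      (hk.dvd_of_dvd_pow h3)
    have h5 : (t : G) ^ k ∈ tors E hc p := ⟨pow_mem t.2 k, by rw [← h4]; exact pow_orderOf_eq_one _⟩
    rw [h, mem_bot] at h5
    rw [h5, orderOf_one] at h4
    exact hp.one_lt.ne h4
  have htorsp : ∀ (E : Subgroup G) (hc : Comm E), IsPGroup p (tors E hc p) := by
    rintro E hc ⟨t, ht, htp⟩
    exact ⟨1, Subtype.ext (by rw [pow_one]; exact htp)⟩
  have htorsf : ∀ (E : Subgroup G) (hc : Comm E), MinOn E → Finite (tors E hc p) :=
    fun E hc hm => finite_tors_prime hc hm hp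
  -- `u`
  obtain ⟨u, ⟨huE, hup⟩, hu1, huy⟩ := exists_fixed (L := zpowers y) (B := tors E1 hE1.2.1 p)
    (isPGroup_zpowers hyp) (htorsp _ _) (htorsf _ _ hE1m) (htors E1 hE1ne hE1.2.1 hE1p) (by
      rintro l hl t ⟨ht, htp⟩
      have hlE : l ∈ Nz E1 := (zpowers_le.2 hyE1) hl
      refine ⟨Nz.conj hlE ht, ?_⟩
      rw [conj_pow, htp]; group)
  have huy' : y * u = u * y := huy y (mem_zpowers y)
  have hux : u * x = x * u := mem_centralizer_singleton_iff.1 (hE1.1 huE)
  have huPEl : PEl p u := ⟨1, by rw [pow_one]; exact hup⟩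
  -- `w`
  have hLfin : Finite (closure ({x, u} : Set G)) := by
    refine finite_closure hG (centralizer_ne_top hy) (Set.toFinite _) ?_
    rintro z (rfl | rfl)
    · exact mem_centralizer_singleton_iff.2 hxy
    · exact mem_centralizer_singleton_iff.2 huy'.symm
  have hLp : IsPGroup p (closure ({x, u} : Set G)) := isPGroup_closure hN (by
    rintro z (rfl | rfl)
    · exact hxp
    · exact huPEl) hLfin
  have huE2 : u ∈ Nz E2 := mem_Nz_div hE2 huy'.symm
  have hLE2 : closure ({x, u} : Set G) ≤ Nz E2 := by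
    rw [closure_le]
    rintro z (rfl | rfl)
    · exact hxE2
    · exact huE2
  obtain ⟨w, ⟨hwE, hwp⟩, hw1, hwL⟩ := exists_fixed (L := closure ({x, u} : Set G))
    (B := tors E2 hE2.2.1 p) hLp (htorsp _ _) (htorsf _ _ hE2m)
    (htors E2 hE2ne hE2.2.1 hE2p) (by
      rintro l hl t ⟨ht, htp⟩
      refine ⟨Nz.conj (hLE2 hl) ht, ?_⟩
      rw [conj_pow, htp]; group)
  have hxw : x * w = w * x := hwL x (subset_closure (Set.mem_insert _ _))
  have huw : u * w = w * u := hwL u (subset_closure (Set.mem_insert_of_mem _ rfl))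
  -- finitely many fixed points
  have hf1 : {t : G | t ∈ E1 ∧ t * w = w * t}.Finite := by
    by_contra hcon
    obtain ⟨D, hD1, hD2, hD3, hD4⟩ := att_of_infinite hG h1.1 hE1M hcon
    have hA1 : Att w M1 := ⟨h1.1, D, hD1, hD2, hD3.trans hE1M, hD4⟩
    have hA2 : Att w M2 := ⟨h2.1, E2, hE2ne, hE2.2.2.1, hE2M, fun t ht =>
      mem_centralizer_singleton_iff.2 (hE2.2.1 t ht w hwE)⟩
    exact hne (Att.unique hG hw1 hA1 hA2)
  have hf2 : {t : G | t ∈ E2 ∧ t * u = u * t}.Finite := by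
    by_contra hcon
    obtain ⟨D, hD1, hD2, hD3, hD4⟩ := att_of_infinite hG h2.1 hE2M hcon
    have hA1 : Att u M2 := ⟨h2.1, D, hD1, hD2, hD3.trans hE2M, hD4⟩
    have hA2 : Att u M1 := ⟨h1.1, E1, hE1ne, hE1.2.2.1, hE1M, fun t ht =>
      mem_centralizer_singleton_iff.2 (hE1.2.1 t ht u huE)⟩
    exact hne (Att.unique hG hu1 hA2 hA1)
  -- transvections
  have hwE1 : w ∈ Nz E1 := mem_Nz_div hE1 hxw.symm
  obtain ⟨c, hcE, hc⟩ := exists_comm_eq hE1.2.1 hE1.2.2.1 hE1m (w := w)
    (fun t ht => Nz.conj' hwE1 ht) hf1 huE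
  obtain ⟨c', hcE', hc'⟩ := exists_comm_eq hE2.2.1 hE2.2.2.1 hE2m (w := u)
    (fun t ht => Nz.conj' huE2 ht) hf2 hwE
  have hcu : c * u = u * c := hE1.2.1 c hcE u huE
  have hcw' : c' * w = w * c' := hE2.2.1 c' hcE' w hwE
  -- the group `V`
  set V := closure ({u, w} : Set G) with hV
  have huV : u ∈ V := subset_closure (Set.mem_insert _ _)
  have hwV : w ∈ V := subset_closure (Set.mem_insert_of_mem _ rfl)
  have hVc : Comm V := by
    intro s hs t ht
    obtain ⟨i, j, rfl⟩ := exists_pow_form huw hs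
    obtain ⟨k, l, rfl⟩ := exists_pow_form huw ht
    have hc : Commute u w := huw
    have e1 : Commute (u ^ i * w ^ j) (u ^ k * w ^ l) := by
      refine Commute.mul_left (Commute.mul_right ?_ ?_) (Commute.mul_right ?_ ?_)
      · exact (Commute.refl u).zpow_zpow i k
      · exact hc.zpow_zpow i l
      · exact (hc.symm).zpow_zpow j k
      · exact (Commute.refl w).zpow_zpow j l
    exact e1.eq
  have hVne : V ≠ ⊥ := by
    intro h
    rw [h, mem_bot] at huV
    exact hu1 huV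
  have hVfin : Finite V := by
    refine finite_closure hG (centralizer_ne_top hy) (Set.toFinite _) ?_
    rintro z (rfl | rfl)
    · exact mem_centralizer_singleton_iff.2 huy'.symm
    · exact hE2.1 hwE
  have hVp : IsPGroup p V := isPGroup_closure hN (by
    rintro z (rfl | rfl)
    · exact huPEl
    · exact ⟨1, by rw [pow_one]; exact hwp⟩) hVfin
  -- normalizing elements
  have hnz : ∀ d : G, d⁻¹ * u * d ∈ V → d⁻¹ * w * d ∈ V → d ∈ Nz V := by
    intro d hdu hdw
    have hle : V ≤ cjg V d⁻¹ := by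
      rw [hV, closure_le]
      rintro z (rfl | rfl)
      · change d⁻¹ * z * d⁻¹⁻¹ ∈ V
        rw [inv_inv]; exact hdu
      · change d⁻¹ * z * d⁻¹⁻¹ ∈ V
        rw [inv_inv]; exact hdw
    have hfin' : Finite (cjg V d⁻¹) := by
      refine Finite.of_injective (fun t : cjg V d⁻¹ => (⟨d⁻¹ * t * d⁻¹⁻¹, t.2⟩ : V)) ?_
      intro s t hst
      have h3 := congrArg Subtype.val hst
      exact Subtype.ext (mul_left_cancel (mul_right_cancel h3))
    have hcard : Nat.card (cjg V d⁻¹) ≤ Nat.card V :=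
      Nat.card_le_card_of_injective (fun t : cjg V d⁻¹ => (⟨d⁻¹ * t * d⁻¹⁻¹, t.2⟩ : V)) (by
        intro s t hst
        have h3 := congrArg Subtype.val hst
        exact Subtype.ext (mul_left_cancel (mul_right_cancel h3)))
    have heq : V = cjg V d⁻¹ := Subgroup.eq_of_le_of_card_ge hle hcard
    have h4 : d⁻¹ ∈ Nz V := heq.symm
    have h5 := inv_mem h4
    rwa [inv_inv] at h5
  have hcV : c ∈ Nz V := by
    refine hnz c ?_ ?_
    · have e : c⁻¹ * u * c = u := by
        calc c⁻¹ * u * c = c⁻¹ * (u * c) := by group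
          _ = c⁻¹ * (c * u) := by rw [hcu]
          _ = u := by group
      rw [e]; exact huV
    · rw [hc]; exact mul_mem hwV huV
  have hcV' : c' ∈ Nz V := by
    refine hnz c' ?_ ?_
    · rw [hc']; exact mul_mem huV hwV
    · have e : c'⁻¹ * w * c' = w := by
        calc c'⁻¹ * w * c' = c'⁻¹ * (w * c') := by group
          _ = c'⁻¹ * (c' * w) := by rw [hcw']
          _ = w := by group
      rw [e]; exact hwV
  have hL'fin : Finite (closure ({c, c'} : Set G)) := by
    refine finite_closure hG (nz_ne_top hVc hVne) (Set.toFinite _) ?_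
    rintro z (rfl | rfl)
    · exact hcV
    · exact hcV'
  have hL'p : IsPGroup p (closure ({c, c'} : Set G)) := isPGroup_closure hN (by
    rintro z (rfl | rfl)
    · exact hE1p _ hcE
    · exact hE2p _ hcE') hL'fin
  have hL'V : closure ({c, c'} : Set G) ≤ Nz V := by
    rw [closure_le]
    rintro z (rfl | rfl)
    · exact hcV
    · exact hcV'
  obtain ⟨v, hvV, hv1, hvL⟩ := exists_fixed (L := closure ({c, c'} : Set G)) (B := V) hL'p hVp
    hVfin hVne (fun l hl t ht => Nz.conj (hL'V hl) ht)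
  have hvc : c * v = v * c := hvL c (subset_closure (Set.mem_insert _ _))
  have hvc' : c' * v = v * c' := hvL c' (subset_closure (Set.mem_insert_of_mem _ rfl))
  obtain ⟨i, j, hij⟩ := exists_pow_form huw hvV
  have hcom : Commute u w := huw
  -- `u ^ j = 1`
  have hj : u ^ j = 1 := by
    have e1 : c⁻¹ * v * c = v := by
      calc c⁻¹ * v * c = c⁻¹ * (v * c) := by group
        _ = c⁻¹ * (c * v) := by rw [hvc]
        _ = v := by group
    have e2 : c⁻¹ * v * c = u ^ i * (w * u) ^ j := by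
      have e3 : c⁻¹ * u * c = u := by
        calc c⁻¹ * u * c = c⁻¹ * (u * c) := by group
          _ = c⁻¹ * (c * u) := by rw [hcu]
          _ = u := by group
      have e4 : (c⁻¹ * u * c⁻¹⁻¹) ^ i = c⁻¹ * u ^ i * c⁻¹⁻¹ := conj_zpow
      have e5 : (c⁻¹ * w * c⁻¹⁻¹) ^ j = c⁻¹ * w ^ j * c⁻¹⁻¹ := conj_zpow
      rw [inv_inv, e3] at e4
      rw [inv_inv, hc] at e5
      rw [e4, e5, hij]; group
    rw [e1, hij, (hcom.symm).mul_zpow] at e2
    have e6 : w ^ j = w ^ j * u ^ j := mul_left_cancel e2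
    exact (mul_eq_left.1 e6.symm)
  have hi : w ^ i = 1 := by
    have e1 : c'⁻¹ * v * c' = v := by
      calc c'⁻¹ * v * c' = c'⁻¹ * (v * c') := by group
        _ = c'⁻¹ * (c' * v) := by rw [hvc']
        _ = v := by group
    have e2 : c'⁻¹ * v * c' = (u * w) ^ i * w ^ j := by
      have e3 : c'⁻¹ * w * c' = w := by
        calc c'⁻¹ * w * c' = c'⁻¹ * (w * c') := by group
          _ = c'⁻¹ * (c' * w) := by rw [hcw']
          _ = w := by group
      have e4 : (c'⁻¹ * u * c'⁻¹⁻¹) ^ i = c'⁻¹ * u ^ i * c'⁻¹⁻¹ := conj_zpow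
      have e5 : (c'⁻¹ * w * c'⁻¹⁻¹) ^ j = c'⁻¹ * w ^ j * c'⁻¹⁻¹ := conj_zpow
      rw [inv_inv, hc'] at e4
      rw [inv_inv, e3] at e5
      rw [e4, e5, hij]; group
    rw [e1, hij, hcom.mul_zpow] at e2
    have e6 : u ^ i = u ^ i * w ^ i := mul_right_cancel e2
    exact (mul_eq_left.1 e6.symm)
  apply hv1
  rw [hij, zpow_eq_one_of hp hw1 hwp hup hi, zpow_eq_one_of hp hu1 hup hwp hj, one_mul]

end Pool.Agent.Helper24.QC
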