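import Pool.Agent.Helper24.QC.Large

set_option autoImplicit false

/-!
# Elements of prime order of a proper subgroup fall into finitely many classes
-/

universe u

namespace Pool.Agent.Helper24.QC

open Subgroup Pool.Agent.Helper36.QC

variable {G : Type u} [Group G]

/-- the elements of exponent `q` in the coset `s N` are conjugate to elements `s e`, `e ^ q = 1` -/
lemma coset_conj {N : Subgroup G} (hc : Comm N) (hd : Dvb N) {s : G}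
    (hs : ∀ x ∈ N, s⁻¹ * x * s ∈ N) {q : ℕ} (hq : 0 < q) (hsq : s ^ q = 1) {μ : G} (hμ : μ ∈ N)
    (hμq : (s * μ) ^ q = 1) : ∃ x ∈ N, ∃ e ∈ N, e ^ q = 1 ∧ s * μ = x⁻¹ * (s * e) * x := by
  let ψ : G → G := fun x => (s⁻¹ * x⁻¹ * s) * x
  have hψN : ∀ x ∈ N, ψ x ∈ N := fun x hx => mul_mem (hs _ (inv_mem hx)) hx
  have hψmul : ∀ x ∈ N, ∀ y ∈ N, ψ (x * y) = ψ x * ψ y := by
    intro x hx y hy
    change (s⁻¹ * (x * y)⁻¹ * s) * (x * y) = ((s⁻¹ * x⁻¹ * s) * x) * ((s⁻¹ * y⁻¹ * s) * y)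
    have h1 := hc _ (hs _ (inv_mem hy)) _ (mul_mem (hs _ (inv_mem hx)) hx)
    calc (s⁻¹ * (x * y)⁻¹ * s) * (x * y)
        = (s⁻¹ * y⁻¹ * s) * ((s⁻¹ * x⁻¹ * s) * x) * y := by group
      _ = ((s⁻¹ * x⁻¹ * s) * x) * (s⁻¹ * y⁻¹ * s) * y := by rw [h1]
      _ = _ := by group
  have hψpow : ∀ x ∈ N, ∀ k : ℕ, ψ (x ^ k) = ψ x ^ k := by
    intro x hx k
    induction k with
    | zero =>
      change (s⁻¹ * (x ^ 0)⁻¹ * s) * x ^ 0 = ψ x ^ 0
      simp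
    | succ k ih => rw [pow_succ, pow_succ, hψmul _ (pow_mem hx k) _ hx, ih]
  have key : ∀ k : ℕ, ∃ t ∈ N, (s * μ) ^ k = s ^ k * μ ^ k * ψ t := by
    intro k
    induction k with
    | zero =>
      refine ⟨1, one_mem N, ?_⟩
      change (s * μ) ^ 0 = s ^ 0 * μ ^ 0 * ((s⁻¹ * 1⁻¹ * s) * 1)
      simp
    | succ k ih =>
      obtain ⟨t, ht, hk⟩ := ih
      set y := μ ^ k * ψ t with hy
      have hyN : y ∈ N := mul_mem (pow_mem hμ k) (hψN t ht)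
      refine ⟨t * y⁻¹, mul_mem ht (inv_mem hyN), ?_⟩
      have h1 : ψ (t * y⁻¹) = ψ t * ψ y⁻¹ := hψmul t ht _ (inv_mem hyN)
      have h2 : ψ y⁻¹ = s⁻¹ * y * s * y⁻¹ := by
        change (s⁻¹ * (y⁻¹)⁻¹ * s) * y⁻¹ = _
        rw [inv_inv]
      have h3 : s⁻¹ * y * s = ψ y⁻¹ * y := by rw [h2]; group
      have h4 : ψ y⁻¹ * y * μ = μ ^ (k + 1) * (ψ t * ψ y⁻¹) := by
        have e1 := hc _ (hψN _ (inv_mem hyN)) _ (mul_mem (mul_mem (pow_mem hμ k) (hψN t ht)) hμ)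
        have e2 := hc _ (hψN t ht) μ hμ
        calc ψ y⁻¹ * y * μ = ψ y⁻¹ * (μ ^ k * ψ t * μ) := by rw [hy]; group
          _ = (μ ^ k * ψ t * μ) * ψ y⁻¹ := e1
          _ = μ ^ k * (ψ t * μ) * ψ y⁻¹ := by group
          _ = μ ^ k * (μ * ψ t) * ψ y⁻¹ := by rw [e2]
          _ = μ ^ (k + 1) * (ψ t * ψ y⁻¹) := by rw [pow_succ]; group
      calc (s * μ) ^ (k + 1) = (s * μ) ^ k * (s * μ) := pow_succ _ _
        _ = s ^ k * μ ^ k * ψ t * (s * μ) := by rw [hk]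
        _ = s ^ k * s * (s⁻¹ * (μ ^ k * ψ t) * s) * μ := by group
        _ = s ^ (k + 1) * (s⁻¹ * y * s) * μ := by rw [← hy, pow_succ]
        _ = s ^ (k + 1) * (ψ y⁻¹ * y * μ) := by rw [h3]; group
        _ = s ^ (k + 1) * (μ ^ (k + 1) * (ψ t * ψ y⁻¹)) := by rw [h4]
        _ = s ^ (k + 1) * μ ^ (k + 1) * ψ (t * y⁻¹) := by rw [h1]; group
  obtain ⟨t, ht, hk⟩ := key q
  rw [hμq, hsq, one_mul] at hk
  -- `μ ^ q = ψ t⁻¹`
  obtain ⟨v, hv, hvt⟩ := hd _ (inv_mem ht) q hq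
  have h5 : ψ t⁻¹ * ψ t = 1 := by
    rw [← hψmul _ (inv_mem ht) _ ht, inv_mul_cancel]
    change (s⁻¹ * 1⁻¹ * s) * 1 = 1
    simp
  have h6 : μ ^ q = ψ v ^ q := by
    rw [← hψpow v hv, hvt, eq_inv_of_mul_eq_one_left hk.symm, eq_inv_of_mul_eq_one_left h5]
  refine ⟨v, hv, μ * (ψ v)⁻¹, mul_mem hμ (inv_mem (hψN v hv)), ?_, ?_⟩
  · rw [comm_mul_pow hc hμ (inv_mem (hψN v hv)), inv_pow, ← h6, mul_inv_cancel]
  · have h7 := hc (s⁻¹ * v⁻¹ * s) (hs _ (inv_mem hv)) (μ * (ψ v)⁻¹)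
      (mul_mem hμ (inv_mem (hψN v hv)))
    have h8 := hc (μ * (ψ v)⁻¹) (mul_mem hμ (inv_mem (hψN v hv))) (s⁻¹ * v⁻¹ * s)
      (hs _ (inv_mem hv))
    calc s * μ = s * ((μ * (ψ v)⁻¹) * ψ v) := by group
      _ = s * ((μ * (ψ v)⁻¹) * (s⁻¹ * v⁻¹ * s)) * v := by
          change s * ((μ * (ψ v)⁻¹) * ((s⁻¹ * v⁻¹ * s) * v)) = _
          group
      _ = s * ((s⁻¹ * v⁻¹ * s) * (μ * (ψ v)⁻¹)) * v := by rw [h8]
      _ = v⁻¹ * (s * (μ * (ψ v)⁻¹)) * v := by group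

/-- finitely many classes for a given exponent -/
lemma exists_reps_exponent (hG : IsQuasiChernikov G) {K : Subgroup G} (hK : K ≠ ⊤) {q : ℕ}
    (hq : 0 < q) : ∃ S : Set G, S.Finite ∧ ∀ a ∈ K, a ^ q = 1 → ∃ x ∈ K, ∃ r ∈ S,
      a = x⁻¹ * r * x := by
  classical
  obtain ⟨N, ⟨hNK, hNc, hNd, -⟩, hNm, hNn, hNf, -⟩ := exists_isDiv_min hG hK
  have hfin : Finite (K ⧸ N.subgroupOf K) := inferInstance
  let σ : K ⧸ N.subgroupOf K → G := fun c =>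
    if h : ∃ s : K, (QuotientGroup.mk s : K ⧸ N.subgroupOf K) = c ∧ (s : G) ^ q = 1 then
      (h.choose : G) else 1
  refine ⟨⋃ c : K ⧸ N.subgroupOf K, (fun e => σ c * e) '' {x : G | x ∈ N ∧ x ^ q = 1},
    Set.finite_iUnion fun c => (finite_tors hNc hNm q hq.ne').image _, ?_⟩
  intro a ha haq
  have hex : ∃ s : K, (QuotientGroup.mk s : K ⧸ N.subgroupOf K) = QuotientGroup.mk (⟨a, ha⟩ : K) ∧
    (s : G) ^ q = 1 := ⟨⟨a, ha⟩, rfl, haq⟩
  have hσ : σ (QuotientGroup.mk (⟨a, ha⟩ : K)) = (hex.choose : G) := by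
    change (if h : ∃ s : K, (QuotientGroup.mk s : K ⧸ N.subgroupOf K)
      = QuotientGroup.mk (⟨a, ha⟩ : K) ∧ (s : G) ^ q = 1 then (h.choose : G) else 1) = _
    rw [dif_pos hex]
  obtain ⟨h1, h2⟩ := hex.choose_spec
  set s : K := hex.choose with hs
  rw [QuotientGroup.eq, mem_subgroupOf] at h1
  have hμ : (s : G)⁻¹ * a ∈ N := h1
  have hsn : ∀ x ∈ N, (s : G)⁻¹ * x * s ∈ N := by
    intro x hx
    have := hNn _ (inv_mem s.2) x hx
    rwa [inv_inv] at this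
  have ha' : (s : G) * ((s : G)⁻¹ * a) = a := by group
  obtain ⟨x, hx, e, he, heq, h3⟩ := coset_conj hNc hNd hsn hq h2 hμ (by rw [ha']; exact haq)
  refine ⟨x, hNK hx, (s : G) * e, ?_, ?_⟩
  · rw [Set.mem_iUnion]
    refine ⟨QuotientGroup.mk (⟨a, ha⟩ : K), e, ⟨he, heq⟩, ?_⟩
    change σ (QuotientGroup.mk (⟨a, ha⟩ : K)) * e = s * e
    rw [hσ]
  · rw [← h3, ha']

/-- Up to powers and conjugation a proper subgroup has only finitely many nontrivial elements. -/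
lemma exists_reps [IsSimpleGroup G] (hG : IsQuasiChernikov G) {K : Subgroup G} (hK : K ≠ ⊤) :
    ∃ S : Set G, S.Finite ∧ 1 ∉ S ∧ ∀ a ∈ K, a ≠ 1 → ∃ k : ℕ, ∃ x : G, ∃ r ∈ S,
      a ^ k = x⁻¹ * r * x := by
  have hfo := isOfFinOrder hG
  obtain ⟨N, ⟨hNK, hNc, hNd, -⟩, hNm, hNn, hNf, m, hm, hmN⟩ := exists_isDiv_min hG hK
  obtain ⟨l, hl⟩ := finite_primes hNc hNm
  have h1 : ∀ q : ℕ, ∃ S : Set G, S.Finite ∧ (0 < q → ∀ a ∈ K, a ^ q = 1 → ∃ x : G, ∃ r ∈ S,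
      a = x⁻¹ * r * x) := by
    intro q
    by_cases hq : 0 < q
    · obtain ⟨S, hS, hS'⟩ := exists_reps_exponent hG hK hq
      refine ⟨S, hS, fun _ a ha haq => ?_⟩
      obtain ⟨x, -, r, hr, hx⟩ := hS' a ha haq
      exact ⟨x, r, hr, hx⟩
    · exact ⟨∅, Set.finite_empty, fun h => absurd h hq⟩
  choose S hS hS' using h1
  refine ⟨(⋃ q ∈ Set.Iic (max m l), S q) \ {1}, ?_, fun h => h.2 rfl, ?_⟩
  · exact ((Set.finite_Iic _).biUnion fun q _ => hS q).subset Set.sdiff_subset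
  intro a ha ha1
  -- pass to prime order
  have ho1 : orderOf a ≠ 1 := fun h => ha1 (orderOf_eq_one_iff.1 h)
  obtain ⟨q, hq, hqa⟩ := Nat.exists_prime_and_dvd ho1
  have ho : orderOf (a ^ (orderOf a / q)) = q := by
    rw [orderOf_pow_of_dvd _ (Nat.div_dvd_of_dvd hqa), Nat.div_div_self hqa
      (hfo a).orderOf_pos.ne']
    have := Nat.div_pos (Nat.le_of_dvd (hfo a).orderOf_pos hqa) hq.pos
    omega
  set c := a ^ (orderOf a / q) with hc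
  have hcK : c ∈ K := pow_mem ha _
  have hcq : c ^ q = 1 := by rw [← ho]; exact pow_orderOf_eq_one c
  have hc1 : c ≠ 1 := by
    intro h
    rw [h, orderOf_one] at ho
    exact hq.one_lt.ne ho
  have hqb : q ≤ max m l := by
    by_contra hlt
    push Not at hlt
    have hqm : m < q := lt_of_le_of_lt (le_max_left _ _) hlt
    have hql : l < q := lt_of_le_of_lt (le_max_right _ _) hlt
    have h2 : (c ^ m) ^ q = 1 := by rw [← pow_mul, mul_comm, pow_mul, hcq, one_pow]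
    have h3 := hl q hq hql _ (hmN c hcK) h2
    have h4 := orderOf_dvd_of_pow_eq_one h3
    rw [ho] at h4
    exact absurd (Nat.le_of_dvd hm h4) (not_le.2 hqm)
  obtain ⟨x, r, hr, hx⟩ := hS' q hq.pos c hcK hcq
  refine ⟨orderOf a / q, x, r, ⟨?_, ?_⟩, hx⟩
  · rw [Set.mem_iUnion₂]
    exact ⟨q, hqb, hr⟩
  · intro h
    rw [Set.mem_singleton_iff] at h
    apply hc1
    rw [hx, h]
    group

/-- **Elements of large order, uniformly.** -/
theorem good_of_large_uniform [IsSimpleGroup G] [Group.FG G] (hG : IsQuasiChernikov G)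
    {H K : Subgroup G} (hH : H ≠ ⊤) (hK : K ≠ ⊤) :
    ∃ n : ℕ, ∀ a ∈ K, a ≠ 1 → ∀ b ∈ H, n < orderOf b → (good a b).Infinite := by
  obtain ⟨S, hS, hS1, hSK⟩ := exists_reps hG hK
  have h1 : ∀ r : G, ∃ n : ℕ, r ≠ 1 → ∀ b ∈ H, n < orderOf b → (good r b).Infinite := by
    intro r
    by_cases hr : r = 1
    · exact ⟨0, fun h => absurd hr h⟩
    · obtain ⟨n, hn⟩ := good_of_large hG hr hH
      exact ⟨n, fun _ => hn⟩
  choose n hn using h1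
  obtain ⟨m, hm⟩ := (hS.image n).bddAbove
  refine ⟨m, fun a ha ha1 b hb hbo => ?_⟩
  obtain ⟨k, x, r, hr, hx⟩ := hSK a ha ha1
  have hr1 : r ≠ 1 := fun h => hS1 (h ▸ hr)
  have h2 : n r ≤ m := hm ⟨r, hr, rfl⟩
  have h3 := hn r hr1 b hb (by omega)
  have h4 := good_conj_left (c := x) h3
  rw [← hx] at h4
  exact h4.mono (good_pow_left k)

end Pool.Agent.Helper24.QC
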